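import Pool.Agent.Lib_MP_6fa13c_lc.Good

/-!
# Coding of sequences; the semantic content of a good code
-/

namespace Pool.Agent.MP_6fa13c_lc

open ZFSet Ordinal Forcing Order Inner

/-- the set of natural numbers -/
noncomputable abbrev omg : ZFSet.{0} := (ω : Ordinal.{0}).toZFSet

/-- the natural number `n` as a set -/
noncomputable def nn (n : ℕ) : ZFSet.{0} := (n : Ordinal.{0}).toZFSet

lemma mem_om {x : ZFSet.{0}} : x ∈ omg ↔ ∃ n, x = nn n := by
  unfold omg nn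
  rw [mem_toZFSet_iff]
  constructor
  · rintro ⟨a, ha, rfl⟩
    obtain ⟨n, rfl⟩ := lt_omega0.1 ha
    exact ⟨n, rfl⟩
  · rintro ⟨n, rfl⟩
    exact ⟨n, natCast_lt_omega0 n, rfl⟩

lemma nn_inj {m n : ℕ} : nn m = nn n ↔ m = n := by
  unfold nn
  rw [toZFSet_injective.eq_iff]
  exact Nat.cast_inj

lemma nn_mem (n : ℕ) : nn n ∈ omg := mem_om.2 ⟨n, rfl⟩

/-- the code of a sequence -/
noncomputable def code (v : ℕ → ZFSet.{0}) : ZFSet.{0} := ZFSet.range (fun n => pair (nn n) (v n))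

lemma mem_code {v : ℕ → ZFSet.{0}} {x : ZFSet.{0}} : x ∈ code v ↔ ∃ n, pair (nn n) (v n) = x := by
  unfold code; rw [mem_range]

lemma pair_mem_code {v : ℕ → ZFSet.{0}} {n : ℕ} {x : ZFSet.{0}} :
    pair (nn n) x ∈ code v ↔ x = v n := by
  rw [mem_code]
  constructor
  · rintro ⟨m, hm⟩
    obtain ⟨h1, h2⟩ := pair_inj.1 hm
    rw [nn_inj] at h1
    subst h1
    exact h2.symm
  · rintro rfl
    exact ⟨n, rfl⟩

lemma code_inj {v w : ℕ → ZFSet.{0}} (h : code v = code w) : v = w := by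
  funext n
  have h1 : pair (nn n) (v n) ∈ code v := pair_mem_code.2 rfl
  rw [h, pair_mem_code] at h1
  exact h1

lemma code_isFunc {A : ZFSet.{0}} {v : ℕ → ZFSet.{0}} (hv : ∀ n, v n ∈ A) :
    IsFunc omg A (code v) := by
  constructor
  · intro p hp
    obtain ⟨n, rfl⟩ := mem_code.1 hp
    rw [pair_mem_prod]
    exact ⟨nn_mem n, hv n⟩
  · intro x hx
    obtain ⟨n, rfl⟩ := mem_om.1 hx
    refine ⟨v n, pair_mem_code.2 rfl, fun y hy => pair_mem_code.1 hy⟩

lemma isFunc_code {A s : ZFSet.{0}} (h : IsFunc omg A s) :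
    ∃ v : ℕ → (A : Set ZFSet.{0}), s = code (fun n => (v n).1) := by
  have h1 : ∀ n : ℕ, ∃ y : (A : Set ZFSet.{0}), pair (nn n) y.1 ∈ s := by
    intro n
    obtain ⟨y, hy, _⟩ := h.2 (nn n) (nn_mem n)
    exact ⟨⟨y, (pair_mem_prod.1 (h.1 hy)).2⟩, hy⟩
  choose v hv using h1
  refine ⟨v, ?_⟩
  ext p
  constructor
  · intro hp
    obtain ⟨a, ha, b, hb, rfl⟩ := mem_prod.1 (h.1 hp)
    obtain ⟨n, rfl⟩ := mem_om.1 ha
    rw [pair_mem_code]
    exact (h.2 (nn n) (nn_mem n)).unique hp (hv n)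
  · intro hp
    obtain ⟨n, rfl⟩ := mem_code.1 hp
    exact hv n

/-- `A` is closed under sequences of length `ω` -/
def OmClosed (A : ZFSet.{0}) : Prop := ∀ v : ℕ → (A : Set ZFSet.{0}), code (fun n => (v n).1) ∈ A

/-- codes of sequences in `A` -/
noncomputable def cd {A : ZFSet.{0}} (v : ℕ → (A : Set ZFSet.{0})) : ZFSet.{0} :=
  code (fun n => (v n).1)

lemma cd_inj {A : ZFSet.{0}} {v w : ℕ → (A : Set ZFSet.{0})} (h : cd v = cd w) : v = w := by
  funext n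
  exact Subtype.ext (congrFun (code_inj h) n)

lemma pair_mem_cd {A : ZFSet.{0}} {v : ℕ → (A : Set ZFSet.{0})} {n : ℕ} {x : ZFSet.{0}} :
    pair (nn n) x ∈ cd v ↔ x = (v n).1 := pair_mem_code

/-- `IsFun` in the universe -/
lemma isFun_cd {A : ZFSet.{0}} (v : ℕ → (A : Set ZFSet.{0})) : IsFun EV (cd v) omg A :=
  isFun_EV.2 (code_isFunc (fun n => (v n).2))

lemma all_cd {A : ZFSet.{0}} (hA : OmClosed A) {P : ZFSet.{0} → Prop} :
    (∀ s, EV s A → IsFun EV s omg A → P s) ↔ ∀ v : ℕ → (A : Set ZFSet.{0}), P (cd v) := by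
  constructor
  · intro h v
    exact h _ (hA v) (isFun_cd v)
  · intro h s _ hs
    obtain ⟨v, rfl⟩ := isFunc_code (isFun_EV.1 hs)
    exact h v

/-- the semantic version of the basic operations -/
def OpS {A : ZFSet.{0}} (c : Fin 7) (i i' : ℕ) (ρ : ℕ → ℕ) (x : ZFSet.{0})
    (R R' : Set (ℕ → (A : Set ZFSet.{0}))) : Set (ℕ → (A : Set ZFSet.{0})) :=
  match c with
  | 0 => Rᶜ
  | 1 => R ∩ R'
  | 2 => {v | ∀ y, Function.update v i y ∈ R}
  | 3 => {v | (v i).1 ∈ (v i').1}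
  | 4 => {v | v i = v i'}
  | 5 => {v | v ∘ ρ ∈ R}
  | 6 => {v | (v i).1 = x}

/-- the parameter `r` for the operation `c` -/
noncomputable def prm (c : Fin 7) (ρ : ℕ → ℕ) (x : ZFSet.{0}) : ZFSet.{0} :=
  match c with
  | 0 => nn 0
  | 1 => nn 0
  | 2 => nn 0
  | 3 => nn 0
  | 4 => nn 0
  | 5 => code (fun n => nn (ρ n))
  | 6 => x

lemma opB_cd {A : ZFSet.{0}} (hA : OmClosed A) (c : Fin 7) (i i' : ℕ)
    (ρ : ℕ → ℕ)
    (x : ZFSet.{0}) (R R' : Set (ℕ → (A : Set ZFSet.{0}))) {S S' : ZFSet.{0} → Prop}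
    (hS : ∀ v : ℕ → (A : Set ZFSet.{0}), S (cd v) ↔ v ∈ R)
    (hS' : ∀ v : ℕ → (A : Set ZFSet.{0}), S' (cd v) ↔ v ∈ R')
    (v : ℕ → (A : Set ZFSet.{0})) :
    OpB EV c omg A (nn i) (nn i') (prm c ρ x) S S' (cd v) ↔ v ∈ OpS c i i' ρ x R R' := by
  match c with
  | 0 => exact not_congr (hS v)
  | 1 => exact and_congr (hS v) (hS' v)
  | 2 =>
    change (∀ s', EV s' A → (IsFun EV s' omg A ∧ AgreeOff EV omg A (nn i) (cd v) s') → S s') ↔
      ∀ y, Function.update v i y ∈ R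
    constructor
    · intro h y
      rw [← hS]
      refine h _ (hA _) ⟨isFun_cd _, ?_⟩
      intro n hn z hz hni
      obtain ⟨m, rfl⟩ := mem_om.1 hn
      have hmi : m ≠ i := fun h => hni (by rw [h])
      rw [val_EV, val_EV, pair_mem_cd, pair_mem_cd, Function.update_of_ne hmi]
    · intro h s' _ hs'
      obtain ⟨v', rfl⟩ := isFunc_code (isFun_EV.1 hs'.1)
      have h1 : v' = Function.update v i (v' i) := by
        funext m
        by_cases hmi : m = i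
        · subst hmi; rw [Function.update_self]
        · rw [Function.update_of_ne hmi]
          have h2 := hs'.2 (nn m) (nn_mem m) (v m).1 (v m).2 (fun h => hmi (nn_inj.1 h))
          rw [val_EV, val_EV, pair_mem_cd] at h2
          exact (Subtype.ext (pair_mem_code.1 (h2.1 rfl))).symm
      change S (cd v')
      rw [hS, h1]
      exact h _
  | 3 =>
    change (∃ x, EV x A ∧ ∃ y, EV y A ∧ (Val EV (cd v) (nn i) x ∧ Val EV (cd v) (nn i') y ∧
      EV x y)) ↔ (v i).1 ∈ (v i').1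
    simp only [val_EV, pair_mem_cd]
    constructor
    · rintro ⟨x, _, y, _, rfl, rfl, h⟩; exact h
    · intro h; exact ⟨_, (v i).2, _, (v i').2, rfl, rfl, h⟩
  | 4 =>
    change (∃ x, EV x A ∧ (Val EV (cd v) (nn i) x ∧ Val EV (cd v) (nn i') x)) ↔ v i = v i'
    simp only [val_EV, pair_mem_cd]
    constructor
    · rintro ⟨x, _, h1, h2⟩; exact Subtype.ext (h1.symm.trans h2)
    · intro h; exact ⟨_, (v i).2, rfl, by rw [h]⟩
  | 5 =>
    change (∃ s', EV s' A ∧ ((IsFun EV s' omg A ∧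
      CompV EV omg A (code (fun n => nn (ρ n))) (cd v) s') ∧ S s')) ↔ v ∘ ρ ∈ R
    constructor
    · rintro ⟨s', _, ⟨h1, h2⟩, h3⟩
      obtain ⟨v', rfl⟩ := isFunc_code (isFun_EV.1 h1)
      have h4 : v' = v ∘ ρ := by
        funext n
        have h5 := h2 (nn n) (nn_mem n) (nn (ρ n)) (nn_mem _) (v (ρ n)).1 (v (ρ n)).2
          (by rw [val_EV, pair_mem_code])
        rw [val_EV, val_EV, pair_mem_cd] at h5
        exact (Subtype.ext (pair_mem_code.1 (h5.2 rfl))).symm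
      rw [← h4, ← hS]
      exact h3
    · intro h
      refine ⟨cd (v ∘ ρ), hA _, ⟨isFun_cd _, ?_⟩, (hS _).2 h⟩
      intro n hn m hm x hx hr
      obtain ⟨n, rfl⟩ := mem_om.1 hn
      obtain ⟨m, rfl⟩ := mem_om.1 hm
      rw [val_EV, pair_mem_code, nn_inj] at hr
      subst hr
      rw [val_EV, val_EV, pair_mem_cd, pair_mem_cd]
      rfl
  | 6 =>
    change Val EV (cd v) (nn i) x ↔ (v i).1 = x
    rw [val_EV, pair_mem_cd]
    exact eq_comm

/-- the semantic form of a (superstrong) extender: an operation on sets of sequences, together with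
the map `ι : A → B` which the ultrapower embedding will extend -/
structure Ext (A B : ZFSet.{0}) where
  K : Set (ℕ → (A : Set ZFSet.{0})) → Set (ℕ → (B : Set ZFSet.{0}))
  ι : ZFSet.{0} → ZFSet.{0}
  compl : ∀ R, K Rᶜ = (K R)ᶜ
  inter : ∀ R R', K (R ∩ R') = K R ∩ K R'
  all : ∀ i R, K {v | ∀ x, Function.update v i x ∈ R} = {s | ∀ y, Function.update s i y ∈ K R}
  mem : ∀ i j, K {v | (v i).1 ∈ (v j).1} = {s | (s i).1 ∈ (s j).1}
  eq : ∀ i j, K {v | v i = v j} = {s | s i = s j}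
  re : ∀ (r : ℕ → ℕ) R, K {v | v ∘ r ∈ R} = {s | s ∘ r ∈ K R}
  const : ∀ i, ∀ x ∈ A, K {v | (v i).1 = x} = {s | (s i).1 = ι x}
  ιB : ∀ x ∈ A, ι x ∈ B
  ιn : ∀ n, ι (nn n) = nn n
  ιom : ι omg = omg

/-- the set of codes of elements of `R` -/
noncomputable def setOf' {A : ZFSet.{0}} (R : Set (ℕ → (A : Set ZFSet.{0}))) : ZFSet.{0} :=
  ZFSet.sep (fun z => ∃ v ∈ R, z = cd v) A

lemma mem_setOf' {A : ZFSet.{0}} (hA : OmClosed A) {R : Set (ℕ → (A : Set ZFSet.{0}))}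
    {v : ℕ → (A : Set ZFSet.{0})} : cd v ∈ setOf' R ↔ v ∈ R := by
  unfold setOf'
  rw [mem_sep]
  constructor
  · rintro ⟨_, w, hw, h⟩
    rw [cd_inj h]; exact hw
  · intro h
    exact ⟨hA v, v, h, rfl⟩

theorem exists_ext {A PA K : ZFSet.{0}} {β : Ordinal.{0}} (hA : OmClosed A)
    (hB : OmClosed (V_ β)) (h : GoodD EV A PA (V_ β) K omg) :
    ∃ e : Ext A (V_ β), ∀ x, e.ι x = x := by
  obtain ⟨htr, hpw, hom, hAB, _, hop⟩ := h
  have hnA : ∀ n, nn n ∈ A := fun n => htr _ hom _ (nn_mem n)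
  have hPA : ∀ R : Set (ℕ → (A : Set ZFSet.{0})), setOf' R ∈ PA := by
    intro R
    have h1 : setOf' R ∈ V_ β := mem_vonNeumann_of_subset sep_subset hAB
    exact (hpw _ h1).2 (fun y hy => sep_subset hy)
  let KK : Set (ℕ → (A : Set ZFSet.{0})) → Set (ℕ → (V_ β : Set ZFSet.{0})) := fun R =>
    {s | pair (setOf' R) (cd s) ∈ K}
  have key : ∀ (c : Fin 7) (i i' : ℕ) (ρ : ℕ → ℕ) (x : ZFSet.{0}),
      prm c ρ x ∈ A → ∀ R R' : Set (ℕ → (A : Set ZFSet.{0})),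
      KK (OpS c i i' ρ x R R') = OpS c i i' ρ x (KK R) (KK R') := by
    intro c i i' ρ x hp R R'
    have h1 := hop c (nn i) (nn_mem i) (nn i') (nn_mem i') (prm c ρ x) hp
      (setOf' R) (hPA _) (setOf' R') (hPA _) (setOf' (OpS c i i' ρ x R R')) (hPA _) (by
        unfold Op
        rw [all_cd hA]
        intro v
        rw [opB_cd hA c i i' ρ x R R' (fun v => mem_setOf' hA) (fun v => mem_setOf' hA) v]
        exact mem_setOf' hA)
    unfold Op at h1
    rw [all_cd hB] at h1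
    ext s
    rw [← opB_cd hB c i i' ρ x (KK R) (KK R')
      (S := fun s => Val EV K (setOf' R) s) (S' := fun s => Val EV K (setOf' R') s)
      (fun v => by rw [val_EV]; rfl) (fun v => by rw [val_EV]; rfl) s]
    rw [← h1 s]
    exact val_EV.symm
  refine ⟨⟨KK, id, ?_, ?_, ?_, ?_, ?_, ?_, ?_, fun x hx => transV β _ hAB _ hx, fun _ => rfl,
    rfl⟩, fun _ => rfl⟩
  · intro R
    exact key 0 0 0 id ∅ (hnA 0) R R
  · intro R R'
    exact key 1 0 0 id ∅ (hnA 0) R R'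
  · intro i R
    exact key 2 i 0 id ∅ (hnA 0) R R
  · intro i i'
    exact key 3 i i' id ∅ (hnA 0) ∅ ∅
  · intro i i'
    exact key 4 i i' id ∅ (hnA 0) ∅ ∅
  · intro r R
    exact key 5 0 0 r ∅ (hA (fun n => ⟨nn (r n), hnA _⟩)) R R
  · intro i x hx
    exact key 6 i 0 id x hx ∅ ∅

end Pool.Agent.MP_6fa13c_lc
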