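import Mathlib.SetTheory.ZFC.VonNeumann
import Mathlib.SetTheory.ZFC.Ordinal
import Mathlib.SetTheory.Cardinal.Regular
import Pool.Agent.Lib_Forcing.SetTheory

/-!
# `Ψ_gss`-large cardinals and globally superstrong cardinals

Everything takes place in Mathlib's model `ZFSet` of ZFC. Ordinals are Mathlib's ordinals, and
`α.toZFSet` is the corresponding von Neumann ordinal. `V_ α` is the cumulative hierarchy.
-/

namespace Pool.Agent.MP_6fa13c_lc

open ZFSet Ordinal Forcing Order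

/-- the membership relation restricted to the class `X` -/
def memOn (X : Set ZFSet.{0}) (x y : X) : Prop := x.1 ∈ y.1

/-- `M` is a transitive class -/
def IsTransClass (M : Set ZFSet.{0}) : Prop := ∀ x ∈ M, ∀ y ∈ x, y ∈ M

/-- `j : (X, ∈) → (Y, ∈)` is an elementary embedding (for Tarski satisfaction of all first-order
formulas of the language of set theory). -/
def Elementary (X Y : Set ZFSet.{0}) (j : ZFSet.{0} → ZFSet.{0}) : Prop :=
  ∃ h : ∀ x ∈ X, j x ∈ Y, ∀ (φ : Fml) (v : ℕ → X),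
    Sat (memOn X) φ v ↔ Sat (memOn Y) φ (fun n => ⟨j (v n), h _ (v n).2⟩)

/-- `κ` is the critical point of `j`: the least ordinal moved by `j` -/
def CritPt (j : ZFSet.{0} → ZFSet.{0}) (κ : Ordinal.{0}) : Prop :=
  (∀ ξ < κ, j ξ.toZFSet = ξ.toZFSet) ∧ j κ.toZFSet ≠ κ.toZFSet

/-- `κ` is `1`-extendible: there are `ζ` and an elementary embedding `j : V_{κ+1} → V_ζ` with
critical point `κ`. -/
def OneExtendible (κ : Ordinal.{0}) : Prop :=
  ∃ (ζ : Ordinal.{0}) (j : ZFSet.{0} → ZFSet.{0}),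
    Elementary (V_ (κ + 1)) (V_ ζ) j ∧ CritPt j κ

/-- `κ` is an infinite cardinal (an initial ordinal) -/
def IsCard (κ : Ordinal.{0}) : Prop := ω ≤ κ ∧ κ.card.ord = κ

/-- the set `M` is closed under basic set operations: pairs, products and intersections -/
def ClosedBasic (M : ZFSet.{0}) : Prop :=
  ∀ x ∈ M, ∀ y ∈ M, ({x, y} : ZFSet) ∈ M ∧ x.prod y ∈ M ∧ x ∩ y ∈ M

/-- `μ` is a cardinal in the set `N`: no function in `N` maps an ordinal `α < μ` onto `μ` -/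
def IsCardIn (N : ZFSet.{0}) (μ : Ordinal.{0}) : Prop :=
  ∀ α < μ, ∀ f ∈ N, IsFunc α.toZFSet μ.toZFSet f →
    ¬ ∀ y ∈ μ.toZFSet, ∃ x ∈ α.toZFSet, pair x y ∈ f

/-- the tuple `⟨N, M, μ, ν, ρ⟩` is suitable: `M ⊆ N` are transitive sets closed under basic set
operations, `M ∩ Ord = N ∩ Ord` is a limit ordinal `o`, `μ < ν < ρ` are limit ordinals in `M`, and
`μ` is a cardinal in `N` -/
def Suitable (N M : ZFSet.{0}) (μ ν ρ : Ordinal.{0}) : Prop :=
  M ⊆ N ∧ M.IsTransitive ∧ N.IsTransitive ∧ ClosedBasic M ∧ ClosedBasic N ∧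
  (∃ o : Ordinal.{0}, IsSuccLimit o ∧ (∀ α : Ordinal.{0}, α.toZFSet ∈ M ↔ α < o) ∧
    ∀ α : Ordinal.{0}, α.toZFSet ∈ N ↔ α < o) ∧
  μ < ν ∧ ν < ρ ∧ IsSuccLimit μ ∧ IsSuccLimit ν ∧ IsSuccLimit ρ ∧
  μ.toZFSet ∈ M ∧ ν.toZFSet ∈ M ∧ ρ.toZFSet ∈ M ∧ IsCardIn N μ

/-- the formula `Ψ_gss`: the tuple is suitable and `N ∩ V_ν ⊆ M` -/
def PsiGss (N M : ZFSet.{0}) (μ ν ρ : Ordinal.{0}) : Prop :=
  Suitable N M μ ν ρ ∧ N ∩ V_ ν ⊆ M

/-- `V_κ ⊨ δ is Ψ-large`: for all limit ordinals `δ < η < θ` (below `κ`) there are unboundedly many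
(below `κ`) cardinals `l ≥ η` for which there are a transitive set `M` and an elementary embedding
`j : V_{θ+1} → M` with `j(δ) > l` and `Ψ(V_{j(θ)}, M ∩ V_{j(θ)}, l, j(δ), j(η))`. -/
def PsiLargeIn (κ : Ordinal.{0})
    (Ψ : ZFSet.{0} → ZFSet.{0} → Ordinal.{0} → Ordinal.{0} → Ordinal.{0} → Prop)
    (δ : Ordinal.{0}) : Prop :=
  ∀ η θ : Ordinal.{0}, IsSuccLimit η → IsSuccLimit θ → δ < η → η < θ → θ < κ →
    ∀ γ < κ, ∃ l, γ ≤ l ∧ η ≤ l ∧ l < κ ∧ IsCard l ∧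
      ∃ M ∈ V_ κ, M.IsTransitive ∧ ∃ j : ZFSet.{0} → ZFSet.{0}, Elementary (V_ (θ + 1)) M j ∧
        ∃ δ' η' θ' : Ordinal.{0}, j δ.toZFSet = δ'.toZFSet ∧ j η.toZFSet = η'.toZFSet ∧
          j θ.toZFSet = θ'.toZFSet ∧ l < δ' ∧ Ψ (V_ θ') (M ∩ V_ θ') l δ' η'

/-- `V_κ ⊨ μ is globally superstrong`: for every `l` with `μ < l < κ` there are a transitive class
`M ⊆ V_κ` and an elementary embedding `j : V_κ → M` with critical point `μ`, `j(μ) > l` and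
`V_{j(μ)} ⊆ M`. The classes of `V_κ` are all the subsets of `V_κ`. (For inaccessible `κ` this
amounts to the usual formulation by extenders in `V_κ`, as every such `j` yields one.) -/
def GloballySuperstrongIn (κ μ : Ordinal.{0}) : Prop :=
  μ < κ ∧ ∀ l, μ < l → l < κ → ∃ (M : Set ZFSet.{0}) (j : ZFSet.{0} → ZFSet.{0}),
    M ⊆ V_ κ ∧ IsTransClass M ∧ Elementary (V_ κ) M j ∧ CritPt j μ ∧
      ∃ μ' : Ordinal.{0}, j μ.toZFSet = μ'.toZFSet ∧ l < μ' ∧ ((V_ μ' : ZFSet) : Set ZFSet) ⊆ M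

/-- `V_κ ⊨` for every cardinal `δ`, `δ` is `Ψ_gss`-large if and only if some globally superstrong
cardinal `μ` satisfies `μ ≤ δ`. This is the equivalence of Q1, evaluated in `V_κ`. -/
def EquivalenceIn (κ : Ordinal.{0}) : Prop :=
  ∀ δ < κ, IsCard δ → (PsiLargeIn κ PsiGss δ ↔ ∃ μ ≤ δ, GloballySuperstrongIn κ μ)

end Pool.Agent.MP_6fa13c_lc
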