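import Pool.Agent.Lib_MP_6fa13c_lc.Ult

/-!
# The embedding of `V_κ` given by an extender
-/

namespace Pool.Agent.MP_6fa13c_lc

open ZFSet Ordinal Forcing Order Inner

namespace Ext

variable {A : ZFSet.{0}} {β κ : Ordinal.{0}} {e : Ext A (V_ β)}

section
variable (hwf : WellFounded (e.memC (κ := κ)))

/-- the trivial seed -/
noncomputable def s0 (hβ : nn 0 ∈ V_ β) : ℕ → (V_ β : Set ZFSet.{0}) := fun _ => ⟨nn 0, hβ⟩

open Classical in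
/-- the ultrapower embedding -/
noncomputable def J (hβ : nn 0 ∈ V_ β) (x : ZFSet.{0}) : ZFSet.{0} :=
  if hx : x ∈ V_ κ then pi hwf (s0 hβ, fun _ => ⟨x, hx⟩) else ∅

lemma J_eq (hβ : nn 0 ∈ V_ β) {x : ZFSet.{0}} (hx : x ∈ V_ κ) :
    J hwf hβ x = pi hwf (s0 hβ, fun _ => ⟨x, hx⟩) := dif_pos hx

theorem J_elementary (hβ : nn 0 ∈ V_ β) : Elementary (V_ κ) (MM hwf) (J hwf hβ) := by
  refine ⟨fun x hx => ?_, fun φ v => ?_⟩
  · rw [J_eq hwf hβ hx]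
    exact ⟨_, rfl⟩
  · have h1 := los hwf φ (fun i => (s0 hβ, fun _ => v i))
    have h1' := h1.trans (th_const (p := Sat (memOn (V_ κ : Set ZFSet.{0})) φ v))
    rw [← h1']
    have h2 : (fun i => (⟨pi hwf (s0 hβ, fun _ => v i), _, rfl⟩ : MM hwf)) =
        (fun n => ⟨J hwf hβ (v n).1, by rw [J_eq hwf hβ (v n).2]; exact ⟨_, rfl⟩⟩) := by
      funext i
      apply Subtype.ext
      exact (J_eq hwf hβ (v i).2).symm
    rw [h2]

/-- the ultrapower is contained in `V_κ` -/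
theorem pi_mem_V (hκ : Repl κ) (hA : A ∈ V_ κ) (hAne : ∃ x, x ∈ A) (hβ : β < κ)
    (hβne : nn 0 ∈ V_ β) (c : UC A (V_ β) κ) : pi hwf c ∈ V_ κ := by
  classical
  have ksA : KSm κ (ℕ → (A : Set ZFSet.{0})) := hκ.ksFun hκ.ksNat (Repl.ksSet hA hAne)
  have hVβ : V_ β ∈ V_ κ := vonNeumann_mem_of_lt hβ
  have ksB : KSm κ (ℕ → (V_ β : Set ZFSet.{0})) :=
    hκ.ksFun hκ.ksNat (Repl.ksSet hVβ ⟨_, hβne⟩)
  induction c using hwf.induction with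
  | _ c ih =>
    obtain ⟨γ, hγ, hc⟩ := hκ.bdK ksA (F := fun v => (c.2 v).1) (fun v => (c.2 v).2)
    -- make sure that `V_γ` is nonempty
    have hγ1 : succ γ < κ := hκ.lim.succ_lt hγ
    have h0 : (∅ : ZFSet.{0}) ∈ V_ (succ γ) := by
      rw [mem_vonNeumann, rank_empty]; exact bot_lt_succ γ
    have hVγ : V_ (succ γ) ∈ V_ κ := vonNeumann_mem_of_lt hγ1
    have hsub : ∀ x ∈ V_ (succ γ), x ∈ V_ κ := fun x hx => vonNeumann_subset_of_le hγ1.le hx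
    have ks : KSm κ ((ℕ → (V_ β : Set ZFSet.{0})) ×
        ((ℕ → (A : Set ZFSet.{0})) → (V_ (succ γ) : Set ZFSet.{0}))) :=
      hκ.ksProd ksB (hκ.ksFun ksA (Repl.ksSet hVγ ⟨_, h0⟩))
    let nm : (ℕ → (V_ β : Set ZFSet.{0})) ×
        ((ℕ → (A : Set ZFSet.{0})) → (V_ (succ γ) : Set ZFSet.{0})) → UC A (V_ β) κ :=
      fun p => (p.1, fun v => ⟨(p.2 v).1, hsub _ (p.2 v).2⟩)
    obtain ⟨γ', hγ', hb⟩ := hκ.bdK ks
      (F := fun p => if e.memC (nm p) c then pi hwf (nm p) else ∅) (by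
        intro p
        split_ifs with hp
        · exact ih _ hp
        · rw [mem_vonNeumann, rank_empty]; exact hκ.lim.bot_lt)
    have h1 : pi hwf c ⊆ V_ γ' := by
      intro z hz
      obtain ⟨a, ha, rfl⟩ := (mem_pi hwf).1 hz
      let p : (ℕ → (V_ β : Set ZFSet.{0})) ×
        ((ℕ → (A : Set ZFSet.{0})) → (V_ (succ γ) : Set ZFSet.{0})) :=
        (a.1, fun v => if hv : (a.2 v).1 ∈ V_ (succ γ) then ⟨(a.2 v).1, hv⟩ else ⟨∅, h0⟩)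
      have hpe : e.eqC a (nm p) := by
        have hm : e.Th (mrg a.1 c.1) (fun v => (a.2 (v ∘ eL)).1 ∈ (c.2 (v ∘ eR)).1) := ha
        rw [eqC_iff (d := nm p) (S := mrg a.1 c.1) (r := eL) (r' := eL) (mrg_L _ _).symm
          (mrg_L _ _).symm]
        refine th_mono (fun v hv => ?_) hm
        have h2 : (a.2 (v ∘ eL)).1 ∈ V_ (succ γ) := by
          have h3 : (c.2 (v ∘ eR)).1 ∈ V_ (succ γ) :=
            vonNeumann_subset_of_le (le_succ γ) (hc _)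
          exact transV _ _ h3 _ hv
        simp only [nm, p, dif_pos h2]
      have h4 : e.memC (nm p) c := (memC_congr_left hpe).1 ha
      have h5 := hb p
      beta_reduce at h5
      rw [if_pos h4] at h5
      rw [pi_eq_of_eqC hwf hpe]
      exact h5
    rw [subset_vonNeumann] at h1
    rw [mem_vonNeumann]
    exact h1.trans_lt hγ'

/-- the first coordinate, as a function on sequences -/
noncomputable def p0 (hAκ : ∀ x ∈ A, x ∈ V_ κ) (v : ℕ → (A : Set ZFSet.{0})) :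
    (V_ κ : Set ZFSet.{0}) := ⟨(v 0).1, hAκ _ (v 0).2⟩

lemma exists_val (hAκ : ∀ x ∈ A, x ∈ V_ κ) (hβne : nn 0 ∈ V_ β) {a : UC A (V_ β) κ}
    {T : ℕ → (V_ β : Set ZFSet.{0})}
    {r : ℕ → ℕ} (har : a.1 = T ∘ r) (h : e.Th T (fun v => (a.2 (v ∘ r)).1 ∈ A)) :
    ∃ y, e.eqC a (cons y T, p0 hAκ) ∧
      e.Th (cons y T) (fun v => (v 0).1 = (a.2 ((v ∘ Nat.succ) ∘ r)).1) := by
  have h1 : e.Th T (fun v => ∃ x, (fun u : ℕ → (A : Set ZFSet.{0}) =>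
      (u 0).1 = (a.2 ((u ∘ Nat.succ) ∘ r)).1) (cons x v)) :=
    th_mono (fun v hv => ⟨⟨_, hv⟩, rfl⟩) h
  obtain ⟨y, hy⟩ := (th_ex0 (P := fun u : ℕ → (A : Set ZFSet.{0}) =>
      (u 0).1 = (a.2 ((u ∘ Nat.succ) ∘ r)).1) (y₀ := ⟨nn 0, hβne⟩)).1 h1
  refine ⟨y, ?_, hy⟩
  rw [eqC_iff (S := cons y T) (r := Nat.succ ∘ r) (r' := id) (by rw [har]; rfl) rfl]
  exact th_mono (fun v hv => hv.symm) hy

theorem pi_p0 (hAtr : IsTransClass A) (hAκ : ∀ x ∈ A, x ∈ V_ κ) (hβne : nn 0 ∈ V_ β)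
    (y : ZFSet.{0}) :
    ∀ S : ℕ → (V_ β : Set ZFSet.{0}), (S 0).1 = y → pi hwf (S, p0 hAκ) = y := by
  induction y using ZFSet.inductionOn with
  | _ y ih =>
    intro S hS
    ext z
    rw [mem_pi]
    constructor
    · rintro ⟨a, ha, rfl⟩
      have h1 : e.Th (mrg a.1 S) (fun v => (a.2 (v ∘ eL)).1 ∈ (v (eR 0)).1) := ha
      have h2 : e.Th (mrg a.1 S) (fun v => (a.2 (v ∘ eL)).1 ∈ A) :=
        th_mono (fun v hv => hAtr _ (v (eR 0)).2 _ hv) h1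
      obtain ⟨y', h3, h4⟩ := exists_val hAκ hβne (mrg_L a.1 S).symm h2
      have h5 := (memC_congr_left h3).1 ha
      rw [memC_iff (S := cons y' (mrg a.1 S)) (r := id) (r' := Nat.succ ∘ eR) rfl (by
        change S = mrg a.1 S ∘ eR
        exact (mrg_R _ _).symm)] at h5
      have h6 : e.Th (cons y' (mrg a.1 S)) (fun v => (v 0).1 ∈ (v (Nat.succ (eR 0))).1) := h5
      rw [th_mem] at h6
      have h7 : (cons y' (mrg a.1 S) (Nat.succ (eR 0))) = S 0 := congrFun (mrg_R a.1 S) 0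
      rw [h7, hS] at h6
      rw [pi_eq_of_eqC hwf h3, ih y'.1 h6 _ rfl]
      exact h6
    · intro hz
      have hzβ : z ∈ V_ β := transV β _ (S 0).2 _ (by rw [hS]; exact hz)
      refine ⟨(cons ⟨z, hzβ⟩ S, p0 hAκ), ?_, ih z hz _ rfl⟩
      rw [memC_iff (S := cons ⟨z, hzβ⟩ S) (r := id) (r' := Nat.succ) rfl rfl]
      have h1 : e.Th (cons ⟨z, hzβ⟩ S) (fun v => (v 0).1 ∈ (v 1).1) ↔ _ := th_mem 0 1
      refine h1.2 ?_
      change z ∈ (S 0).1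
      rw [hS]; exact hz

theorem J_ι (hAtr : IsTransClass A) (hAκ : ∀ x ∈ A, x ∈ V_ κ)
    (hβne : nn 0 ∈ V_ β) {x : ZFSet.{0}} (hx : x ∈ A) : J hwf hβne x = e.ι x := by
  rw [J_eq hwf hβne (hAκ x hx)]
  have h1 : e.eqC (s0 hβne, fun _ => ⟨x, hAκ x hx⟩)
      (cons ⟨e.ι x, e.ιB x hx⟩ (s0 hβne), p0 hAκ) := by
    rw [eqC_iff (S := cons ⟨e.ι x, e.ιB x hx⟩ (s0 hβne)) (r := Nat.succ) (r' := id) rfl rfl]
    exact th_mono (fun v hv => hv.symm) ((th_eqc (e := e) 0 hx).2 rfl)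
  rw [pi_eq_of_eqC hwf h1]
  exact pi_p0 hwf hAtr hAκ hβne (e.ι x) _ rfl

theorem V_sub_MM (hAtr : IsTransClass A) (hAκ : ∀ x ∈ A, x ∈ V_ κ)
    (hβne : nn 0 ∈ V_ β) : ((V_ β : ZFSet.{0}) : Set ZFSet.{0}) ⊆ MM hwf := by
  intro y hy
  exact ⟨(cons ⟨y, hy⟩ (s0 hβne), p0 hAκ), pi_p0 hwf hAtr hAκ hβne y _ rfl⟩

theorem J_A (hAtr : IsTransClass A) (hAκ : ∀ x ∈ A, x ∈ V_ κ) (hA : A ∈ V_ κ)
    (hβne : nn 0 ∈ V_ β) : J hwf hβne A = V_ β := by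
  rw [J_eq hwf hβne hA]
  ext z
  rw [mem_pi]
  constructor
  · rintro ⟨a, ha, rfl⟩
    obtain ⟨y, h3, _⟩ := exists_val hAκ hβne (mrg_L a.1 (s0 hβne)).symm ha
    rw [pi_eq_of_eqC hwf h3, pi_p0 hwf hAtr hAκ hβne y.1 _ rfl]
    exact y.2
  · intro hz
    refine ⟨(cons ⟨z, hz⟩ (s0 hβne), p0 hAκ), ?_, pi_p0 hwf hAtr hAκ hβne z _ rfl⟩
    rw [memC_iff (S := cons ⟨z, hz⟩ (s0 hβne)) (r := id) (r' := Nat.succ) rfl rfl]
    exact th_of (fun v => (v 0).2)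

end

end Ext

/-- the least ordinal not in `A` -/
lemma exists_ord (A : ZFSet.{0}) (hA : IsTransClass A) :
    ∃ α : Ordinal.{0}, α ≤ rank A ∧ ∀ ξ : Ordinal.{0}, ξ.toZFSet ∈ A ↔ ξ < α := by
  have hne : ∃ ξ : Ordinal.{0}, ξ.toZFSet ∉ A := ⟨rank A, fun h => by
    have := rank_lt_of_mem h
    rw [rank_toZFSet] at this
    exact lt_irrefl _ this⟩
  let α := WellFounded.min lt_wf {ξ : Ordinal.{0} | ξ.toZFSet ∉ A} hne
  have hα : α.toZFSet ∉ A := WellFounded.min_mem lt_wf {ξ : Ordinal.{0} | ξ.toZFSet ∉ A} hne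
  have hlt : ∀ ξ < α, ξ.toZFSet ∈ A := by
    intro ξ hξ
    by_contra hcon
    exact WellFounded.not_lt_min lt_wf {ξ : Ordinal.{0} | ξ.toZFSet ∉ A} hcon hξ
  refine ⟨α, ?_, fun ξ => ⟨fun h => ?_, hlt ξ⟩⟩
  · by_contra hcon
    push Not at hcon
    have := rank_lt_of_mem (hlt _ hcon)
    rw [rank_toZFSet] at this
    exact lt_irrefl _ this
  · by_contra hcon
    push Not at hcon
    rcases hcon.lt_or_eq with h1 | h1
    · exact hα (hA _ h _ (toZFSet_mem h1))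
    · rw [h1] at hα
      exact hα h

theorem gss_of_ext {κ : Ordinal.{0}} (hκ : Repl κ) {A : ZFSet.{0}} (hA : A ∈ V_ κ)
    (hAtr : IsTransClass A) (hom : omg ∈ A)
    (h : ∀ γ < κ, ∃ β, γ < β ∧ β < κ ∧ A ∈ V_ β ∧ OmClosed (V_ β) ∧
      ∃ e : Ext A (V_ β), ∀ x, e.ι x = x) :
    ∃ α, ω < α ∧ α ≤ rank A ∧ GloballySuperstrongIn κ α := by
  obtain ⟨α, hαr, hα⟩ := exists_ord A hAtr
  have hrA : rank A < κ := by rwa [mem_vonNeumann] at hA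
  refine ⟨α, (hα _).1 hom, hαr, hαr.trans_lt hrA, fun l hl hlκ => ?_⟩
  obtain ⟨β, hlβ, hβκ, hAβ, _, e, he⟩ := h l hlκ
  have hAκ : ∀ x ∈ A, x ∈ V_ κ := fun x hx => transV κ _ hA _ hx
  have hAB : ∀ x ∈ A, x ∈ V_ β := fun x hx => transV β _ hAβ _ hx
  have hwf := Ext.memC_wf (e := e) (κ := κ) hAtr hom
  have hβne : nn 0 ∈ V_ β := hAB _ (hAtr _ hom _ (nn_mem 0))
  have hAne : ∃ x, x ∈ A := ⟨_, hom⟩
  have hel := Ext.J_elementary hwf hβne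
  have hMtr := Ext.MM_trans hwf
  have hJA := Ext.J_A hwf hAtr hAκ hA hβne
  have hVM := Ext.V_sub_MM hwf hAtr hAκ hβne
  have hακ : α.toZFSet ∈ V_ κ := mem_V_of_lt (hαr.trans_lt hrA)
  have hαβ : α < β := by
    rw [mem_vonNeumann] at hAβ
    exact hαr.trans_lt hAβ
  -- `J α = β`
  have hR : Abs (fun _ E v => (∀ x, E x (v 0) → (E x (v 1) ∧ IsOrd E x)) ∧
      ∀ x, E x (v 1) → (IsOrd E x → E x (v 0))) :=
    Abs.and (Abs.ball 0 (Abs.and (Abs.mem _ _) (Abs.isOrd 0)))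
      (Abs.ball 1 (Abs.imp (Abs.isOrd 0) (Abs.mem _ _)))
  have hJ := (hel.abs (transV κ) hMtr hR (cons_in hακ (const_in hA))).1 (by
    constructor
    · intro x hx
      obtain ⟨ξ, hξ, rfl⟩ := mem_toZFSet_iff.1 hx
      exact ⟨(hα ξ).2 hξ, isOrd_EV_iff.2 ⟨ξ, rfl⟩⟩
    · intro x hx hord
      obtain ⟨ξ, rfl⟩ := isOrd_EV_iff.1 hord
      exact toZFSet_mem ((hα ξ).1 hx))
  have hJα : Ext.J hwf hβne α.toZFSet = β.toZFSet := by
    ext x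
    constructor
    · intro hx
      have h1 := hJ.1 x hx
      obtain ⟨ξ, rfl⟩ := isOrd_EV_iff.1 h1.2
      have h2 : ξ.toZFSet ∈ Ext.J hwf hβne A := h1.1
      rw [hJA] at h2
      exact toZFSet_mem (lt_of_mem_V h2)
    · intro hx
      obtain ⟨ξ, hξ, rfl⟩ := mem_toZFSet_iff.1 hx
      refine hJ.2 ξ.toZFSet ?_ (isOrd_EV_iff.2 ⟨ξ, rfl⟩)
      change ξ.toZFSet ∈ Ext.J hwf hβne A
      rw [hJA]
      exact mem_V_of_lt hξ
  refine ⟨Ext.MM hwf, Ext.J hwf hβne, ?_, hMtr, hel, ⟨?_, ?_⟩, β, hJα, hlβ, hVM⟩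
  · rintro _ ⟨c, rfl⟩
    exact Ext.pi_mem_V hwf hκ hA hAne hβκ hβne c
  · intro ξ hξ
    rw [Ext.J_ι hwf hAtr hAκ hβne ((hα ξ).2 hξ), he]
  · rw [hJα]
    intro h1
    exact hαβ.ne (toZFSet_injective h1).symm

end Pool.Agent.MP_6fa13c_lc
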