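import Pool.Agent.Lib_MP_6fa13c_lc.Jonsson

/-!
# The Kunen inconsistency, in the form needed here
-/

namespace Pool.Agent.MP_6fa13c_lc

open ZFSet Ordinal Forcing Order Inner

section vocab
variable {M : Type 1} (E : M → M → Prop)

/-- `h` is injective -/
def InjF (h : M) : Prop := ∀ x y z, Val E h x z → Val E h y z → x = y

/-- every power set of an element of `s` injects into `s` -/
def SLF (s : M) : Prop :=
  ∀ a, E a s → ∃ h p, (∀ x, (E x p ↔ ∀ y, E y x → E y a)) ∧ IsFun E h p s ∧ InjF E h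

/-- `F` is a Jónsson function for `s` -/
def JonF (F s w : M) : Prop :=
  ∀ g, IsFun E g s s → InjF E g → ∀ y, E y s → ∃ t u, IsFun E t w s ∧ IsFun E u w s ∧
    (∀ n, E n w → ∀ x z, Val E t n x → Val E g x z → Val E u n z) ∧ Val E F u y

end vocab

lemma FO.injF (i : ℕ) : FO (fun (M : Type 1) (E : M → M → Prop) v => InjF E (v i)) :=
  FO.all (FO.all (FO.all (FO.imp (FO.val _ _ _) (FO.imp (FO.val _ _ _) (FO.eq _ _)))))

lemma FO.slF (i : ℕ) : FO (fun (M : Type 1) (E : M → M → Prop) v => SLF E (v i)) :=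
  FO.all (FO.imp (FO.mem _ _) (FO.ex (FO.ex (FO.and
    (FO.all (FO.iff (FO.mem _ _) (FO.all (FO.imp (FO.mem _ _) (FO.mem _ _)))))
    (FO.and (FO.isFun _ _ _) (FO.injF _))))))

lemma FO.jonF (i j k : ℕ) :
    FO (fun (M : Type 1) (E : M → M → Prop) v => JonF E (v i) (v j) (v k)) :=
  FO.all (FO.imp (FO.isFun _ _ _) (FO.imp (FO.injF _) (FO.all (FO.imp (FO.mem _ _)
    (FO.ex (FO.ex (FO.and (FO.isFun _ _ _) (FO.and (FO.isFun _ _ _) (FO.and
      (FO.all (FO.imp (FO.mem _ _) (FO.all (FO.all (FO.imp (FO.val _ _ _)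
        (FO.imp (FO.val _ _ _) (FO.val _ _ _))))))) (FO.val _ _ _))))))))))

/-- `α` has an injection of its power set into `σ` for each `α < σ` -/
def SL (σ : Ordinal.{0}) : Prop :=
  ∀ α < σ, Cardinal.mk (Set (Set.Iio α)) ≤ Cardinal.mk (Set.Iio σ)

lemma isFun_on {X : Set ZFSet.{0}} (hX : IsTransClass X) (f a b : X) :
    IsFun (memOn X) f a b ↔ IsFunc a.1 b.1 f.1 := by
  have := (Abs.isFun 0 1 2).abs X hX (cons f (cons a (fun _ => b)))
  rw [← isFun_EV]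
  exact this

/-- the subset of `α` coded by a set of ordinals -/
noncomputable def sset {α : Ordinal.{0}} (Z : Set (Set.Iio α)) : ZFSet.{0} :=
  ZFSet.sep (fun z => ∃ ξ ∈ Z, z = ξ.1.toZFSet) α.toZFSet

lemma mem_sset {α : Ordinal.{0}} {Z : Set (Set.Iio α)} {ξ : Set.Iio α} :
    ξ.1.toZFSet ∈ sset Z ↔ ξ ∈ Z := by
  unfold sset
  rw [mem_sep]
  constructor
  · rintro ⟨_, ζ, hζ, h⟩
    have : ξ = ζ := Subtype.ext (toZFSet_injective h)
    rw [this]; exact hζ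
  · intro h
    exact ⟨toZFSet_mem ξ.2, ξ, h, rfl⟩

lemma slF_of {X : Set ZFSet.{0}} (hX : IsTransClass X) {ρ : Ordinal.{0}} (hρ : IsSuccLimit ρ)
    (hV : ∀ x ∈ V_ ρ, x ∈ X) {s : X} {σ : Ordinal.{0}} (hs : s.1 = σ.toZFSet) (hσ : σ < ρ)
    (h : SL σ) : SLF (memOn X) s := by
  classical
  intro a ha
  have ha' : a.1 ∈ σ.toZFSet := by rw [← hs]; exact ha
  obtain ⟨α, hα, hαa⟩ := mem_toZFSet_iff.1 ha'
  obtain ⟨e⟩ := h α hα
  let H : ZFSet.{0} → ZFSet.{0} := fun x => (e {ξ | ξ.1.toZFSet ∈ x}).1.toZFSet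
  have hHσ : ∀ x, H x ∈ σ.toZFSet := fun x => toZFSet_mem (e _).2
  have hpρ : powerset α.toZFSet ∈ V_ ρ := by
    rw [mem_vonNeumann, ZFSet.rank_powerset, rank_toZFSet]
    exact hρ.succ_lt (hα.trans hσ)
  have h1 : ∀ x ∈ powerset α.toZFSet, x ∈ V_ ρ := fun x hx => transV ρ _ hpρ _ hx
  have h2 : ∀ x ∈ powerset α.toZFSet, H x ∈ V_ ρ := fun x _ =>
    transV ρ _ (mem_V_of_lt hσ) _ (hHσ x)
  let G := ZFSet.sep (fun p => ∃ x ∈ powerset α.toZFSet, p = pair x (H x))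
    (V_ (succ (succ (succ σ))))
  have hG : ∀ x y, pair x y ∈ G ↔ x ∈ powerset α.toZFSet ∧ y = H x := by
    intro x y
    simp only [G, mem_sep]
    constructor
    · rintro ⟨_, x', hx', h⟩
      obtain ⟨rfl, rfl⟩ := pair_inj.1 h
      exact ⟨hx', rfl⟩
    · rintro ⟨hx, rfl⟩
      refine ⟨?_, x, hx, rfl⟩
      rw [mem_vonNeumann, rank_opair]
      apply succ_lt_succ
      apply succ_lt_succ
      apply max_lt
      · have h3 := rank_mono (mem_powerset.1 hx)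
        rw [rank_toZFSet] at h3
        exact (h3.trans_lt hα).trans (lt_succ σ)
      · have h3 : rank (H x) < σ := by simpa only [rank_toZFSet] using rank_lt_of_mem (hHσ x)
        exact h3.trans (lt_succ σ)
  have hGX : G ∈ X := by
    apply hV
    rw [mem_vonNeumann]
    have h3 : rank G ≤ succ (succ (succ σ)) := by
      rw [← subset_vonNeumann]; exact sep_subset
    exact h3.trans_lt (hρ.succ_lt (hρ.succ_lt (hρ.succ_lt hσ)))
  refine ⟨⟨G, hGX⟩, ⟨powerset α.toZFSet, hV _ hpρ⟩, ?_, ?_, ?_⟩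
  · intro x
    change x.1 ∈ powerset α.toZFSet ↔ _
    rw [mem_powerset, hαa]
    constructor
    · intro h y hy
      exact h hy
    · intro h y hy
      exact h ⟨y, hX _ x.2 _ hy⟩ hy
  · rw [isFun_on hX]
    constructor
    · intro p hp
      have hp' := hp
      simp only [G, mem_sep] at hp'
      obtain ⟨_, x, hx, rfl⟩ := hp'
      rw [pair_mem_prod]
      refine ⟨hx, ?_⟩
      rw [hs]; exact hHσ x
    · intro x hx
      exact ⟨H x, (hG _ _).2 ⟨hx, rfl⟩, fun y hy => ((hG _ _).1 hy).2⟩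
  · intro x y z hx hy
    rw [val_on hX] at hx hy
    obtain ⟨hx1, hx2⟩ := (hG _ _).1 hx
    obtain ⟨hy1, hy2⟩ := (hG _ _).1 hy
    apply Subtype.ext
    have h3 : e {ξ | ξ.1.toZFSet ∈ x.1} = e {ξ | ξ.1.toZFSet ∈ y.1} :=
      Subtype.ext (toZFSet_injective (hx2.symm.trans hy2))
    have h4 := e.injective h3
    have h5 : ∀ z ∈ α.toZFSet, z ∈ x.1 ↔ z ∈ y.1 := by
      intro z hz
      obtain ⟨ξ, hξ, rfl⟩ := mem_toZFSet_iff.1 hz
      exact Set.ext_iff.1 h4 ⟨ξ, hξ⟩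
    ext z
    constructor
    · intro hz
      exact (h5 z (mem_powerset.1 hx1 hz)).1 hz
    · intro hz
      exact (h5 z (mem_powerset.1 hy1 hz)).2 hz

lemma of_slF {X : Set ZFSet.{0}} (hX : IsTransClass X) {ρ : Ordinal.{0}}
    (hV : ∀ x ∈ V_ ρ, x ∈ X) {s : X} {σ : Ordinal.{0}} (hs : s.1 = σ.toZFSet) (hσ : σ < ρ)
    (h : SLF (memOn X) s) : SL σ := by
  intro α hα
  have hαX : α.toZFSet ∈ X := hX _ s.2 _ (by rw [hs]; exact toZFSet_mem hα)
  obtain ⟨H, p, hp, hf, hinj⟩ := h ⟨α.toZFSet, hαX⟩ (by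
    change α.toZFSet ∈ s.1
    rw [hs]; exact toZFSet_mem hα)
  rw [isFun_on hX, hs] at hf
  have h1 : ∀ Z : Set (Set.Iio α), ∃ ζ : Set.Iio σ, pair (sset Z) ζ.1.toZFSet ∈ H.1 := by
    intro Z
    have hZρ : sset Z ∈ V_ ρ := by
      rw [mem_vonNeumann]
      have : rank (sset Z) ≤ rank α.toZFSet := rank_mono sep_subset
      rw [rank_toZFSet] at this
      exact this.trans_lt (hα.trans hσ)
    have hZp : sset Z ∈ p.1 := (hp ⟨sset Z, hV _ hZρ⟩).2 (fun y hy => by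
      have hy2 : y.1 ∈ sset Z := hy
      exact sep_subset hy2)
    obtain ⟨w, hw, _⟩ := hf.2 _ hZp
    have hw2 := (pair_mem_prod.1 (hf.1 hw)).2
    obtain ⟨ζ, hζ, rfl⟩ := mem_toZFSet_iff.1 hw2
    exact ⟨⟨ζ, hζ⟩, hw⟩
  choose g hg using h1
  refine Cardinal.mk_le_of_injective (f := g) ?_
  intro Z Z' hZ
  have h2 := hg Z
  rw [hZ] at h2
  have h3 := hg Z'
  obtain ⟨hx, hz⟩ := pair_parts hX (hX _ H.2 _ h2)
  obtain ⟨hy, _⟩ := pair_parts hX (hX _ H.2 _ h3)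
  have h4 := hinj ⟨_, hx⟩ ⟨_, hy⟩ ⟨_, hz⟩ ((val_on hX _ _ _).2 h2) ((val_on hX _ _ _).2 h3)
  have h5 : sset Z = sset Z' := congrArg Subtype.val h4
  ext ξ
  rw [← mem_sset, ← mem_sset, h5]

lemma Repl.sl {κ : Ordinal.{0}} (h : Repl κ) : SL κ := by
  classical
  intro α hα
  rcases eq_or_lt_of_le (bot_le : (0 : Ordinal.{0}) ≤ α) with h0 | h0
  · subst h0
    have : IsEmpty (Set.Iio (0 : Ordinal.{0})) := ⟨fun x => not_lt_zero (show x.1 < 0 from x.2)⟩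
    rw [Cardinal.mk_set, Cardinal.mk_eq_zero, Cardinal.power_zero]
    rw [Cardinal.one_le_iff_ne_zero, Cardinal.mk_ne_zero_iff]
    exact ⟨⟨0, h.lim.bot_lt⟩⟩
  by_contra hcon
  push Not at hcon
  obtain ⟨f⟩ := hcon.le
  have ks : KSm κ (Set.Iio α → Prop) := h.ksFun (Repl.ksIio hα h0) h.ksProp
  obtain ⟨γ, hγ, hb⟩ := h.bdK ks (F := fun s : Set.Iio α → Prop =>
    if hs : ∃ ξ, f ξ = s then hs.choose.1.toZFSet else ∅) (by
      intro s
      split_ifs with hs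
      · exact mem_V_of_lt hs.choose.2
      · rw [mem_vonNeumann, rank_empty]; exact h.lim.bot_lt)
  have h3 := hb (f ⟨γ, hγ⟩)
  have hs : ∃ ξ, f ξ = f ⟨γ, hγ⟩ := ⟨_, rfl⟩
  beta_reduce at h3
  rw [dif_pos hs] at h3
  have h4 : hs.choose = ⟨γ, hγ⟩ := f.injective hs.choose_spec
  rw [h4] at h3
  exact lt_irrefl _ (lt_of_mem_V h3)

/-! ### the action on ordinals -/

/-- the action of `j` on ordinals -/
noncomputable def jo (j : ZFSet.{0} → ZFSet.{0}) (ξ : Ordinal.{0}) : Ordinal.{0} :=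
  rank (j ξ.toZFSet)

section
variable {X Y : Set ZFSet.{0}} {j : ZFSet.{0} → ZFSet.{0}} (h : Elementary X Y j)
  (hX : IsTransClass X) (hY : IsTransClass Y)
include h hX hY

lemma jo_eq {ξ : Ordinal.{0}} (hξ : ξ.toZFSet ∈ X) : j ξ.toZFSet = (jo j ξ).toZFSet := by
  obtain ⟨β, hβ⟩ := h.ord hX hY hξ
  unfold jo
  rw [hβ, rank_toZFSet]

lemma jo_lt {ξ ζ : Ordinal.{0}} (hζ : ζ.toZFSet ∈ X) (hlt : ξ < ζ) : jo j ξ < jo j ζ := by
  have hξ : ξ.toZFSet ∈ X := hX _ hζ _ (toZFSet_mem hlt)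
  exact (jord_lt h hX hY hξ hζ (jo_eq h hX hY hξ) (jo_eq h hX hY hζ)).1 hlt

lemma le_jo {ξ : Ordinal.{0}} (hξ : ξ.toZFSet ∈ X) : ξ ≤ jo j ξ := by
  induction ξ using WellFoundedLT.induction with
  | _ ξ ih =>
    by_contra hcon
    push Not at hcon
    have h1 := jo_lt h hX hY hξ hcon
    have h2 := ih _ hcon (hX _ hξ _ (toZFSet_mem hcon))
    exact absurd h1 (not_lt.2 h2)

lemma jo_crit {ν : Ordinal.{0}} (hν : ν.toZFSet ∈ X) (hc : CritPt j ν) : ν < jo j ν := by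
  refine lt_of_le_of_ne (le_jo h hX hY hν) (fun h1 => hc.2 ?_)
  rw [jo_eq h hX hY hν, ← h1]

/-- the critical point is not in the range -/
lemma crit_not_range {ν ξ : Ordinal.{0}} (hν : ν.toZFSet ∈ X) (hc : CritPt j ν)
    (hξ : ξ.toZFSet ∈ X) : jo j ξ ≠ ν := by
  intro h1
  rcases lt_or_ge ξ ν with h2 | h2
  · have h3 : jo j ξ = ξ := by
      unfold jo
      rw [hc.1 ξ h2, rank_toZFSet]
    rw [h3] at h1
    exact h2.ne h1
  · rcases h2.lt_or_eq with h3 | h3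
    · have h4 := jo_lt h hX hY hξ h3
      have h5 := jo_crit h hX hY hν hc
      rw [h1] at h4
      exact absurd h4 (not_lt.2 h5.le)
    · rw [← h3] at h1
      exact (jo_crit h hX hY hν hc).ne h1.symm

end

/-- codes of sequences of ordinals -/
lemma code_of_isFunc_ord {σ : Ordinal.{0}} {t : ZFSet.{0}} (ht : IsFunc omg σ.toZFSet t) :
    ∃ t' : ℕ → Set.Iio σ, t = code (fun n => (t' n).1.toZFSet) := by
  obtain ⟨v, hv⟩ := isFunc_code ht
  have h1 : ∀ n, ∃ ξ : Set.Iio σ, (v n).1 = ξ.1.toZFSet := by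
    intro n
    obtain ⟨ξ, hξ, h2⟩ := mem_toZFSet_iff.1 (v n).2
    exact ⟨⟨ξ, hξ⟩, h2.symm⟩
  choose t' ht' using h1
  refine ⟨t', ?_⟩
  rw [hv]
  congr 1
  funext n
  exact ht' n

lemma code_ord_mem {σ ρ : Ordinal.{0}} (hρ : IsSuccLimit ρ) (hσ : σ < ρ) (hω : ω < ρ)
    (t : ℕ → Set.Iio σ) : code (fun n => (t n).1.toZFSet) ∈ V_ ρ := by
  have h2 : code (fun n => (t n).1.toZFSet) ⊆ V_ (succ (succ (max ω σ))) := by
    intro p hp
    obtain ⟨n, rfl⟩ := mem_code.1 hp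
    rw [mem_vonNeumann, rank_opair]
    apply succ_lt_succ
    apply succ_lt_succ
    apply max_lt
    · unfold nn
      rw [rank_toZFSet]
      exact (natCast_lt_omega0 n).trans_le (le_max_left _ _)
    · rw [rank_toZFSet]
      exact lt_of_lt_of_le (t n).2 (le_max_right _ _)
  rw [subset_vonNeumann] at h2
  rw [mem_vonNeumann]
  exact h2.trans_lt (add_two_lt hρ (max_lt hω hσ))

/-- Kunen's theorem: there is no embedding fixing a Jónsson ordinal above its critical point, if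
the target contains enough sets -/
theorem kunen {θ σ ρ : Ordinal.{0}} (hθ : IsSuccLimit θ) {M : Set ZFSet.{0}} (hM : IsTransClass M)
    {j : ZFSet.{0} → ZFSet.{0}} (h : Elementary (V_ (θ + 1)) M j) (hσθ : σ < θ)
    (hρ : IsSuccLimit ρ) (hσρ : σ < ρ) (hV : ∀ x ∈ V_ ρ, x ∈ M)
    (hjσ : j σ.toZFSet = σ.toZFSet) {ν : Ordinal.{0}} (hν : CritPt j ν) (hνσ : ν < σ)
    (hων : ω < ν)
    (hJ : ∃ F : (ℕ → Set.Iio σ) → Set.Iio σ, ∀ g : Set.Iio σ → Set.Iio σ,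
      Function.Injective g → ∀ y, ∃ t, F (g ∘ t) = y) : False := by
  classical
  obtain ⟨F, hF⟩ := hJ
  have hX := transV (θ + 1)
  have hsub : ∀ x ∈ V_ θ, x ∈ V_ (θ + 1) :=
    fun _ hx => vonNeumann_subset_of_le (le_of_lt (lt_add_one θ)) hx
  have hωσ : ω < σ := hων.trans hνσ
  have hωθ : ω < θ := hωσ.trans hσθ
  have hωρ : ω < ρ := hωσ.trans hσρ
  have hσX : σ.toZFSet ∈ V_ (θ + 1) := hsub _ (mem_V_of_lt hσθ)
  have hωX : omg ∈ V_ (θ + 1) := hsub _ (mem_V_of_lt hωθ)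
  have hjω : j omg = omg := hν.1 _ hων
  have hjn : ∀ n, j (nn n) = nn n := fun n => hν.1 _ ((natCast_lt_omega0 n).trans hων)
  have hnX : ∀ n, nn n ∈ V_ (θ + 1) := fun n => hX _ hωX _ (nn_mem n)
  -- the Jónsson function as a set
  let cF : (ℕ → Set.Iio σ) → ZFSet.{0} := fun t => code (fun n => (t n).1.toZFSet)
  have cF_inj : ∀ t t', cF t = cF t' → t = t' := by
    intro t t' h
    funext n
    exact Subtype.ext (toZFSet_injective (congrFun (code_inj h) n))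
  let Fs := ZFSet.sep (fun p => ∃ t, p = pair (cF t) (F t).1.toZFSet) (V_ θ)
  have hFs : ∀ x y, pair x y ∈ Fs ↔ ∃ t, x = cF t ∧ y = (F t).1.toZFSet := by
    intro x y
    simp only [Fs, mem_sep]
    constructor
    · rintro ⟨_, t, ht⟩
      obtain ⟨rfl, rfl⟩ := pair_inj.1 ht
      exact ⟨t, rfl, rfl⟩
    · rintro ⟨t, rfl, rfl⟩
      refine ⟨opair_mem_V hθ (code_ord_mem hθ hσθ hωθ t) ?_, t, rfl⟩
      exact mem_V_of_lt (lt_trans (F t).2 hσθ)
  have hFsX : Fs ∈ V_ (θ + 1) := mem_V1.2 sep_subset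
  have h1 : JonF (memOn (V_ (θ + 1) : Set ZFSet.{0})) ⟨Fs, hFsX⟩ ⟨σ.toZFSet, hσX⟩ ⟨omg, hωX⟩ := by
    intro g hg hinj y hy
    rw [isFun_on hX] at hg
    obtain ⟨y', hy', hyy⟩ := mem_toZFSet_iff.1 (show y.1 ∈ σ.toZFSet from hy)
    have h2 : ∀ ξ : Set.Iio σ, ∃ ζ : Set.Iio σ, pair ξ.1.toZFSet ζ.1.toZFSet ∈ g.1 := by
      intro ξ
      obtain ⟨w, hw, _⟩ := hg.2 ξ.1.toZFSet (toZFSet_mem ξ.2)
      have hw2 := (pair_mem_prod.1 (hg.1 hw)).2
      obtain ⟨ζ, hζ, rfl⟩ := mem_toZFSet_iff.1 hw2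
      exact ⟨⟨ζ, hζ⟩, hw⟩
    choose g' hg' using h2
    have hgi : Function.Injective g' := by
      intro a b hab
      have h3 := hg' a
      rw [hab] at h3
      have h4 := hg' b
      obtain ⟨hx, hz⟩ := pair_parts hX (hX _ g.2 _ h3)
      obtain ⟨hy, _⟩ := pair_parts hX (hX _ g.2 _ h4)
      have h5 := hinj ⟨_, hx⟩ ⟨_, hy⟩ ⟨_, hz⟩ ((val_on hX _ _ _).2 h3) ((val_on hX _ _ _).2 h4)
      exact Subtype.ext (toZFSet_injective (congrArg Subtype.val h5))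
    obtain ⟨t, ht⟩ := hF g' hgi ⟨y', hy'⟩
    refine ⟨⟨cF t, hsub _ (code_ord_mem hθ hσθ hωθ t)⟩,
      ⟨cF (g' ∘ t), hsub _ (code_ord_mem hθ hσθ hωθ _)⟩, ?_, ?_, ?_, ?_⟩
    · rw [isFun_on hX]
      exact code_isFunc (fun n => toZFSet_mem (t n).2)
    · rw [isFun_on hX]
      exact code_isFunc (fun n => toZFSet_mem ((g' ∘ t) n).2)
    · intro n hn x z hx hz
      obtain ⟨m, hm⟩ := mem_om.1 (show n.1 ∈ omg from hn)
      rw [val_on hX] at hx hz ⊢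
      rw [hm] at hx ⊢
      have hx2 := pair_mem_code.1 hx
      rw [hx2] at hz
      have h6 := (hg.2 (t m).1.toZFSet (toZFSet_mem (t m).2)).unique hz (hg' (t m))
      rw [h6]
      exact pair_mem_code.2 rfl
    · rw [val_on hX, hFs]
      refine ⟨g' ∘ t, rfl, ?_⟩
      rw [ht]
      exact hyy.symm
  have h2 := (h.tr (FO.jonF 0 1 2) (cons_in hFsX (cons_in hσX (const_in hωX)))).1 h1
  -- the graph of `j` on `σ`
  have hξX : ∀ ξ : Set.Iio σ, ξ.1.toZFSet ∈ V_ (θ + 1) := fun ξ =>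
    hX _ hσX _ (toZFSet_mem ξ.2)
  have hjoσ : ∀ ξ : Set.Iio σ, jo j ξ.1 < σ := by
    intro ξ
    have h3 := jo_lt h hX hM hσX ξ.2
    have h4 : jo j σ = σ := by unfold jo; rw [hjσ, rank_toZFSet]
    rwa [h4] at h3
  let gj := ZFSet.sep (fun p => ∃ ξ : Set.Iio σ, p = pair ξ.1.toZFSet (jo j ξ.1).toZFSet)
    (V_ (succ (succ σ)))
  have hgj : ∀ x y, pair x y ∈ gj ↔ ∃ ξ : Set.Iio σ, x = ξ.1.toZFSet ∧
      y = (jo j ξ.1).toZFSet := by
    intro x y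
    simp only [gj, mem_sep]
    constructor
    · rintro ⟨_, ξ, hξ⟩
      obtain ⟨rfl, rfl⟩ := pair_inj.1 hξ
      exact ⟨ξ, rfl, rfl⟩
    · rintro ⟨ξ, rfl, rfl⟩
      refine ⟨?_, ξ, rfl⟩
      rw [mem_vonNeumann, rank_opair, rank_toZFSet, rank_toZFSet]
      exact succ_lt_succ (succ_lt_succ (max_lt ξ.2 (hjoσ ξ)))
  have hgjM : gj ∈ M := by
    apply hV
    rw [mem_vonNeumann]
    have h3 : rank gj ≤ succ (succ σ) := by rw [← subset_vonNeumann]; exact sep_subset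
    exact h3.trans_lt (add_two_lt hρ hσρ)
  have hνM : ν.toZFSet ∈ M := hV _ (mem_V_of_lt (hνσ.trans hσρ))
  obtain ⟨t, u, ht, hu, htu, hFu⟩ := h2 ⟨gj, hgjM⟩ (by
      rw [isFun_on hM]
      change IsFunc (j σ.toZFSet) (j σ.toZFSet) gj
      rw [hjσ]
      constructor
      · intro p hp
        have hp' := hp
        simp only [gj, mem_sep] at hp'
        obtain ⟨_, ξ, rfl⟩ := hp'
        rw [pair_mem_prod]
        exact ⟨toZFSet_mem ξ.2, toZFSet_mem (hjoσ ξ)⟩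
      · intro x hx
        obtain ⟨ξ, hξ, rfl⟩ := mem_toZFSet_iff.1 hx
        refine ⟨(jo j ξ).toZFSet, (hgj _ _).2 ⟨⟨ξ, hξ⟩, rfl, rfl⟩, fun y hy => ?_⟩
        obtain ⟨ζ, h3, h4⟩ := (hgj _ _).1 hy
        have h5 := toZFSet_injective h3
        rw [h4, ← h5]) (by
      intro x y z hx hy
      rw [val_on hM] at hx hy
      obtain ⟨ξ, h3, h4⟩ := (hgj _ _).1 hx
      obtain ⟨ζ, h5, h6⟩ := (hgj _ _).1 hy
      rw [h4] at h6
      have h7 := toZFSet_injective h6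
      apply Subtype.ext
      rw [h3, h5]
      rcases lt_trichotomy ξ.1 ζ.1 with h8 | h8 | h8
      · exact absurd h7 (jo_lt h hX hM (hξX ζ) h8).ne
      · rw [h8]
      · exact absurd h7 (jo_lt h hX hM (hξX ξ) h8).ne') ⟨ν.toZFSet, hνM⟩ (by
      change ν.toZFSet ∈ j σ.toZFSet
      rw [hjσ]; exact toZFSet_mem hνσ)
  rw [isFun_on hM] at ht hu
  change IsFunc (j omg) (j σ.toZFSet) t.1 at ht
  rw [hjω, hjσ] at ht
  obtain ⟨t', ht'⟩ := code_of_isFunc_ord ht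
  -- `u = j (cF t')`
  have htX : cF t' ∈ V_ (θ + 1) := hsub _ (code_ord_mem hθ hσθ hωθ t')
  have hjt : IsFunc omg σ.toZFSet (j (cF t')) := by
    have h3 := (h.isFunc hX hM htX hωX hσX).1 (code_isFunc (fun n => toZFSet_mem (t' n).2))
    rwa [hjω, hjσ] at h3
  change IsFunc (j omg) (j σ.toZFSet) u.1 at hu
  rw [hjω, hjσ] at hu
  have huj : u.1 = j (cF t') := by
    obtain ⟨a, ha⟩ := isFunc_code hu
    obtain ⟨b, hb⟩ := isFunc_code hjt
    rw [ha, hb]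
    congr 1
    funext n
    have h3 : pair (nn n) (t' n).1.toZFSet ∈ cF t' := pair_mem_code.2 rfl
    have h4 := (h.val hX hM htX (hnX n) (hξX (t' n))).1 h3
    rw [hjn, jo_eq h hX hM (hξX (t' n)), hb, pair_mem_code] at h4
    have hnM : nn n ∈ M := by
      have := h.maps (hnX n)
      rwa [hjn] at this
    have hxM : (t' n).1.toZFSet ∈ M := hV _ (mem_V_of_lt (lt_trans (t' n).2 hσρ))
    have hzM : (jo j (t' n).1).toZFSet ∈ M := hV _ (mem_V_of_lt ((hjoσ (t' n)).trans hσρ))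
    have h5 := htu ⟨nn n, hnM⟩ (by
      change nn n ∈ j omg
      rw [hjω]; exact nn_mem n) ⟨_, hxM⟩ ⟨_, hzM⟩ (by
        rw [val_on hM, ht']
        exact pair_mem_code.2 rfl) (by
        rw [val_on hM]
        exact (hgj _ _).2 ⟨t' n, rfl, rfl⟩)
    rw [val_on hM, ha, pair_mem_code] at h5
    rw [← h4, ← h5]
  -- contradiction
  rw [val_on hM, huj] at hFu
  change pair (j (cF t')) ν.toZFSet ∈ j Fs at hFu
  have h6 : pair (cF t') (F t').1.toZFSet ∈ Fs := (hFs _ _).2 ⟨t', rfl, rfl⟩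
  have h7 := (h.val hX hM hFsX htX (hξX (F t'))).1 h6
  -- functionality of `j Fs`
  have hR2 : FO (fun (M : Type 1) (E : M → M → Prop) v =>
      ∀ x y z, Val E (v 0) x y → Val E (v 0) x z → y = z) :=
    FO.all (FO.all (FO.all (FO.imp (FO.val _ _ _) (FO.imp (FO.val _ _ _) (FO.eq _ _)))))
  have h8 := (h.tr hR2 (const_in hFsX)).1 (by
    intro x y z hy hz
    rw [val_on hX] at hy hz
    obtain ⟨a, ha1, ha2⟩ := (hFs _ _).1 hy
    obtain ⟨b, hb1, hb2⟩ := (hFs _ _).1 hz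
    apply Subtype.ext
    rw [ha1] at hb1
    rw [ha2, hb2, cF_inj _ _ hb1])
  have h9 := h8 ⟨j (cF t'), h.maps htX⟩ ⟨j (F t').1.toZFSet, h.maps (hξX _)⟩ ⟨ν.toZFSet, hνM⟩
    ((val_on hM _ _ _).2 h7) ((val_on hM _ _ _).2 hFu)
  have h10 : j (F t').1.toZFSet = ν.toZFSet := congrArg Subtype.val h9
  rw [jo_eq h hX hM (hξX (F t'))] at h10
  exact crit_not_range h hX hM (hX _ hσX _ (toZFSet_mem hνσ)) hν (hξX (F t'))
    (toZFSet_injective h10)

end Pool.Agent.MP_6fa13c_lc
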