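import Pool.Agent.Lib_MP_6fa13c_lc.GoodH
import Pool.Agent.Lib_MP_6fa13c_lc.Kunen

/-!
# Reflection of codes below an `Ω`-extendible cardinal, `Ω` inaccessible
-/

namespace Pool.Agent.MP_6fa13c_lc

open ZFSet Ordinal Forcing Order Inner

/-- images of the stages of the cumulative hierarchy -/
lemma el_V {X Y : Set ZFSet.{0}} {j : ZFSet.{0} → ZFSet.{0}} (h : Elementary X Y j)
    (hX : IsTransClass X) (hY : IsTransClass Y) {ρ ρ' : Ordinal.{0}} (hρ : IsSuccLimit ρ)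
    (hρ' : IsSuccLimit ρ') (hVX : ∀ x ∈ V_ ρ, x ∈ X) (hVY : ∀ x ∈ V_ ρ', x ∈ Y)
    {α : Ordinal.{0}} (hα : α < ρ) (hα' : jo j α < ρ') : j (V_ α) = V_ (jo j α) := by
  have hαX : α.toZFSet ∈ X := hVX _ (mem_V_of_lt hα)
  have hVαX : V_ α ∈ X := hVX _ (vonNeumann_mem_of_lt hα)
  have hR : FO (fun (M : Type 1) (E : M → M → Prop) v => ∀ x, (E x (v 0) ↔ RankLt E x (v 1))) :=
    FO.all (FO.iff (FO.mem _ _) (FO.rankLt _ _))
  have h1 := (h.tr hR (cons_in hVαX (const_in hαX))).1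
    ((isV_iff hX hρ hVX (B := ⟨V_ α, hVαX⟩) (b := ⟨α.toZFSet, hαX⟩) rfl hα).2 rfl)
  exact (isV_iff hY hρ' hVY (B := ⟨j (V_ α), h.maps hVαX⟩) (b := ⟨j α.toZFSet, h.maps hαX⟩)
    (jo_eq h hX hY hαX) hα').1 h1

/-- `e : V_Ω → V_ζ` witnesses that `ν` is `Ω`-extendible, `Ω` inaccessible -/
structure EX (ν Ω ζ : Ordinal.{0}) (e : ZFSet.{0} → ZFSet.{0}) : Prop where
  el : Elementary (V_ Ω) (V_ ζ) e
  crit : CritPt e ν
  lt : ν < Ω
  rep : Repl Ω
  big : Ω ≤ jo e ν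

lemma isFun_om_mem {r : ZFSet.{0}} (hr : IsFunc omg omg r) {ν : Ordinal.{0}} (hν : ω < ν) :
    r ∈ V_ ν := by
  rw [mem_vonNeumann]
  refine lt_of_le_of_lt ?_ hν
  rw [rank_le_iff]
  intro p hp
  obtain ⟨a, ha, b, hb, rfl⟩ := mem_prod.1 (hr.1 hp)
  have h1 : rank a < ω := by simpa using rank_lt_of_mem ha
  have h2 : rank b < ω := by simpa using rank_lt_of_mem hb
  rw [rank_opair]
  exact add_two_lt isSuccLimit_omega0 (max_lt h1 h2)

/-- codes of sequences are in `V_κ` for `κ` a successor cardinal -/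
lemma omClosed_succ {c : Cardinal.{0}} (hc : Cardinal.aleph0 ≤ c) :
    OmClosed (V_ (succ c).ord) := by
  intro v
  have hreg := Cardinal.isRegular_succ hc
  have hlim : IsSuccLimit (succ c).ord := Cardinal.isSuccLimit_ord hreg.aleph0_le
  have hω : ω < (succ c).ord := by
    rw [← Cardinal.ord_aleph0, Cardinal.ord_lt_ord]
    exact lt_succ_of_le hc
  have h4 : ⨆ i : ℕ, rank (v i).1 + 1 < (succ c).ord := by
    apply iSup_add_one_lt_of_lt_cof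
    · rw [hreg.cof_ord]
      simpa using lt_succ_of_le hc
    · intro i
      have := (v i).2
      rwa [SetLike.mem_coe, mem_vonNeumann] at this
  have h2 : code (fun n => (v n).1) ⊆
      V_ (succ (succ (max ω (⨆ i : ℕ, rank (v i).1 + 1)))) := by
    intro p hp
    obtain ⟨n, rfl⟩ := mem_code.1 hp
    have h3 : rank (v n).1 + 1 ≤ ⨆ i : ℕ, rank (v i).1 + 1 :=
      Ordinal.le_iSup (fun i : ℕ => rank (v i).1 + 1) n
    rw [mem_vonNeumann, rank_opair]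
    apply succ_lt_succ
    apply succ_lt_succ
    apply max_lt
    · unfold nn
      rw [rank_toZFSet]
      exact (natCast_lt_omega0 n).trans_le (le_max_left _ _)
    · exact ((lt_add_one _).trans_le h3).trans_le (le_max_right _ _)
  rw [subset_vonNeumann] at h2
  rw [mem_vonNeumann]
  exact h2.trans_lt (add_two_lt hlim (max_lt hω h4))

/-- the code of `e` on the subsets of `V_κ` -/
noncomputable def ecode (κ : Ordinal.{0}) (e : ZFSet.{0} → ZFSet.{0}) : ZFSet.{0} :=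
  ZFSet.sep (fun p => ∃ S b, S ⊆ V_ κ ∧ p = pair S b ∧ b ∈ e S)
    (V_ (succ (succ (succ (jo e κ)))))

/-- the code of `e` on `V_κ` -/
noncomputable def hcode (κ : Ordinal.{0}) (e : ZFSet.{0} → ZFSet.{0}) : ZFSet.{0} :=
  ZFSet.sep (fun p => ∃ x ∈ V_ κ, p = pair x (e x)) (V_ (succ (succ (succ (jo e κ)))))

namespace EX
variable {ν Ω ζ : Ordinal.{0}} {e : ZFSet.{0} → ZFSet.{0}} (h : EX ν Ω ζ e)
include h

lemma νX : ν.toZFSet ∈ V_ Ω := mem_V_of_lt h.lt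

lemma ων : ω < ν := crit_om h.el (transV _) (transV _) h.νX h.crit

lemma fix : ∀ x ∈ V_ ν, e x = x :=
  crit_fix h.el (transV _) (transV _) h.νX (fun _ hx => vonNeumann_subset_of_le h.lt.le hx) h.crit

lemma jlt {α : Ordinal.{0}} (hα : α < Ω) : jo e α < ζ := by
  have hαX := mem_V_of_lt hα
  have h1 := h.el.maps hαX
  rw [jo_eq h.el (transV _) (transV _) hαX] at h1
  exact lt_of_mem_V h1

lemma limζ : IsSuccLimit ζ := by
  have hR : FO (fun (M : Type 1) (E : M → M → Prop) v => ∀ x, ∃ y, E x y) :=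
    FO.all (FO.ex (FO.mem _ _))
  have h1 := (h.el.tr hR (const_in h.νX)).1 (by
    intro x
    have hx := x.2
    rw [SetLike.mem_coe, mem_vonNeumann] at hx
    exact ⟨⟨{x.1}, by
      rw [SetLike.mem_coe, mem_vonNeumann, rank_singleton]
      exact h.rep.lim.succ_lt hx⟩, mem_singleton.2 rfl⟩)
  rcases zero_or_succ_or_isSuccLimit ζ with h0 | ⟨ξ, hξ⟩ | h2
  · exfalso
    have := h.jlt h.lt
    rw [h0] at this
    exact not_lt_zero this
  · exfalso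
    obtain ⟨y, hy⟩ := h1 ⟨V_ ξ, by
      rw [SetLike.mem_coe, mem_vonNeumann, rank_vonNeumann, ← hξ]; exact lt_succ ξ⟩
    have h3 := y.2
    rw [SetLike.mem_coe, mem_vonNeumann] at h3
    have h4 : rank (V_ ξ) < rank y.1 := rank_lt_of_mem hy
    rw [rank_vonNeumann] at h4
    exact absurd (lt_succ_iff.1 (h3.trans_eq hξ.symm)) (not_le.2 h4)
  · exact h2

lemma eV {α : Ordinal.{0}} (hα : α < Ω) : e (V_ α) = V_ (jo e α) :=
  el_V h.el (transV _) (transV _) h.rep.lim h.limζ (fun _ hx => hx) (fun _ hx => hx) hα (h.jlt hα)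

lemma esub {κ : Ordinal.{0}} (hκ : κ < Ω) {S : ZFSet.{0}} (hS : S ⊆ V_ κ) :
    e S ⊆ V_ (jo e κ) := by
  rw [← h.eV hκ]
  refine (h.el.sub (transV _) (transV _) ?_ (vonNeumann_mem_of_lt hκ)).1 hS
  exact mem_vonNeumann_of_subset hS (vonNeumann_mem_of_lt hκ)

lemma mem_ecode {κ : Ordinal.{0}} (hκ : κ < Ω) {S b : ZFSet.{0}} :
    pair S b ∈ ecode κ e ↔ S ⊆ V_ κ ∧ b ∈ e S := by
  unfold ecode
  rw [mem_sep]
  constructor
  · rintro ⟨_, S', b', h1, h2, h3⟩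
    obtain ⟨rfl, rfl⟩ := pair_inj.1 h2
    exact ⟨h1, h3⟩
  · rintro ⟨h1, h2⟩
    refine ⟨?_, S, b, h1, rfl, h2⟩
    have h3 := h.esub hκ h1 h2
    rw [mem_vonNeumann] at h3
    rw [subset_vonNeumann] at h1
    have h4 := le_jo h.el (transV _) (transV _) (mem_V_of_lt hκ)
    rw [mem_vonNeumann, rank_opair]
    exact succ_lt_succ (succ_lt_succ (max_lt (lt_succ_of_le (h1.trans h4)) (lt_succ_of_le h3.le)))

lemma mem_hcode {κ : Ordinal.{0}} (hκ : κ < Ω) {x y : ZFSet.{0}} :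
    pair x y ∈ hcode κ e ↔ x ∈ V_ κ ∧ y = e x := by
  unfold hcode
  rw [mem_sep]
  constructor
  · rintro ⟨_, x', h1, h2⟩
    obtain ⟨rfl, rfl⟩ := pair_inj.1 h2
    exact ⟨h1, rfl⟩
  · rintro ⟨h1, rfl⟩
    refine ⟨?_, x, h1, rfl⟩
    have h3 : e x ∈ e (V_ κ) := (h.el.mem (transV _) (transV _)
      (transV _ _ (vonNeumann_mem_of_lt hκ) _ h1) (vonNeumann_mem_of_lt hκ)).1 h1
    rw [h.eV hκ, mem_vonNeumann] at h3
    rw [mem_vonNeumann] at h1
    have h4 := le_jo h.el (transV _) (transV _) (mem_V_of_lt hκ)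
    rw [mem_vonNeumann, rank_opair]
    exact succ_lt_succ (succ_lt_succ (max_lt (lt_succ_of_le (h1.le.trans h4))
      (lt_succ_of_le h3.le)))

lemma lt_jo {κ : Ordinal.{0}} (hνκ : ν < κ) (hκ : κ < Ω) : Ω < jo e κ :=
  h.big.trans_lt (jo_lt h.el (transV _) (transV _) (mem_V_of_lt hκ) hνκ)

lemma good {κ : Ordinal.{0}} (hνκ : ν < κ) (hκ : κ < Ω) :
    GoodH EV (V_ κ) (V_ (κ + 1)) (V_ (jo e κ)) (ecode κ e) omg (hcode κ e) := by
  have hX := transV Ω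
  have hY := transV ζ
  have hκ1 : κ + 1 < Ω := h.rep.lim.succ_lt hκ
  have hsub : ∀ x ∈ V_ κ, x ∈ V_ Ω := fun _ hx => vonNeumann_subset_of_le hκ.le hx
  have hsub1 : ∀ x ∈ V_ (κ + 1), x ∈ V_ Ω := fun _ hx => vonNeumann_subset_of_le hκ1.le hx
  have homν : omg ∈ V_ ν := mem_V_of_lt h.ων
  have homV : omg ∈ V_ κ := mem_V_of_lt (h.ων.trans hνκ)
  have hVκ : V_ κ ∈ V_ Ω := vonNeumann_mem_of_lt hκ
  have heom : e omg = omg := h.fix _ homν
  refine ⟨fun x hx y hy => transV κ _ hx _ hy, fun x _ => mem_V1, ⟨homV,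
    vonNeumann_mem_of_lt (hκ.trans (h.lt_jo hνκ hκ)),
    vonNeumann_mem_of_lt (hκ1.trans (h.lt_jo hνκ hκ))⟩, ?_, ?_, ?_, ?_, ?_⟩
  · intro x hx
    refine ⟨e x, ?_, ?_⟩
    · change e x ∈ V_ (jo e κ)
      rw [← h.eV hκ]
      exact (h.el.mem hX hY (hsub _ hx) hVκ).1 hx
    · rw [val_EV, h.mem_hcode hκ]
      exact ⟨hx, rfl⟩
  · intro n hn
    rw [val_EV, h.mem_hcode hκ]
    exact ⟨transV κ _ homV _ hn, (h.fix _ (transV ν _ homν _ hn)).symm⟩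
  · rw [val_EV, h.mem_hcode hκ]
    exact ⟨homV, heom.symm⟩
  · intro r hr hf
    rw [val_EV, h.mem_hcode hκ]
    exact ⟨hr, (h.fix _ (isFun_om_mem (isFun_EV.1 hf) h.ων)).symm⟩
  · intro c i hi i' hi' r hr r' hr' hval S hS S' hS' T hT hop
    have hi2 : i ∈ V_ ν := transV ν _ homν _ hi
    have hi2' : i' ∈ V_ ν := transV ν _ homν _ hi'
    have hνsub : ∀ x ∈ V_ ν, x ∈ V_ Ω := fun _ hx => vonNeumann_subset_of_le h.lt.le hx
    rw [val_EV, h.mem_hcode hκ] at hval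
    obtain ⟨_, rfl⟩ := hval
    have hA : Abs (fun _ E v => Op E c (v 0) (v 1) (v 2) (v 3) (v 4)
        (fun s => E s (v 5)) (fun s => E s (v 6)) (fun s => E s (v 7))) :=
      Abs.op c 0 1 2 3 4 (Abs.mem _ _) (Abs.mem _ _) (Abs.mem _ _)
    have h1 := (h.el.abs hX hY hA (cons_in (hsub _ homV) (cons_in hVκ (cons_in (hνsub _ hi2)
      (cons_in (hνsub _ hi2') (cons_in (hsub _ hr) (cons_in (hsub1 _ hS) (cons_in (hsub1 _ hS')
        (const_in (hsub1 _ hT)))))))))).1 hop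
    change Op EV c (e omg) (e (V_ κ)) (e i) (e i') (e r) (fun s => EV s (e S))
      (fun s => EV s (e S')) (fun s => EV s (e T)) at h1
    rw [heom, h.eV hκ, h.fix _ hi2, h.fix _ hi2'] at h1
    have ee : ∀ S, S ∈ V_ (κ + 1) → (fun s => Val EV (ecode κ e) S s) =
        (fun s => EV s (e S)) := by
      intro S hS
      funext s
      rw [eq_iff_iff, val_EV, h.mem_ecode hκ]
      exact ⟨fun h => h.2, fun h => ⟨mem_V1.1 hS, h⟩⟩
    rw [ee S hS, ee S' hS', ee T hT]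
    exact h1

theorem exists_code {κ : Ordinal.{0}} (hνκ : ν < κ) (hκ : κ < Ω) (hcl : OmClosed (V_ κ)) :
    ∃ A ∈ V_ ν, IsTransClass A ∧ omg ∈ A ∧ Nonempty (Ext A (V_ κ)) := by
  have hX := transV Ω
  have hY := transV ζ
  have hκ1 : κ + 1 < Ω := h.rep.lim.succ_lt hκ
  have homν : omg ∈ V_ ν := mem_V_of_lt h.ων
  have hνsub : ∀ x ∈ V_ ν, x ∈ V_ Ω := fun _ hx => vonNeumann_subset_of_le h.lt.le hx
  have homX : omg ∈ V_ Ω := hνsub _ homν
  have hVκ : V_ κ ∈ V_ Ω := vonNeumann_mem_of_lt hκ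
  have hVν : V_ ν ∈ V_ Ω := vonNeumann_mem_of_lt h.lt
  have hR : FO (fun (M : Type 1) (E : M → M → Prop) v => ∃ A, E A (v 2) ∧ ∃ PA, E PA (v 2) ∧
      ∃ K H, OmCl E A (v 1) ∧ GoodH E A PA (v 0) K (v 1) H) :=
    FO.ex (FO.and (FO.mem _ _) (FO.ex (FO.and (FO.mem _ _) (FO.ex (FO.ex (FO.and (FO.omCl _ _)
      (Abs.goodH _ _ _ _ _ _).fo))))))
  have e0 := h.eV hκ
  have e1 : e omg = omg := h.fix _ homν
  have e2 := h.eV h.lt
  have hjs : succ (succ (succ (jo e κ))) < ζ :=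
    h.limζ.succ_lt (h.limζ.succ_lt (h.limζ.succ_lt (h.jlt hκ)))
  have hmem : ∀ {P : ZFSet.{0} → Prop},
      ZFSet.sep P (V_ (succ (succ (succ (jo e κ))))) ∈ V_ ζ := by
    intro P
    exact mem_vonNeumann_of_subset sep_subset (vonNeumann_mem_of_lt hjs)
  have hΩν : Ω ≤ jo e ν := h.big
  have hζ : jo e ν < ζ := h.jlt h.lt
  have h1 := (h.el.tr hR (cons_in hVκ (cons_in homX (const_in hVν)))).2 (by
    refine ⟨⟨V_ κ, vonNeumann_mem_of_lt ((hκ.trans_le hΩν).trans hζ)⟩, ?_, ⟨V_ (κ + 1),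
      vonNeumann_mem_of_lt ((hκ1.trans_le hΩν).trans hζ)⟩, ?_, ⟨ecode κ e, hmem⟩,
      ⟨hcode κ e, hmem⟩, ?_, ?_⟩
    · change V_ κ ∈ e (V_ ν)
      rw [e2]; exact vonNeumann_mem_of_lt (hκ.trans_le hΩν)
    · change V_ (κ + 1) ∈ e (V_ ν)
      rw [e2]; exact vonNeumann_mem_of_lt (hκ1.trans_le hΩν)
    · exact omCl_sem hY e1 hcl
    · rw [goodH_on hY]
      change GoodH EV (V_ κ) (V_ (κ + 1)) (e (V_ κ)) (ecode κ e) (e omg) (hcode κ e)
      rw [e0, e1]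
      exact h.good hνκ hκ)
  obtain ⟨A, hA, PA, hPA, K, H, hclA, hgood⟩ := h1
  rw [goodH_on hX] at hgood
  change GoodH EV A.1 PA.1 (V_ κ) K.1 omg H.1 at hgood
  have hAν : A.1 ∈ V_ ν := hA
  have hclA' : OmClosed A.1 := by
    refine sem_omCl hX rfl (fun v => ?_) hclA
    have hAV : ∀ x ∈ A.1, x ∈ V_ Ω := fun x hx => hX _ A.2 _ hx
    exact omClosed_V h.rep (fun n => ⟨(v n).1, hAV _ (v n).2⟩)
  exact ⟨A.1, hAν, fun x hx y hy => hgood.1 x hx y hy, hgood.2.2.1.1,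
    exists_extH hclA' hcl hgood⟩

/-- a fixed `A` works for cofinally many cardinals -/
theorem exists_A : ∃ A ∈ V_ ν, IsTransClass A ∧ omg ∈ A ∧ ∀ γ < Ω, ∃ κ, γ < κ ∧ κ < Ω ∧
    IsCard κ ∧ Nonempty (Ext A (V_ κ)) := by
  classical
  by_contra hcon
  push Not at hcon
  have h1 : ∀ A : ZFSet.{0}, ∃ γ < Ω, A ∈ V_ ν → IsTransClass A → omg ∈ A →
      ∀ κ, γ < κ → κ < Ω → IsCard κ → ¬ Nonempty (Ext A (V_ κ)) := by
    intro A
    by_cases h2 : A ∈ V_ ν ∧ IsTransClass A ∧ omg ∈ A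
    · obtain ⟨γ, hγ, h3⟩ := hcon A h2.1 h2.2.1 h2.2.2
      refine ⟨γ, hγ, fun _ _ _ κ h4 h5 h6 => ?_⟩
      rw [not_nonempty_iff]
      exact h3 κ h4 h5 h6
    · refine ⟨0, h.rep.lim.bot_lt, fun a b c => absurd ⟨a, b, c⟩ h2⟩
  choose F hF1 hF2 using h1
  obtain ⟨γ, hγ, hγF⟩ := h.rep.bd (V_ ν) (vonNeumann_mem_of_lt h.lt) (fun A => (F A).toZFSet)
    (fun A _ => mem_V_of_lt (hF1 A))
  -- a successor cardinal above `γ` and `ν`
  have hm : max ν γ < Ω := max_lt h.lt hγ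
  have hω : ω ≤ max ν γ := h.ων.le.trans (le_max_left _ _)
  have hκ := h.rep.succ_card_lt hm (omega0_pos.trans_le hω)
  have hc : Cardinal.aleph0 ≤ (max ν γ).card := Ordinal.aleph0_le_card.2 hω
  have hlt : max ν γ < (succ (max ν γ).card).ord := by
    rw [Cardinal.lt_ord]; exact lt_succ _
  obtain ⟨A, hA, hAtr, hom, hE⟩ := h.exists_code ((le_max_left _ _).trans_lt hlt) hκ
    (omClosed_succ hc)
  refine hF2 A hA hAtr hom _ ?_ hκ ⟨?_, ?_⟩ hE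
  · have h3 := lt_of_mem_V (hγF A hA)
    exact (h3.trans_le (le_max_right _ _)).trans hlt
  · rw [← Cardinal.ord_aleph0, Cardinal.ord_le_ord]
    exact hc.trans (le_succ _)
  · rw [Cardinal.card_ord]

end EX

end Pool.Agent.MP_6fa13c_lc
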