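import Pool.Agent.Lib_MP_6fa13c_lc.Reflect

/-!
# The ultrapower by an extender: the generic seeds
-/

namespace Pool.Agent.MP_6fa13c_lc

open ZFSet Ordinal Forcing Order Inner

/-- even and odd coordinates -/
def eL (n : ℕ) : ℕ := 2 * n
def eR (n : ℕ) : ℕ := 2 * n + 1

/-- merge two sequences -/
def mrg {T : Type*} (s t : ℕ → T) (n : ℕ) : T := if n % 2 = 0 then s (n / 2) else t (n / 2)

lemma mrg_L {T : Type*} (s t : ℕ → T) : mrg s t ∘ eL = s := by
  funext n
  simp only [mrg, eL, Function.comp]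
  rw [if_pos (by omega)]
  congr 1
  omega

lemma mrg_R {T : Type*} (s t : ℕ → T) : mrg s t ∘ eR = t := by
  funext n
  simp only [mrg, eR, Function.comp]
  rw [if_neg (by omega)]
  congr 1
  omega

lemma comp_mrg {T : Type*} (S : ℕ → T) (r r' : ℕ → ℕ) : mrg (S ∘ r) (S ∘ r') = S ∘ mrg r r' := by
  funext n
  simp only [mrg, Function.comp]
  split_ifs <;> rfl

/-- merge infinitely many sequences -/
def mg {T : Type*} (s : ℕ → ℕ → T) (n : ℕ) : T := s (Nat.unpair n).1 (Nat.unpair n).2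

/-- the `i`-th block of coordinates -/
def blk (i m : ℕ) : ℕ := Nat.pair i m

lemma mg_blk {T : Type*} (s : ℕ → ℕ → T) (i : ℕ) : mg s ∘ blk i = s i := by
  funext m
  simp [mg, blk]

namespace Ext

variable {A B : ZFSet.{0}} (e : Ext A B)

/-- the seed `S` satisfies the property `P` -/
def Th (S : ℕ → (B : Set ZFSet.{0})) (P : (ℕ → (A : Set ZFSet.{0})) → Prop) : Prop :=
  S ∈ e.K {v | P v}

variable {e} {S : ℕ → (B : Set ZFSet.{0})} {P Q : (ℕ → (A : Set ZFSet.{0})) → Prop}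

lemma th_not : e.Th S (fun v => ¬ P v) ↔ ¬ e.Th S P := by
  unfold Th
  have := e.compl {v | P v}
  rw [show {v | ¬ P v} = {v | P v}ᶜ from rfl, this]
  rfl

lemma th_and : e.Th S (fun v => P v ∧ Q v) ↔ e.Th S P ∧ e.Th S Q := by
  unfold Th
  have := e.inter {v | P v} {v | Q v}
  rw [show {v | P v ∧ Q v} = {v | P v} ∩ {v | Q v} from rfl, this]
  rfl

lemma th_false : ¬ e.Th S (fun _ => False) := by
  intro h
  have h1 : e.Th S (fun v => False ∧ ¬ False) := by
    have : (fun (v : ℕ → (A : Set ZFSet.{0})) => False ∧ ¬ False) = (fun v => False) := by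
      funext v; simp
    rw [this]; exact h
  rw [th_and, th_not] at h1
  exact h1.2 h1.1

lemma th_true : e.Th S (fun _ => True) := by
  have h1 : e.Th S (fun _ => ¬ False) := th_not.2 th_false
  have : (fun (v : ℕ → (A : Set ZFSet.{0})) => ¬ False) = (fun v => True) := by
    funext v; simp
  rwa [this] at h1

lemma th_mono (h : ∀ v, P v → Q v) (hP : e.Th S P) : e.Th S Q := by
  have : P = (fun v => P v ∧ Q v) := by
    funext v
    exact propext ⟨fun h1 => ⟨h1, h v h1⟩, fun h1 => h1.1⟩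
  rw [this, th_and] at hP
  exact hP.2

lemma th_of (h : ∀ v, P v) : e.Th S P := th_mono (fun v _ => h v) th_true

lemma th_exists (h : e.Th S P) : ∃ v, P v := by
  by_contra hcon
  push Not at hcon
  exact th_false (th_mono (fun v h1 => hcon v h1) h)

lemma th_const {p : Prop} : e.Th S (fun _ => p) ↔ p := by
  constructor
  · intro h
    obtain ⟨_, h1⟩ := th_exists h
    exact h1
  · intro h
    exact th_of (fun _ => h)

lemma th_or : e.Th S (fun v => P v ∨ Q v) ↔ e.Th S P ∨ e.Th S Q := by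
  have : (fun v => P v ∨ Q v) = (fun v => ¬ (¬ P v ∧ ¬ Q v)) := by
    funext v; exact propext or_iff_not_and_not
  rw [this, th_not, th_and, th_not, th_not]
  exact or_iff_not_and_not.symm

lemma th_imp : e.Th S (fun v => P v → Q v) ↔ (e.Th S P → e.Th S Q) := by
  have : (fun v => P v → Q v) = (fun v => ¬ P v ∨ Q v) := by
    funext v; exact propext imp_iff_not_or
  rw [this, th_or, th_not]
  exact imp_iff_not_or.symm

lemma th_congr (h : e.Th S (fun v => (P v ↔ Q v))) : e.Th S P ↔ e.Th S Q := by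
  constructor
  · exact th_imp.1 (th_mono (fun v h1 => h1.1) h)
  · exact th_imp.1 (th_mono (fun v h1 => h1.2) h)

lemma th_re (r : ℕ → ℕ) : e.Th (S ∘ r) P ↔ e.Th S (fun v => P (v ∘ r)) := by
  unfold Th
  have := e.re r {v | P v}
  have h2 : S ∈ e.K {v | v ∘ r ∈ {v | P v}} ↔ S ∈ {s | s ∘ r ∈ e.K {v | P v}} := by rw [this]
  exact h2.symm

lemma th_all (i : ℕ) : e.Th S (fun v => ∀ x, P (Function.update v i x)) ↔
    ∀ y, e.Th (Function.update S i y) P := by
  unfold Th
  have := e.all i {v | P v}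
  have h2 : S ∈ e.K {v | ∀ x, Function.update v i x ∈ {v | P v}} ↔
    S ∈ {s | ∀ y, Function.update s i y ∈ e.K {v | P v}} := by rw [this]
  exact h2

lemma th_mem (i j : ℕ) : e.Th S (fun v => (v i).1 ∈ (v j).1) ↔ (S i).1 ∈ (S j).1 := by
  unfold Th
  rw [e.mem i j]
  rfl

lemma th_eqc (i : ℕ) {x : ZFSet.{0}} (hx : x ∈ A) :
    e.Th S (fun v => (v i).1 = x) ↔ (S i).1 = e.ι x := by
  unfold Th
  rw [e.const i x hx]
  rfl

lemma upd_cons {T : Type 1} (x y : T) (s : ℕ → T) :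
    Function.update (cons x s) 0 y = cons y s := by
  funext n
  cases n <;> simp

lemma cons_comp_succ {T : Type 1} (x : T) (s : ℕ → T) : cons x s ∘ Nat.succ = s := rfl

/-- existential quantification over `A` in the first coordinate -/
lemma th_ex0 {y₀ : (B : Set ZFSet.{0})} :
    e.Th S (fun v => ∃ x, P (cons x v)) ↔ ∃ y, e.Th (cons y S) P := by
  have h1 : e.Th S (fun v => ∃ x, P (cons x v)) ↔
      e.Th (cons y₀ S) (fun v => ∃ x, P (Function.update v 0 x)) := by
    have h2 : e.Th (cons y₀ S ∘ Nat.succ) (fun v => ∃ x, P (cons x v)) ↔ _ := th_re Nat.succ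
    rw [cons_comp_succ] at h2
    rw [h2]
    have : (fun v : ℕ → (A : Set ZFSet.{0}) => ∃ x, P (cons x (v ∘ Nat.succ))) =
        (fun v => ∃ x, P (Function.update v 0 x)) := by
      funext v
      have h3 : ∀ x, cons x (v ∘ Nat.succ) = Function.update v 0 x := by
        intro x; funext n; cases n <;> simp
      simp only [h3]
    rw [this]
  rw [h1]
  have h4 := th_all (e := e) (S := cons y₀ S) (P := fun v => ¬ P v) 0
  have h5 : e.Th (cons y₀ S) (fun v => ∃ x, P (Function.update v 0 x)) ↔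
      ¬ e.Th (cons y₀ S) (fun v => ∀ x, ¬ P (Function.update v 0 x)) := by
    rw [← th_not]
    have : (fun v : ℕ → (A : Set ZFSet.{0}) => ∃ x, P (Function.update v 0 x)) =
        (fun v => ¬ ∀ x, ¬ P (Function.update v 0 x)) := by
      funext v; push Not; rfl
    rw [this]
  rw [h5, h4]
  push Not
  refine exists_congr fun y => ?_
  rw [upd_cons, th_not, not_not]

lemma th_all0 {y₀ : (B : Set ZFSet.{0})} :
    e.Th S (fun v => ∀ x, P (cons x v)) ↔ ∀ y, e.Th (cons y S) P := by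
  have h := th_ex0 (e := e) (S := S) (P := fun v => ¬ P v) (y₀ := y₀)
  have h2 : e.Th S (fun v => ∀ x, P (cons x v)) ↔ ¬ e.Th S (fun v => ∃ x, ¬ P (cons x v)) := by
    rw [← th_not]
    have : (fun v : ℕ → (A : Set ZFSet.{0}) => ∀ x, P (cons x v)) =
        (fun v => ¬ ∃ x, ¬ P (cons x v)) := by
      funext v; push Not; rfl
    rw [this]
  rw [h2, h]
  push Not
  refine forall_congr' fun y => ?_
  rw [th_not, not_not]

/-- membership in an element of `A` -/
lemma th_memc (i : ℕ) {x : ZFSet.{0}} (hx : x ∈ A) :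
    e.Th S (fun v => (v i).1 ∈ x) ↔ (S i).1 ∈ e.ι x := by
  have h1 : e.Th (cons ⟨e.ι x, e.ιB x hx⟩ S ∘ Nat.succ) (fun v => (v i).1 ∈ x) ↔ _ :=
    th_re Nat.succ
  rw [cons_comp_succ] at h1
  rw [h1]
  have h2 : e.Th (cons ⟨e.ι x, e.ιB x hx⟩ S) (fun v => (v 0).1 = x) := (th_eqc 0 hx).2 rfl
  have h3 : e.Th (cons ⟨e.ι x, e.ιB x hx⟩ S) (fun v => (v (i+1)).1 ∈ (v 0).1) ↔
      (S i).1 ∈ e.ι x := th_mem (i+1) 0
  rw [← h3]
  apply th_congr
  refine th_mono (fun v hv => ?_) h2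
  rw [hv]
  rfl

/-- countable completeness -/
lemma th_countable (hA : IsTransClass A) (hom : omg ∈ A)
    {P : ℕ → (ℕ → (A : Set ZFSet.{0})) → Prop} (h : ∀ n, e.Th S (P n)) : ∃ v, ∀ n, P n v := by
  have hn : ∀ n, nn n ∈ A := fun n => hA _ hom _ (nn_mem n)
  have hnB : nn 0 ∈ B := by
    have := e.ιB _ (hn 0)
    rwa [e.ιn] at this
  have h1 : e.Th S (fun v => ∀ x, (fun u : ℕ → (A : Set ZFSet.{0}) =>
      ((u 0).1 ∈ omg → ∃ n, (u 0).1 = nn n ∧ P n (u ∘ Nat.succ))) (cons x v)) := by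
    refine (th_all0 (P := fun u : ℕ → (A : Set ZFSet.{0}) =>
      ((u 0).1 ∈ omg → ∃ n, (u 0).1 = nn n ∧ P n (u ∘ Nat.succ)))
      (y₀ := ⟨nn 0, hnB⟩)).2 ?_
    intro y
    rw [th_imp, th_memc 0 hom, e.ιom]
    intro hy
    obtain ⟨n, hyn⟩ := mem_om.1 hy
    change y.1 = nn n at hyn
    have h2 : e.Th (cons y S) (fun u => (u 0).1 = nn n) :=
      (th_eqc 0 (hn n)).2 (by rw [e.ιn]; exact hyn)
    have h3 : e.Th (cons y S) (fun u => P n (u ∘ Nat.succ)) := by
      have := (th_re (e := e) (S := cons y S) (P := P n) Nat.succ).1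
      exact this (h n)
    exact th_mono (fun u hu => ⟨n, hu⟩) (th_and.2 ⟨h2, h3⟩)
  obtain ⟨v, hv⟩ := th_exists h1
  refine ⟨v, fun n => ?_⟩
  obtain ⟨m, hm, hP⟩ := hv ⟨nn n, hn n⟩ (nn_mem n)
  have : n = m := nn_inj.1 hm
  rw [this]
  exact hP

end Ext

end Pool.Agent.MP_6fa13c_lc
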