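import Pool.Agent.Lib_MP_6fa13c_lc.Succ

/-!
# Codes of superstrong extenders, as a first-order property
-/

namespace Pool.Agent.MP_6fa13c_lc

open ZFSet Ordinal Forcing Order Inner

section
variable {M : Type 1} (E : M → M → Prop)

/-- the sequences `s`, `s'` of elements of `A` agree except at `i` -/
def AgreeOff (w A i s s' : M) : Prop :=
  ∀ n, E n w → ∀ x, E x A → (¬ n = i → (Val E s n x ↔ Val E s' n x))

/-- `s' = s ∘ r` -/
def CompV (w A r s s' : M) : Prop :=
  ∀ n, E n w → ∀ m, E m w → ∀ x, E x A → (Val E r n m → (Val E s' n x ↔ Val E s m x))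

/-- the seven basic operations on sets of sequences -/
def OpB (c : Fin 7) (w A i i' r : M) (S S' : M → Prop) (s : M) : Prop :=
  match c with
  | 0 => ¬ S s
  | 1 => S s ∧ S' s
  | 2 => ∀ s', E s' A → (IsFun E s' w A ∧ AgreeOff E w A i s s') → S s'
  | 3 => ∃ x, E x A ∧ ∃ y, E y A ∧ (Val E s i x ∧ Val E s i' y ∧ E x y)
  | 4 => ∃ x, E x A ∧ (Val E s i x ∧ Val E s i' x)
  | 5 => ∃ s', E s' A ∧ ((IsFun E s' w A ∧ CompV E w A r s s') ∧ S s')
  | 6 => Val E s i r

/-- `T` is the result of the operation `c` -/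
def Op (c : Fin 7) (w A i i' r : M) (S S' T : M → Prop) : Prop :=
  ∀ s, E s A → IsFun E s w A → (T s ↔ OpB E c w A i i' r S S' s)

/-- the bounded part of the notion of a good code -/
def GoodD (A PA B K w : M) : Prop :=
  (∀ x, E x A → ∀ y, E y x → E y A) ∧ (∀ x, E x B → (E x PA ↔ ∀ y, E y x → E y A)) ∧
  E w A ∧ E A B ∧ E PA B ∧
  ∀ c : Fin 7, ∀ i, E i w → ∀ i', E i' w → ∀ r, E r A → ∀ S, E S PA → ∀ S', E S' PA →
    ∀ T, E T PA → (Op E c w A i i' r (fun s => E s S) (fun s => E s S') (fun s => E s T) →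
      Op E c w B i i' r (fun s => Val E K S s) (fun s => Val E K S' s) (fun s => Val E K T s))

/-- every `w`-sequence of elements of `B` belongs to `B` -/
def OmCl (B w : M) : Prop := ∀ s, IsFun E s w B → E s B

end

namespace Abs

lemma tru : Abs (fun _ _ _ => True) := ⟨FO.tru, fun _ _ _ => Iff.rfl⟩

lemma comp (f : ℕ → ℕ) (hf : Function.Injective f) {R : Fam.{1}} (h : Abs R) :
    Abs (fun M E v => R M E (fun k => v (f k))) :=
  ⟨FO.comp f hf h.fo, fun X hX v => h.abs X hX (fun k => v (f k))⟩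

lemma congr {R S : Fam.{1}} (h : Abs R) (h2 : ∀ M E v, R M E v ↔ S M E v) : Abs S :=
  ⟨FO.congr h.fo h2, fun X hX v => by rw [← h2, ← h2]; exact h.abs X hX v⟩

lemma fin {n : ℕ} {R : Fin n → Fam.{1}} (h : ∀ c, Abs (R c)) :
    Abs (fun M E v => ∀ c, R c M E v) := by
  induction n with
  | zero => exact tru.congr (fun M E v => by simp)
  | succ n ih =>
    exact (and (h 0) (ih (fun c => h c.succ))).congr (fun M E v => by rw [Fin.forall_fin_succ])

/-- skip one variable -/
def sk : ℕ → ℕ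
  | 0 => 0
  | n+1 => n+2

lemma sk_inj : Function.Injective sk := by
  intro a b h
  rcases a with _ | a <;> rcases b with _ | b <;> simp only [sk] at h <;> omega

lemma skip {S : ∀ (M : Type 1), (M → M → Prop) → M → (ℕ → M) → Prop}
    (h : Abs (fun M E v => S M E (v 0) (fun k => v (k+1)))) :
    Abs (fun M E v => S M E (v 0) (fun k => v (k+2))) := h.comp sk sk_inj

lemma opB (c : Fin 7) (w a i i' r : ℕ)
    {S S' : ∀ (M : Type 1), (M → M → Prop) → M → (ℕ → M) → Prop}
    (hS : Abs (fun M E v => S M E (v 0) (fun k => v (k+1))))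
    (hS' : Abs (fun M E v => S' M E (v 0) (fun k => v (k+1)))) :
    Abs (fun M E v => OpB E c (v (w+1)) (v (a+1)) (v (i+1)) (v (i'+1)) (v (r+1))
      (fun s => S M E s (fun k => v (k+1))) (fun s => S' M E s (fun k => v (k+1))) (v 0)) := by
  match c with
  | 0 => exact not hS
  | 1 => exact and hS hS'
  | 2 =>
    exact ball (a+1) (imp (and (isFun _ _ _) (ball (w+2) (ball (a+3) (imp (not (eq _ _))
      (iff (val _ _ _) (val _ _ _)))))) (skip hS))
  | 3 => exact bex (a+1) (bex (a+2) (and (val _ _ _) (and (val _ _ _) (mem _ _))))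
  | 4 => exact bex (a+1) (and (val _ _ _) (val _ _ _))
  | 5 =>
    exact bex (a+1) (and (and (isFun _ _ _) (ball (w+2) (ball (w+3) (ball (a+4)
      (imp (val _ _ _) (iff (val _ _ _) (val _ _ _))))))) (skip hS))
  | 6 => exact val _ _ _

lemma op (c : Fin 7) (w a i i' r : ℕ)
    {S S' T : ∀ (M : Type 1), (M → M → Prop) → M → (ℕ → M) → Prop}
    (hS : Abs (fun M E v => S M E (v 0) (fun k => v (k+1))))
    (hS' : Abs (fun M E v => S' M E (v 0) (fun k => v (k+1))))
    (hT : Abs (fun M E v => T M E (v 0) (fun k => v (k+1)))) :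
    Abs (fun M E v => Op E c (v w) (v a) (v i) (v i') (v r)
      (fun s => S M E s v) (fun s => S' M E s v) (fun s => T M E s v)) :=
  ball a (imp (isFun _ _ _) (iff hT (opB c w a i i' r hS hS')))

lemma goodD (a p b k w : ℕ) : Abs (fun _ E v => GoodD E (v a) (v p) (v b) (v k) (v w)) := by
  refine and (ball a (ball 0 (mem _ _))) (and (ball b (iff (mem _ _) (ball 0 (mem _ _))))
    (and (mem _ _) (and (mem _ _) (and (mem _ _) (fin fun c => ?_)))))
  refine ball w (ball (w+1) (ball (a+2) (ball (p+3) (ball (p+4) (ball (p+5) (imp ?_ ?_))))))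
  · exact op c _ _ _ _ _ (mem _ _) (mem _ _) (mem _ _)
  · exact op c _ _ _ _ _ (val _ _ _) (val _ _ _) (val _ _ _)

end Abs

lemma FO.omCl (i j : ℕ) : FO (fun (M : Type 1) (E : M → M → Prop) v => OmCl E (v i) (v j)) :=
  FO.all (FO.imp (FO.isFun _ _ _) (FO.mem _ _))

end Pool.Agent.MP_6fa13c_lc
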