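import Pool.Agent.Lib_MP_6fa13c_lc.Target

/-!
# Codes of extenders of embeddings which move elements of `A`
-/

namespace Pool.Agent.MP_6fa13c_lc

open ZFSet Ordinal Forcing Order Inner

section
variable {M : Type 1} (E : M → M → Prop)

/-- the bounded part of the notion of a good code, with a map `h` for the constants -/
def GoodH (A PA B K w h : M) : Prop :=
  (∀ x, E x A → ∀ y, E y x → E y A) ∧ (∀ x, E x B → (E x PA ↔ ∀ y, E y x → E y A)) ∧
  (E w A ∧ E A B ∧ E PA B) ∧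
  (∀ x, E x A → ∃ y, E y B ∧ Val E h x y) ∧ (∀ n, E n w → Val E h n n) ∧ Val E h w w ∧
  (∀ r, E r A → (IsFun E r w w → Val E h r r)) ∧
  ∀ c : Fin 7, ∀ i, E i w → ∀ i', E i' w → ∀ r, E r A → ∀ r', E r' B → (Val E h r r' →
    ∀ S, E S PA → ∀ S', E S' PA →
    ∀ T, E T PA → (Op E c w A i i' r (fun s => E s S) (fun s => E s S') (fun s => E s T) →
      Op E c w B i i' r' (fun s => Val E K S s) (fun s => Val E K S' s) (fun s => Val E K T s)))

end

namespace Abs

lemma goodH (a p b k w h : ℕ) :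
    Abs (fun _ E v => GoodH E (v a) (v p) (v b) (v k) (v w) (v h)) := by
  refine and (ball a (ball 0 (mem _ _))) (and (ball b (iff (mem _ _) (ball 0 (mem _ _))))
    (and (and (mem _ _) (and (mem _ _) (mem _ _))) (and (ball a (bex (b+1) (val _ _ _)))
    (and (ball w (val _ _ _)) (and (val _ _ _) (and (ball a (imp (isFun _ _ _) (val _ _ _)))
    (fin fun c => ?_)))))))
  refine ball w (ball (w+1) (ball (a+2) (ball (b+3) (imp (val _ _ _)
    (ball (p+4) (ball (p+5) (ball (p+6) (imp ?_ ?_))))))))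
  · exact op c _ _ _ _ _ (mem _ _) (mem _ _) (mem _ _)
  · exact op c _ _ _ _ _ (val _ _ _) (val _ _ _) (val _ _ _)

end Abs

lemma goodH_on {X : Set ZFSet.{0}} (hX : IsTransClass X) (a pa b k w h : X) :
    GoodH (memOn X) a pa b k w h ↔ GoodH EV a.1 pa.1 b.1 k.1 w.1 h.1 :=
  (Abs.goodH 0 1 2 3 4 5).abs X hX (cons a (cons pa (cons b (cons k (cons w (fun _ => h))))))

theorem exists_extH {A PA K H : ZFSet.{0}} {β : Ordinal.{0}} (hA : OmClosed A)
    (hB : OmClosed (V_ β)) (h : GoodH EV A PA (V_ β) K omg H) : Nonempty (Ext A (V_ β)) := by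
  classical
  obtain ⟨htr, hpw, ⟨hom, hAB, _⟩, hh, hhn, hhw, hhr, hop⟩ := h
  have hnA : ∀ n, nn n ∈ A := fun n => htr _ hom _ (nn_mem n)
  have hPA : ∀ R : Set (ℕ → (A : Set ZFSet.{0})), setOf' R ∈ PA := by
    intro R
    have h1 : setOf' R ∈ V_ β := mem_vonNeumann_of_subset sep_subset hAB
    exact (hpw _ h1).2 (fun y hy => sep_subset hy)
  have hAB' : ∀ x ∈ A, x ∈ V_ β := fun x hx => transV β _ hAB _ hx
  let KK : Set (ℕ → (A : Set ZFSet.{0})) → Set (ℕ → (V_ β : Set ZFSet.{0})) := fun R =>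
    {s | pair (setOf' R) (cd s) ∈ K}
  have key : ∀ (c : Fin 7) (i i' : ℕ) (ρ : ℕ → ℕ) (x x' : ZFSet.{0}),
      prm c ρ x ∈ A → prm c ρ x' ∈ V_ β → Val EV H (prm c ρ x) (prm c ρ x') →
      ∀ R R' : Set (ℕ → (A : Set ZFSet.{0})),
      KK (OpS c i i' ρ x R R') = OpS c i i' ρ x' (KK R) (KK R') := by
    intro c i i' ρ x x' hp hp' hval R R'
    have h1 := hop c (nn i) (nn_mem i) (nn i') (nn_mem i') (prm c ρ x) hp (prm c ρ x') hp' hval
      (setOf' R) (hPA _) (setOf' R') (hPA _) (setOf' (OpS c i i' ρ x R R')) (hPA _) (by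
        unfold Op
        rw [all_cd hA]
        intro v
        rw [opB_cd hA c i i' ρ x R R' (fun v => mem_setOf' hA) (fun v => mem_setOf' hA) v]
        exact mem_setOf' hA)
    unfold Op at h1
    rw [all_cd hB] at h1
    ext s
    rw [← opB_cd hB c i i' ρ x' (KK R) (KK R')
      (S := fun s => Val EV K (setOf' R) s) (S' := fun s => Val EV K (setOf' R') s)
      (fun v => by rw [val_EV]; rfl) (fun v => by rw [val_EV]; rfl) s]
    rw [← h1 s]
    exact val_EV.symm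
  let ι : ZFSet.{0} → ZFSet.{0} := fun x =>
    if x = omg ∨ x ∈ omg then x else if hx : x ∈ A then (hh x hx).choose else ∅
  have hιB : ∀ x ∈ A, ι x ∈ V_ β := by
    intro x hx
    by_cases h1 : x = omg ∨ x ∈ omg
    · simp only [ι, if_pos h1]; exact hAB' _ hx
    · simp only [ι, if_neg h1, dif_pos hx]; exact (hh x hx).choose_spec.1
  have hιH : ∀ x ∈ A, Val EV H x (ι x) := by
    intro x hx
    by_cases h1 : x = omg ∨ x ∈ omg
    · simp only [ι, if_pos h1]
      rcases h1 with rfl | h1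
      · exact hhw
      · exact hhn _ h1
    · simp only [ι, if_neg h1, dif_pos hx]; exact (hh x hx).choose_spec.2
  have h0 : Val EV H (nn 0) (nn 0) := hhn _ (nn_mem 0)
  have h0B := hAB' _ (hnA 0)
  refine ⟨⟨KK, ι, ?_, ?_, ?_, ?_, ?_, ?_, ?_, hιB, fun n => ?_, ?_⟩⟩
  · intro R
    exact key 0 0 0 id ∅ ∅ (hnA 0) h0B h0 R R
  · intro R R'
    exact key 1 0 0 id ∅ ∅ (hnA 0) h0B h0 R R'
  · intro i R
    exact key 2 i 0 id ∅ ∅ (hnA 0) h0B h0 R R
  · intro i i'
    exact key 3 i i' id ∅ ∅ (hnA 0) h0B h0 ∅ ∅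
  · intro i i'
    exact key 4 i i' id ∅ ∅ (hnA 0) h0B h0 ∅ ∅
  · intro r R
    have hr : code (fun n => nn (r n)) ∈ A := hA (fun n => ⟨nn (r n), hnA _⟩)
    exact key 5 0 0 r ∅ ∅ hr (hAB' _ hr)
      (hhr _ hr (isFun_EV.2 (code_isFunc (fun n => nn_mem (r n))))) R R
  · intro i x hx
    exact key 6 i 0 id x (ι x) hx (hιB x hx) (hιH x hx) ∅ ∅
  · simp only [ι, if_pos (Or.inr (nn_mem n))]
  · simp only [ι, if_pos (Or.inl rfl)]

end Pool.Agent.MP_6fa13c_lc
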