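import Pool.Agent.Lib_MP_6fa13c_lc.Main1

/-!
# `Repl κ` is inaccessibility
-/

namespace Pool.Agent.MP_6fa13c_lc

open ZFSet Ordinal Forcing Order Inner

theorem repl_of_inaccessible {c : Cardinal.{0}} (hc : c.IsInaccessible) : Repl c.ord := by
  have hlim : IsSuccLimit c.ord := Cardinal.isSuccLimit_ord hc.aleph0_lt.le
  refine ⟨hlim, ?_, ?_⟩
  · rw [← Cardinal.ord_aleph0, Cardinal.ord_lt_ord]
    exact hc.aleph0_lt
  · intro a ha F hF
    have h1 : a.card < c := by
      have h2 : a.card ≤ (V_ (rank a)).card := card_mono (subset_vonNeumann_self a)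
      rw [card_vonNeumann] at h2
      refine h2.trans_lt ?_
      rw [mem_vonNeumann] at ha
      have h3 := Cardinal.preBeth_strictMono ha
      rwa [hc.preBeth_ord] at h3
    let e := (equivShrink a)
    have h4 : ⨆ i : Shrink a, rank (F (e.symm i).1) + 1 < c.ord := by
      apply iSup_add_one_lt_of_lt_cof
      · rw [hc.isRegular.cof_ord]
        exact h1
      · intro i
        have := hF _ (e.symm i).2
        rwa [mem_vonNeumann] at this
    refine ⟨_, h4, fun x hx => ?_⟩
    rw [mem_vonNeumann]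
    have h5 := Ordinal.le_iSup (fun i : Shrink a => rank (F (e.symm i).1) + 1) (e ⟨x, hx⟩)
    have h6 : rank (F x) < rank (F (e.symm (e ⟨x, hx⟩)).1) + 1 := by
      rw [Equiv.symm_apply_apply]
      exact lt_add_one _
    exact h6.trans_le h5

theorem Repl.inaccessible {κ : Ordinal.{0}} (h : Repl κ) :
    ∃ c : Cardinal.{0}, c.IsInaccessible ∧ κ = c.ord := by
  have h0 : κ.card.ord = κ := by
    rcases (Cardinal.ord_card_le κ).lt_or_eq with h1 | h1
    · exfalso
      have hpos : 0 < κ.card.ord := by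
        rw [Cardinal.ord_pos]
        have : κ ≠ 0 := h.lim.bot_lt.ne'
        rw [pos_iff_ne_zero]
        simpa using this
      have h2 := h.succ_card_lt h1 hpos
      rw [Cardinal.card_ord] at h2
      have h3 := Ordinal.card_le_card h2.le
      rw [Cardinal.card_ord] at h3
      exact absurd h3 (not_le.2 (lt_succ _))
    · exact h1
  refine ⟨κ.card, ⟨?_, ?_, ?_⟩, h0.symm⟩
  · have h1 := h.om
    rw [← h0, ← Cardinal.ord_aleph0, Cardinal.ord_lt_ord] at h1
    exact h1
  · rw [h0]
    by_contra hcon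
    push Not at hcon
    obtain ⟨ι, f, hf, hι⟩ := exists_lsub_cof κ
    have hακ : (Cardinal.mk ι).ord < κ := by
      rw [hι, ← h0, Cardinal.ord_lt_ord, h0]
      exact hcon
    have hpos : 0 < (Cardinal.mk ι).ord := by
      rw [Cardinal.ord_pos, hι, cof_pos]
      exact h.lim.bot_lt
    have hks : KSm κ ι := by
      obtain ⟨a, ha, g, hg⟩ := Repl.ksIio hακ hpos
      have h1 : Cardinal.lift.{0} (Cardinal.mk (Set.Iio (Cardinal.mk ι).ord)) =
          Cardinal.lift.{1} (Cardinal.mk ι) := by
        rw [Cardinal.mk_Iio_ordinal, Cardinal.card_ord, Cardinal.lift_uzero]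
      obtain ⟨e⟩ := Cardinal.lift_mk_eq'.1 h1
      refine ⟨a, ha, fun x => e (g x), fun t => ?_⟩
      obtain ⟨x, hx, hxt⟩ := hg (e.symm t)
      exact ⟨x, hx, by beta_reduce; rw [hxt, Equiv.apply_symm_apply]⟩
    have hfκ : ∀ i, f i < κ := fun i => by
      rw [← hf]; exact lt_lsub f i
    obtain ⟨γ, hγ, hb⟩ := h.bdK hks (F := fun i => (f i).toZFSet) (fun i => mem_V_of_lt (hfκ i))
    have h2 : κ ≤ γ := by
      rw [← hf]
      exact lsub_le (fun i => lt_of_mem_V (hb i))
    exact absurd hγ (not_lt.2 h2)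
  · intro x hx
    rcases eq_or_ne x 0 with hx0 | hx0
    · rw [hx0, Cardinal.power_zero]
      have h1 := h.om
      rw [← h0, ← Cardinal.ord_aleph0, Cardinal.ord_lt_ord] at h1
      exact Cardinal.one_lt_aleph0.trans h1
    · have h1 : x.ord < κ := by
        rw [← h0, Cardinal.ord_lt_ord]; exact hx
      have h2 := h.two_pow_lt h1 (Cardinal.ord_pos.2 (pos_iff_ne_zero.2 hx0))
      rw [Cardinal.card_ord, ← h0, Cardinal.ord_lt_ord] at h2
      exact h2

end Pool.Agent.MP_6fa13c_lc
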