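import Pool.Agent.Lib_MP_6fa13c_lc.Main1
import Mathlib.SetTheory.Cardinal.Arithmetic

/-!
# Jónsson functions on strong limits of cofinality `ω`
-/

namespace Pool.Agent.MP_6fa13c_lc

open Ordinal Order Cardinal

universe u

/-- distinct representatives -/
theorem distinct_choice {I Y : Type u} (P : I → Set Y) (hP : ∀ i, #I ≤ #(P i)) :
    ∃ s : I → Y, Function.Injective s ∧ ∀ i, s i ∈ P i := by
  classical
  rcases isEmpty_or_nonempty I with hI | hI
  · exact ⟨fun i => (hI.false i).elim, fun i => (hI.false i).elim, fun i => (hI.false i).elim⟩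
  have hY : Nonempty Y := by
    obtain ⟨i⟩ := hI
    have h1 : #(P i) ≠ 0 := by
      intro h0
      have h2 := hP i
      rw [h0, nonpos_iff_eq_zero, Cardinal.mk_eq_zero_iff] at h2
      exact h2.false i
    obtain ⟨y⟩ := Cardinal.mk_ne_zero_iff.1 h1
    exact ⟨y.1⟩
  obtain ⟨r, wo, hr⟩ := Cardinal.exists_ord_eq I
  have hwf : WellFounded r := wo.wf
  let s : I → Y := hwf.fix (fun i ih =>
    if h : ∃ y ∈ P i, ∀ j (hj : r j i), y ≠ ih j hj then h.choose else Classical.arbitrary Y)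
  have key : ∀ i, ∃ y ∈ P i, ∀ j (_ : r j i), y ≠ s j := by
    intro i
    by_contra hcon
    push Not at hcon
    have h1 : P i ⊆ Set.range (fun j : {j // r j i} => s j.1) := by
      intro y hy
      obtain ⟨j, hj, hyj⟩ := hcon y hy
      exact ⟨⟨j, hj⟩, hyj.symm⟩
    have h2 : #(P i) ≤ #{j // r j i} := (Cardinal.mk_le_mk_of_subset h1).trans Cardinal.mk_range_le
    have h3 : #{j // r j i} < #I := Cardinal.card_typein_lt i hr
    exact absurd ((hP i).trans h2) (not_le.2 h3)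
  have hs : ∀ i, s i ∈ P i ∧ ∀ j (_ : r j i), s i ≠ s j := by
    intro i
    have h1 : s i = (key i).choose := by
      have h2 : s i = if h : ∃ y ∈ P i, ∀ j (hj : r j i), y ≠ s j then h.choose
          else Classical.arbitrary Y := hwf.fix_eq _ i
      rw [h2, dif_pos (key i)]
    rw [h1]
    exact (key i).choose_spec
  refine ⟨s, ?_, fun i => (hs i).1⟩
  intro a b hab
  by_contra hne
  rcases trichotomous_of r a b with h | h | h
  · exact (hs b).2 a h hab.symm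
  · exact hne h
  · exact (hs a).2 b h hab

/-- a Jónsson function -/
theorem exists_jonsson {S : Type u} (hinf : ℵ₀ ≤ #S) (h : #(S → S) ≤ #(ℕ → S)) :
    ∃ F : (ℕ → S) → S, ∀ g : S → S, Function.Injective g → ∀ y, ∃ t, F (g ∘ t) = y := by
  classical
  let I := {g : S → S // Function.Injective g} × S
  let P : I → Set (ℕ → S) := fun i => Set.range (fun t : ℕ → S => i.1.1 ∘ t)
  have hP : ∀ i, #I ≤ #(P i) := by
    intro i
    have h1 : #(P i) = #(ℕ → S) := Cardinal.mk_range_eq _ (fun t t' htt' => by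
      funext n
      exact i.1.2 (congrFun htt' n))
    rw [h1]
    refine le_trans ?_ h
    have h2 : #I ≤ #(S → S) * #S := by
      rw [← Cardinal.mul_def]
      exact Cardinal.mk_le_of_injective (f := fun i : I => (i.1.1, i.2)) (by
        rintro ⟨⟨g, hg⟩, y⟩ ⟨⟨g', hg'⟩, y'⟩ h
        simp only [Prod.mk.injEq] at h
        obtain ⟨rfl, rfl⟩ := h
        rfl)
    refine h2.trans ?_
    have h3 : #S ≤ #(S → S) := Cardinal.mk_le_of_injective (f := fun a _ => a) (by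
      intro a b hab
      have : Nonempty S := ⟨a⟩
      exact congrFun hab a)
    exact Cardinal.mul_le_of_le (hinf.trans h3) le_rfl h3
  obtain ⟨s, hs, hsP⟩ := distinct_choice P hP
  have hS : Nonempty S := by
    rw [← Cardinal.mk_ne_zero_iff]
    intro h0
    rw [h0] at hinf
    exact absurd hinf (not_le.2 Cardinal.aleph0_pos)
  refine ⟨fun u => if hu : ∃ i, s i = u then hu.choose.2 else Classical.arbitrary S, ?_⟩
  intro g hg y
  obtain ⟨t, ht⟩ := hsP (⟨g, hg⟩, y)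
  refine ⟨t, ?_⟩
  have hu : ∃ i, s i = g ∘ t := ⟨(⟨g, hg⟩, y), ht.symm⟩
  beta_reduce
  rw [dif_pos hu]
  have h1 : hu.choose = (⟨g, hg⟩, y) := hs (hu.choose_spec.trans ht)
  rw [h1]

/-- cardinal arithmetic for a limit of an `ω`-sequence -/
theorem card_of_seq {σ : Ordinal.{0}} (ν : ℕ → Ordinal.{0}) (h1 : ∀ i, ν i < σ)
    (h2 : ∀ α < σ, ∃ i, α < ν i) (h0 : ω ≤ ν 0)
    (h3 : ∀ i, #(Set (Set.Iio (ν i))) ≤ #(Set.Iio (ν (i+1)))) :
    ℵ₀ ≤ #(Set.Iio σ) ∧ #(Set.Iio σ → Set.Iio σ) ≤ #(ℕ → Set.Iio σ) := by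
  have hinf : ℵ₀ ≤ #(Set.Iio σ) := by
    rw [Cardinal.mk_Iio_ordinal]
    have : ℵ₀ ≤ σ.card := Ordinal.aleph0_le_card.2 (h0.trans (h1 0).le)
    exact Cardinal.aleph0_le_lift.2 this
  refine ⟨hinf, ?_⟩
  have e1 : #(Set.Iio σ → Set.Iio σ) = #(Set (Set.Iio σ)) := by
    rw [Cardinal.mk_set]
    have : #(Set.Iio σ → Set.Iio σ) = #(Set.Iio σ) ^ #(Set.Iio σ) := by simp
    rw [this, Cardinal.power_self_eq hinf]
  rw [e1]
  have h4 : ∀ i, ∃ e : Set (Set.Iio (ν i)) → Set.Iio (ν (i+1)), Function.Injective e := by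
    intro i
    obtain ⟨e⟩ := h3 i
    exact ⟨e, e.injective⟩
  choose e he using h4
  refine Cardinal.mk_le_of_injective (f := fun X i =>
    ⟨(e i {a | (⟨a.1, a.2.trans (h1 i)⟩ : Set.Iio σ) ∈ X}).1,
      lt_trans (e i {a | (⟨a.1, a.2.trans (h1 i)⟩ : Set.Iio σ) ∈ X}).2 (h1 (i+1))⟩) ?_
  intro X Y hXY
  have h5 : ∀ i, {a : Set.Iio (ν i) | (⟨a.1, a.2.trans (h1 i)⟩ : Set.Iio σ) ∈ X} =
      {a : Set.Iio (ν i) | (⟨a.1, a.2.trans (h1 i)⟩ : Set.Iio σ) ∈ Y} := by
    intro i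
    apply he i
    apply Subtype.ext
    have := congrFun hXY i
    exact congrArg (fun z : Set.Iio σ => z.1) this
  ext ⟨a, ha⟩
  obtain ⟨i, hi⟩ := h2 a ha
  have h6 := Set.ext_iff.1 (h5 i) ⟨a, hi⟩
  exact h6

end Pool.Agent.MP_6fa13c_lc
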