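import Pool.Agent.Lib_MP_6fa13c_lc.NoGss

/-!
# A `Ψ_gss`-large cardinal from extenders with cofinally many targets
-/

namespace Pool.Agent.MP_6fa13c_lc

open ZFSet Ordinal Forcing Order Inner

lemma IsCard.lim {κ : Ordinal.{0}} (h : IsCard κ) : IsSuccLimit κ := by
  rw [← h.2]
  exact Cardinal.isSuccLimit_ord (Ordinal.aleph0_le_card.2 h.1)

/-! ### ranks in the target of an embedding of `V_Ω` -/

lemma el_rank {Ω : Ordinal.{0}} (hΩ : IsSuccLimit Ω) {Y : Set ZFSet.{0}} (hY : IsTransClass Y)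
    {j : ZFSet.{0} → ZFSet.{0}} (h : Elementary (V_ Ω) Y j) (x : ZFSet.{0}) :
    ∀ (hx : x ∈ Y) (α : Ordinal.{0}) (hα : α.toZFSet ∈ Y), rank x < α →
      RankLt (memOn Y) ⟨x, hx⟩ ⟨α.toZFSet, hα⟩ := by
  have hX := transV Ω
  have hR : FO (fun (M : Type 1) (E : M → M → Prop) _ => ∀ x a, IsOrd E a → ¬ RankLt E x a →
      ∀ b, E b a → ∃ y, E y x ∧ ¬ RankLt E y b) :=
    FO.all (FO.all (FO.imp (Abs.isOrd 0).fo (FO.imp (FO.not (FO.rankLt _ _)) (FO.all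
      (FO.imp (FO.mem _ _) (FO.ex (FO.and (FO.mem _ _) (FO.not (FO.rankLt _ _)))))))))
  have h0 : (∅ : ZFSet) ∈ ((V_ Ω : ZFSet.{0}) : Set ZFSet) := by
    rw [SetLike.mem_coe, mem_vonNeumann, rank_empty]; exact hΩ.bot_lt
  have h1 := (h.tr hR (const_in h0)).1 (by
    intro x a ha hxa b hb
    obtain ⟨α, hα⟩ := isOrd_EV_iff.1 (((Abs.isOrd 0).abs _ hX (fun _ => a)).1 ha)
    change a.1 = α.toZFSet at hα
    have hr : α ≤ rank x.1 := by
      by_contra hcon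
      push Not at hcon
      exact hxa (rankLt_complete hX hΩ (fun _ hx => hx) x.2 hα hcon)
    have hb' : b.1 ∈ α.toZFSet := by rw [← hα]; exact hb
    obtain ⟨β, hβ, hβb⟩ := mem_toZFSet_iff.1 hb'
    obtain ⟨y, hy, hy2⟩ := lt_rank_iff.1 (hβ.trans_le hr)
    refine ⟨⟨y, hX _ x.2 _ hy⟩, hy, fun hcon => ?_⟩
    have h3 := rankLt_sound hX hcon
    rw [← hβb, rank_toZFSet] at h3
    exact absurd hy2 (not_le.2 h3))
  induction x using ZFSet.inductionOn with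
  | _ x ih =>
    intro hx α hα hlt
    by_contra hcon
    have h2 : (rank x).toZFSet ∈ Y := hY _ hα _ (toZFSet_mem hlt)
    obtain ⟨y, hy, hy2⟩ := h1 ⟨x, hx⟩ ⟨α.toZFSet, hα⟩
      (((Abs.isOrd 0).abs _ hY (fun _ => ⟨α.toZFSet, hα⟩)).2 (isOrd_EV_iff.2 ⟨α, rfl⟩)) hcon
      ⟨(rank x).toZFSet, h2⟩ (toZFSet_mem hlt)
    exact hy2 (ih y.1 hy y.2 _ h2 (rank_lt_of_mem hy))

lemma el_V_mem {Ω : Ordinal.{0}} (hΩ : IsSuccLimit Ω) {Y : Set ZFSet.{0}} (hY : IsTransClass Y)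
    {j : ZFSet.{0} → ZFSet.{0}} (h : Elementary (V_ Ω) Y j) {β : Ordinal.{0}} (hβ : β < Ω)
    {x : ZFSet.{0}} : x ∈ j (V_ β) ↔ x ∈ Y ∧ rank x < jo j β := by
  have hX := transV Ω
  have hβX : β.toZFSet ∈ V_ Ω := mem_V_of_lt hβ
  have hVX : V_ β ∈ V_ Ω := vonNeumann_mem_of_lt hβ
  have hR : FO (fun (M : Type 1) (E : M → M → Prop) v => ∀ x, (E x (v 0) ↔ RankLt E x (v 1))) :=
    FO.all (FO.iff (FO.mem _ _) (FO.rankLt _ _))
  have h1 := (h.tr hR (cons_in hVX (const_in hβX))).1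
    ((isV_iff hX hΩ (fun _ hx => hx) (B := ⟨V_ β, hVX⟩) (b := ⟨β.toZFSet, hβX⟩) rfl hβ).2 rfl)
  have hjβ := jo_eq h hX hY hβX
  have hjY : (jo j β).toZFSet ∈ Y := by rw [← hjβ]; exact h.maps hβX
  constructor
  · intro hx
    have hxY : x ∈ Y := hY _ (h.maps hVX) _ hx
    refine ⟨hxY, ?_⟩
    have h2 := rankLt_sound hY ((h1 ⟨x, hxY⟩).1 hx)
    change rank x < rank (j β.toZFSet) at h2
    rwa [hjβ, rank_toZFSet] at h2
  · rintro ⟨hxY, hx⟩
    have h2 := el_rank hΩ hY h x hxY _ hjY hx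
    refine (h1 ⟨x, hxY⟩).2 ?_
    have e : (⟨j β.toZFSet, h.maps hβX⟩ : Y) = ⟨(jo j β).toZFSet, hjY⟩ := Subtype.ext hjβ
    change RankLt (memOn Y) ⟨x, hxY⟩ ⟨j β.toZFSet, h.maps hβX⟩
    rw [e]
    exact h2

/-! ### closure under basic operations -/

/-- first-order version of `ClosedBasic` -/
def ClF {M : Type 1} (E : M → M → Prop) (a : M) : Prop :=
  ∀ x, E x a → ∀ y, E y a → ((∃ z, E z a ∧ IsUPair E z x y) ∧
    ((∃ z, E z a ∧ ((∀ p, E p z → ∃ u, E u x ∧ ∃ v, E v y ∧ IsPair E p u v) ∧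
      ∀ u, E u x → ∀ v, E v y → ∃ p, E p z ∧ IsPair E p u v)) ∧
    ∃ z, E z a ∧ ((∀ u, E u z → (E u x ∧ E u y)) ∧ ∀ u, E u x → (E u y → E u z))))

lemma Abs.clF (i : ℕ) : Abs (fun _ E v => ClF E (v i)) :=
  ball i (ball (i+1) (and (bex _ (isUPair _ _ _)) (and (bex _ (and
    (ball _ (bex _ (bex _ (isPair _ _ _)))) (ball _ (ball _ (bex _ (isPair _ _ _))))))
    (bex _ (and (ball _ (and (mem _ _) (mem _ _))) (ball _ (imp (mem _ _) (mem _ _))))))))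

lemma clF_EV {a : ZFSet.{0}} : ClF EV a ↔ ClosedBasic a := by
  unfold ClF ClosedBasic
  refine forall_congr' fun x => forall_congr' fun hx => forall_congr' fun y =>
    forall_congr' fun hy => and_congr ?_ (and_congr ?_ ?_)
  · simp only [isUPair_EV]
    exact ⟨fun ⟨z, h1, h2⟩ => h2 ▸ h1, fun h => ⟨_, h, rfl⟩⟩
  · constructor
    · rintro ⟨z, hz, h1, h2⟩
      have : z = x.prod y := by
        ext p
        rw [mem_prod]
        constructor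
        · intro hp
          obtain ⟨u, hu, v, hv, h3⟩ := h1 p hp
          exact ⟨u, hu, v, hv, isPair_EV.1 h3⟩
        · rintro ⟨u, hu, v, hv, rfl⟩
          obtain ⟨p, hp, h3⟩ := h2 u hu v hv
          rw [isPair_EV.1 h3] at hp
          exact hp
      rw [← this]; exact hz
    · intro h
      refine ⟨_, h, ?_, ?_⟩
      · intro p hp
        obtain ⟨u, hu, v, hv, h3⟩ := mem_prod.1 hp
        exact ⟨u, hu, v, hv, isPair_EV.2 h3⟩
      · intro u hu v hv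
        exact ⟨pair u v, mem_prod.2 ⟨u, hu, v, hv, rfl⟩, isPair_EV.2 rfl⟩
  · constructor
    · rintro ⟨z, hz, h1, h2⟩
      have : z = x ∩ y := by
        ext p
        rw [mem_inter]
        exact ⟨fun hp => h1 p hp, fun hp => h2 p hp.1 hp.2⟩
      rw [← this]; exact hz
    · intro h
      exact ⟨_, h, fun u hu => mem_inter.1 hu, fun u hu hv => mem_inter.2 ⟨hu, hv⟩⟩

lemma closedBasic_V {θ : Ordinal.{0}} (hθ : IsSuccLimit θ) : ClosedBasic (V_ θ) := by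
  intro x hx y hy
  rw [mem_vonNeumann] at hx hy
  refine ⟨?_, ?_, ?_⟩
  · rw [mem_vonNeumann, rank_pair]
    exact max_lt (hθ.succ_lt hx) (hθ.succ_lt hy)
  · have h1 : x.prod y ⊆ V_ (succ (succ (max (rank x) (rank y)))) := by
      intro p hp
      obtain ⟨u, hu, v, hv, rfl⟩ := mem_prod.1 hp
      rw [mem_vonNeumann, rank_opair]
      exact succ_lt_succ (succ_lt_succ (max_lt ((rank_lt_of_mem hu).trans_le (le_max_left _ _))
        ((rank_lt_of_mem hv).trans_le (le_max_right _ _))))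
    rw [subset_vonNeumann] at h1
    rw [mem_vonNeumann]
    exact h1.trans_lt (add_two_lt hθ (max_lt hx hy))
  · rw [mem_vonNeumann]
    refine lt_of_le_of_lt (rank_mono ?_) hx
    intro z hz
    exact (mem_inter.1 hz).1

/-! ### the data of an embedding -/

/-- the embedding given by an extender -/
structure Emb (Ω κ : Ordinal.{0}) (A : ZFSet.{0}) (N : Set ZFSet.{0})
    (J : ZFSet.{0} → ZFSet.{0}) : Prop where
  sub : N ⊆ V_ Ω
  tr : IsTransClass N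
  el : Elementary (V_ Ω) N J
  JA : J A = V_ κ
  V : ∀ x ∈ V_ κ, x ∈ N

lemma emb_of_ext {Ω κ : Ordinal.{0}} (hΩ : Repl Ω) {A : ZFSet.{0}} (hA : A ∈ V_ Ω)
    (hAtr : IsTransClass A) (hom : omg ∈ A) (hκ : κ < Ω) (e : Ext A (V_ κ)) :
    ∃ N J, Emb Ω κ A N J := by
  have hAκ : ∀ x ∈ A, x ∈ V_ Ω := fun x hx => transV Ω _ hA _ hx
  have hwf := Ext.memC_wf (e := e) (κ := Ω) hAtr hom
  have hne : nn 0 ∈ V_ κ := by
    have := e.ιB _ (hAtr _ hom _ (nn_mem 0))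
    rwa [e.ιn] at this
  refine ⟨Ext.MM hwf, Ext.J hwf hne, ?_, Ext.MM_trans hwf, Ext.J_elementary hwf hne,
    Ext.J_A hwf hAtr hAκ hA hne, fun x hx => Ext.V_sub_MM hwf hAtr hAκ hne hx⟩
  rintro _ ⟨c, rfl⟩
  exact Ext.pi_mem_V hwf hΩ hA ⟨_, hom⟩ hκ hne c

lemma Emb.jα {Ω κ : Ordinal.{0}} {A : ZFSet.{0}} {N : Set ZFSet.{0}}
    {J : ZFSet.{0} → ZFSet.{0}} (h : Emb Ω κ A N J) (hA : A ∈ V_ Ω) {α : Ordinal.{0}}
    (hαΩ : α < Ω) (hα : ∀ ξ : Ordinal.{0}, ξ.toZFSet ∈ A ↔ ξ < α) :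
    J α.toZFSet = κ.toZFSet := by
  have hακ : α.toZFSet ∈ V_ Ω := mem_V_of_lt hαΩ
  have hR : Abs (fun _ E v => (∀ x, E x (v 0) → (E x (v 1) ∧ IsOrd E x)) ∧
      ∀ x, E x (v 1) → (IsOrd E x → E x (v 0))) :=
    Abs.and (Abs.ball 0 (Abs.and (Abs.mem _ _) (Abs.isOrd 0)))
      (Abs.ball 1 (Abs.imp (Abs.isOrd 0) (Abs.mem _ _)))
  have hJ := (h.el.abs (transV Ω) h.tr hR (cons_in hακ (const_in hA))).1 (by
    constructor
    · intro x hx
      obtain ⟨ξ, hξ, rfl⟩ := mem_toZFSet_iff.1 hx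
      exact ⟨(hα ξ).2 hξ, isOrd_EV_iff.2 ⟨ξ, rfl⟩⟩
    · intro x hx hord
      obtain ⟨ξ, rfl⟩ := isOrd_EV_iff.1 hord
      exact toZFSet_mem ((hα ξ).1 hx))
  ext x
  constructor
  · intro hx
    have h1 := hJ.1 x hx
    obtain ⟨ξ, rfl⟩ := isOrd_EV_iff.1 h1.2
    have h2 : ξ.toZFSet ∈ J A := h1.1
    rw [h.JA] at h2
    exact toZFSet_mem (lt_of_mem_V h2)
  · intro hx
    obtain ⟨ξ, hξ, rfl⟩ := mem_toZFSet_iff.1 hx
    refine hJ.2 ξ.toZFSet ?_ (isOrd_EV_iff.2 ⟨ξ, rfl⟩)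
    change ξ.toZFSet ∈ J A
    rw [h.JA]
    exact mem_V_of_lt hξ

/-- `A` is `V_α` -/
lemma Emb.A_eq {Ω κ : Ordinal.{0}} (hΩ : IsSuccLimit Ω) {A : ZFSet.{0}}
    {N : Set ZFSet.{0}}
    {J : ZFSet.{0} → ZFSet.{0}} (h : Emb Ω κ A N J) (hA : A ∈ V_ Ω) {α : Ordinal.{0}}
    (hαΩ : α < Ω) (hα : ∀ ξ : Ordinal.{0}, ξ.toZFSet ∈ A ↔ ξ < α) : A = V_ α := by
  have hX := transV Ω
  have hj := h.jα hA hαΩ hα
  have hαX : α.toZFSet ∈ V_ Ω := mem_V_of_lt hαΩ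
  have hκN : κ.toZFSet ∈ N := by rw [← hj]; exact h.el.maps hαX
  have hR : FO (fun (M : Type 1) (E : M → M → Prop) v => ∀ x, (E x (v 0) ↔ RankLt E x (v 1))) :=
    FO.all (FO.iff (FO.mem _ _) (FO.rankLt _ _))
  have h1 := (h.el.tr hR (cons_in hA (const_in hαX))).2 (by
    intro x
    change x.1 ∈ J A ↔ RankLt (memOn N) x ⟨J α.toZFSet, h.el.maps hαX⟩
    have e : (⟨J α.toZFSet, h.el.maps hαX⟩ : N) = ⟨κ.toZFSet, hκN⟩ := Subtype.ext hj
    rw [h.JA, e, mem_vonNeumann]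
    constructor
    · intro hx
      exact el_rank hΩ h.tr h.el x.1 x.2 κ hκN hx
    · intro hx
      have := rankLt_sound h.tr hx
      rwa [rank_toZFSet] at this)
  exact (isV_iff hX hΩ (fun _ hx => hx) (B := ⟨A, hA⟩) (b := ⟨α.toZFSet, hαX⟩) rfl hαΩ).1 h1

/-- `α` is a cardinal -/
lemma Emb.card {Ω κ : Ordinal.{0}} (hΩ : Repl Ω) {A : ZFSet.{0}} {N : Set ZFSet.{0}}
    {J : ZFSet.{0} → ZFSet.{0}} (h : Emb Ω κ A N J) (hκ : IsCard κ) {α : Ordinal.{0}}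
    (hαΩ : α < Ω) (hωα : ω ≤ α) (hj : J α.toZFSet = κ.toZFSet) : IsCard α := by
  refine ⟨hωα, ?_⟩
  by_contra hcon
  have hX := transV Ω
  have hlt : α.card.ord < α := lt_of_le_of_ne (Cardinal.ord_card_le α) hcon
  set α' := α.card.ord with hα'
  have hθ : α + ω < Ω := hΩ.add_om hαΩ
  have hθlim : IsSuccLimit (α + ω) := isSuccLimit_add _ isSuccLimit_omega0
  have hαθ : α ≤ α + ω := (lt_add_of_pos_right _ omega0_pos).le
  obtain ⟨f, hf, hf1, hf2⟩ := exists_func hθlim hαθ (hlt.le.trans hαθ)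
    (show α.card ≤ α'.card by rw [hα', Cardinal.card_ord])
  have hfX : f ∈ V_ Ω := vonNeumann_subset_of_le (add_one_le_iff.2 hθ) hf
  have hαX : α.toZFSet ∈ V_ Ω := mem_V_of_lt hαΩ
  have hα'X : α'.toZFSet ∈ V_ Ω := mem_V_of_lt (hlt.trans hαΩ)
  have h1 := (h.el.isFunc hX h.tr hfX hαX hα'X).1 hf1
  rw [hj, jo_eq h.el hX h.tr hα'X] at h1
  have h2 := (h.el.tr (FO.injF 0) (const_in hfX)).1 (by
    intro x y z hx hy
    rw [val_on hX] at hx hy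
    exact Subtype.ext (hf2 _ _ _ hx hy))
  have h3 := card_le_of_func h1 (by
    intro x y z hx hy
    obtain ⟨hxM, hzM⟩ := pair_parts h.tr (h.tr _ (h.el.maps hfX) _ hx)
    obtain ⟨hyM, _⟩ := pair_parts h.tr (h.tr _ (h.el.maps hfX) _ hy)
    exact congrArg Subtype.val (h2 ⟨x, hxM⟩ ⟨y, hyM⟩ ⟨z, hzM⟩ ((val_on h.tr _ _ _).2 hx)
      ((val_on h.tr _ _ _).2 hy)))
  have h4 : jo J α' < κ :=
    (jord_lt h.el hX h.tr hα'X hαX (jo_eq h.el hX h.tr hα'X) hj).1 hlt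
  rw [← hκ.2, Cardinal.lt_ord] at h4
  exact absurd h3 (not_le.2 h4)

theorem psiLarge_of_ext {Ω : Ordinal.{0}} (hΩ : Repl Ω) {A : ZFSet.{0}} (hA : A ∈ V_ Ω)
    (hAtr : IsTransClass A) (hom : omg ∈ A)
    (h : ∀ γ < Ω, ∃ κ, γ < κ ∧ κ < Ω ∧ IsCard κ ∧ Nonempty (Ext A (V_ κ))) :
    ∃ α < Ω, IsCard α ∧ PsiLargeIn Ω PsiGss α ∧ α ≤ rank A := by
  have hX := transV Ω
  obtain ⟨α, hαr, hα⟩ := exists_ord A hAtr
  have hrA : rank A < Ω := by rwa [mem_vonNeumann] at hA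
  have hαΩ : α < Ω := hαr.trans_lt hrA
  have hωα : ω < α := (hα _).1 hom
  have hAα : A = V_ α := by
    obtain ⟨κ, _, hκ, _, ⟨e⟩⟩ := h 0 hΩ.lim.bot_lt
    obtain ⟨N, J, hJ⟩ := emb_of_ext hΩ hA hAtr hom hκ e
    exact hJ.A_eq hΩ.lim hA hαΩ hα
  refine ⟨α, hαΩ, ?_, ?_, hαr⟩
  · obtain ⟨κ, _, hκ, hc, ⟨e⟩⟩ := h 0 hΩ.lim.bot_lt
    obtain ⟨N, J, hJ⟩ := emb_of_ext hΩ hA hAtr hom hκ e
    exact hJ.card hΩ hc hαΩ hωα.le (hJ.jα hA hαΩ hα)
  · intro η θ hη hθ hαη hηθ hθΩ γ hγ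
    -- the cardinal `l`
    have hm : max γ η < Ω := max_lt hγ (hηθ.trans hθΩ)
    have hωm : ω ≤ max γ η := (hωα.trans hαη).le.trans (le_max_right _ _)
    have hlΩ := hΩ.succ_card_lt hm (omega0_pos.trans_le hωm)
    have hml : max γ η < (succ (max γ η).card).ord := by
      rw [Cardinal.lt_ord]; exact lt_succ _
    have hlc : IsCard (succ (max γ η).card).ord := by
      refine ⟨hωm.trans hml.le, ?_⟩
      rw [Cardinal.card_ord]
    set l := (succ (max γ η).card).ord with hl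
    obtain ⟨κ, hlκ, hκ, hκc, ⟨e⟩⟩ := h l hlΩ
    obtain ⟨N, J, hJ⟩ := emb_of_ext hΩ hA hAtr hom hκ e
    have hN := hJ.tr
    have hjα := hJ.jα hA hαΩ hα
    have hθ1 : θ + 1 < Ω := hΩ.lim.succ_lt hθΩ
    have hηX : η.toZFSet ∈ V_ Ω := mem_V_of_lt (hηθ.trans hθΩ)
    have hθX : θ.toZFSet ∈ V_ Ω := mem_V_of_lt hθΩ
    have hαX : α.toZFSet ∈ V_ Ω := mem_V_of_lt hαΩ
    have hjη := jo_eq hJ.el hX hN hηX
    have hjθ := jo_eq hJ.el hX hN hθX
    have hV1 : V_ (θ + 1) ∈ V_ Ω := vonNeumann_mem_of_lt hθ1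
    have hV0 : V_ θ ∈ V_ Ω := vonNeumann_mem_of_lt hθΩ
    have hκη : κ < jo J η := (jord_lt hJ.el hX hN hαX hηX hjα hjη).1 hαη
    have hηθ' : jo J η < jo J θ := (jord_lt hJ.el hX hN hηX hθX hjη hjθ).1 hηθ
    have hlimη : IsSuccLimit (jo J η) :=
      el_limit hJ.el hX hN hηX hη hjη (le_jo hJ.el hX hN hηX)
    have hlimθ : IsSuccLimit (jo J θ) :=
      el_limit hJ.el hX hN hθX hθ hjθ (le_jo hJ.el hX hN hθX)
    have hMtr : (J (V_ (θ + 1))).IsTransitive := by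
      intro x hx y hy
      rw [el_V_mem hΩ.lim hN hJ.el hθ1] at hx ⊢
      exact ⟨hN _ hx.1 _ hy, (rank_lt_of_mem hy).trans hx.2⟩
    have hjθ1 : jo J (θ + 1) = jo J θ + 1 := by
      have hsX : (succ θ).toZFSet ∈ V_ Ω := mem_V_of_lt hθ1
      rw [toZFSet_succ'] at hsX
      unfold jo
      rw [← succ_eq_add_one, toZFSet_succ', hJ.el.insert hX hN hsX, hjθ, ← toZFSet_succ',
        rank_toZFSet, rank_toZFSet, succ_eq_add_one]
    have hinter : J (V_ (θ + 1)) ∩ V_ (jo J θ) = J (V_ θ) := by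
      ext x
      rw [mem_inter, el_V_mem hΩ.lim hN hJ.el hθ1, el_V_mem hΩ.lim hN hJ.el hθΩ, mem_vonNeumann]
      constructor
      · rintro ⟨⟨h1, _⟩, h2⟩
        exact ⟨h1, h2⟩
      · rintro ⟨h1, h2⟩
        refine ⟨⟨h1, ?_⟩, h2⟩
        rw [hjθ1]
        exact h2.trans (lt_add_one _)
    have hordM : ∀ ξ : Ordinal.{0}, ξ < jo J θ → ξ.toZFSet ∈ J (V_ θ) := by
      intro ξ hξ
      rw [el_V_mem hΩ.lim hN hJ.el hθΩ, rank_toZFSet]
      refine ⟨?_, hξ⟩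
      refine hN _ (hJ.el.maps hθX) _ ?_
      rw [hjθ]; exact toZFSet_mem hξ
    have hlη : l < jo J η := hlκ.trans hκη
    refine ⟨l, (le_max_left _ _).trans hml.le, (le_max_right _ _).trans hml.le, hlΩ, hlc,
      J (V_ (θ + 1)), hJ.sub (hJ.el.maps hV1), hMtr, J, hJ.el.restrict hX hN hV1,
      κ, jo J η, jo J θ, hjα, hjη, hjθ, hlκ, ?_, ?_⟩
    · rw [hinter]
      refine ⟨?_, ?_, isTransitive_vonNeumann _, ?_, closedBasic_V hlimθ,
        ⟨jo J θ, hlimθ, ?_, ?_⟩, hlκ, hκη, hlc.lim, hκc.lim, hlimη,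
        hordM _ (hlη.trans hηθ'), hordM _ (hκη.trans hηθ'), hordM _ hηθ', ?_⟩
      · intro x hx
        rw [← hinter] at hx
        exact (mem_inter.1 hx).2
      · intro x hx y hy
        rw [el_V_mem hΩ.lim hN hJ.el hθΩ] at hx ⊢
        exact ⟨hN _ hx.1 _ hy, (rank_lt_of_mem hy).trans hx.2⟩
      · have h1 := (hJ.el.abs hX hN (Abs.clF 0) (const_in hV0)).1 (clF_EV.2 (closedBasic_V hθ))
        exact clF_EV.1 h1
      · intro ξ
        constructor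
        · intro hξ
          rw [el_V_mem hΩ.lim hN hJ.el hθΩ, rank_toZFSet] at hξ
          exact hξ.2
        · exact hordM ξ
      · intro ξ
        constructor
        · exact lt_of_mem_V
        · exact mem_V_of_lt
      · intro β hβ f _ hf hsurj
        -- a surjection of `β < l` onto `l`
        have h1 : l.card ≤ β.card := by
          have h2 : ∀ y : Set.Iio l, ∃ x : Set.Iio β, pair x.1.toZFSet y.1.toZFSet ∈ f := by
            intro y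
            obtain ⟨x, hx, hxy⟩ := hsurj y.1.toZFSet (toZFSet_mem y.2)
            obtain ⟨ξ, hξ, rfl⟩ := mem_toZFSet_iff.1 hx
            exact ⟨⟨ξ, hξ⟩, hxy⟩
          choose g hg using h2
          have hgi : Function.Injective g := by
            intro a b hab
            have h3 := hg a
            rw [hab] at h3
            have h4 := (hf.2 _ (toZFSet_mem (g b).2)).unique h3 (hg b)
            exact Subtype.ext (toZFSet_injective h4)
          have h5 := Cardinal.mk_le_of_injective hgi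
          rw [Cardinal.mk_Iio_ordinal, Cardinal.mk_Iio_ordinal, Cardinal.lift_le] at h5
          exact h5
        rw [← hlc.2, Cardinal.lt_ord] at hβ
        exact absurd h1 (not_le.2 hβ)
    · intro x hx
      rw [hinter]
      obtain ⟨_, hx2⟩ := mem_inter.1 hx
      have h1 : J A ⊆ J (V_ θ) := by
        refine (hJ.el.sub hX hN hA hV0).1 ?_
        rw [hAα]
        exact vonNeumann_subset_of_le (hαη.trans hηθ).le
      apply h1
      rw [hJ.JA]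
      exact hx2

end Pool.Agent.MP_6fa13c_lc
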