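import Pool.Agent.Lib_MP_6fa13c_lc.Embed

/-!
# The equivalence fails in `V_κ`, `κ` the least `1`-extendible cardinal
-/

namespace Pool.Agent.MP_6fa13c_lc

open ZFSet Ordinal Forcing Order Inner

lemma Repl.ksProp {κ : Ordinal.{0}} (h : Repl κ) : KSm κ Prop := by
  obtain ⟨a, ha, g, hg⟩ := h.ksNat
  refine ⟨a, ha, fun x => g x = 0, fun p => ?_⟩
  by_cases hp : p
  · obtain ⟨x, hx, h0⟩ := hg 0
    exact ⟨x, hx, by simp [h0, hp]⟩
  · obtain ⟨x, hx, h0⟩ := hg 1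
    exact ⟨x, hx, by simp [h0, hp]⟩

lemma Repl.ksIio {κ : Ordinal.{0}} {α : Ordinal.{0}} (hα : α < κ) (h0 : 0 < α) :
    KSm κ (Set.Iio α) := by
  classical
  refine ⟨α.toZFSet, mem_V_of_lt hα,
    fun x => if hx : rank x < α then ⟨rank x, hx⟩ else ⟨0, h0⟩, ?_⟩
  rintro ⟨ξ, hξ⟩
  refine ⟨ξ.toZFSet, toZFSet_mem hξ, ?_⟩
  have hr : rank ξ.toZFSet < α := by rw [rank_toZFSet]; exact hξ
  beta_reduce
  rw [dif_pos hr]
  exact Subtype.ext (rank_toZFSet ξ)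

/-- `κ` is a strong limit -/
lemma Repl.two_pow_lt {κ : Ordinal.{0}} (h : Repl κ) {α : Ordinal.{0}} (hα : α < κ)
    (h0 : 0 < α) : ((2 : Cardinal.{0}) ^ α.card).ord < κ := by
  classical
  by_contra h1
  push Not at h1
  have h2 : Cardinal.mk (Set.Iio κ) ≤ Cardinal.mk (Set (Set.Iio α)) := by
    rw [Cardinal.mk_set, Cardinal.mk_Iio_ordinal, Cardinal.mk_Iio_ordinal]
    have h3 : Cardinal.lift.{1} κ.card ≤ Cardinal.lift.{1} ((2 : Cardinal.{0}) ^ α.card) := by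
      rw [Cardinal.lift_le]
      have := Ordinal.card_le_card h1
      rwa [Cardinal.card_ord] at this
    simpa using h3
  obtain ⟨f⟩ := h2
  have ks : KSm κ (Set.Iio α → Prop) := h.ksFun (Repl.ksIio hα h0) h.ksProp
  obtain ⟨γ, hγ, hb⟩ := h.bdK ks (F := fun s : Set.Iio α → Prop =>
    if hs : ∃ ξ, f ξ = s then hs.choose.1.toZFSet else ∅) (by
      intro s
      split_ifs with hs
      · exact mem_V_of_lt hs.choose.2
      · rw [mem_vonNeumann, rank_empty]; exact h.lim.bot_lt)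
  have h3 := hb (f ⟨γ, hγ⟩)
  have hs : ∃ ξ, f ξ = f ⟨γ, hγ⟩ := ⟨_, rfl⟩
  beta_reduce at h3
  rw [dif_pos hs] at h3
  have h4 : hs.choose = ⟨γ, hγ⟩ := f.injective hs.choose_spec
  rw [h4] at h3
  exact lt_irrefl _ (lt_of_mem_V h3)

/-- `κ` is a limit cardinal -/
lemma Repl.succ_card_lt {κ : Ordinal.{0}} (h : Repl κ) {α : Ordinal.{0}} (hα : α < κ)
    (h0 : 0 < α) : (succ α.card).ord < κ :=
  (Cardinal.ord_le_ord.2 (succ_le_of_lt (Cardinal.cantor _))).trans_lt (h.two_pow_lt hα h0)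

theorem main1 (h : ∃ κ, OneExtendible κ) : ∃ κ, ModelsZFC (memOn (V_ κ)) ∧
    ¬ ∀ δ < κ, IsCard δ →
      (PsiLargeIn κ PsiGss δ ↔ ∃ μ ≤ δ, GloballySuperstrongIn κ μ) := by
  let κ := WellFounded.min lt_wf {κ : Ordinal.{0} | OneExtendible κ} h
  have hκ : OneExtendible κ := WellFounded.min_mem lt_wf {κ : Ordinal.{0} | OneExtendible κ} h
  have hmin : ∀ ν < κ, ¬ OneExtendible ν := fun ν hν h1 =>
    WellFounded.not_lt_min lt_wf {κ : Ordinal.{0} | OneExtendible κ} h1 hν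
  obtain ⟨lam, j, hj⟩ := exists_OE hκ
  have hR := hj.repl
  obtain ⟨A, hA, hAtr, hom, _, hext⟩ := hj.reflect
  obtain ⟨μ, hωμ, _, hμ⟩ := gss_of_ext hR hA hAtr hom hext
  have hδκ := hR.succ_card_lt hμ.1 (omega0_pos.trans hωμ)
  refine ⟨κ, hR.modelsZFC, fun hcon => ?_⟩
  have hcard : IsCard (succ μ.card).ord := by
    constructor
    · rw [← Cardinal.ord_aleph0, Cardinal.ord_le_ord]
      exact (Ordinal.aleph0_le_card.2 hωμ.le).trans (le_succ _)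
    · rw [Cardinal.card_ord]
  have hle : μ ≤ (succ μ.card).ord := by
    apply le_of_lt
    rw [Cardinal.lt_ord]
    exact lt_succ _
  obtain ⟨ν, hν, h1⟩ := oneExtendible_of_psiLarge hR hδκ
    ((hcon _ hδκ hcard).2 ⟨μ, hle, hμ⟩)
  exact hmin ν (hν.trans hδκ) h1

end Pool.Agent.MP_6fa13c_lc
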