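import Pool.Agent.Lib_MP_6fa13c_lc.Main1

/-!
# The class of targets of a set `A`, and its absoluteness
-/

namespace Pool.Agent.MP_6fa13c_lc

open ZFSet Ordinal Forcing Order Inner

/-- `β` is a target of `(A, PA)` -/
def Tgt (A PA : ZFSet.{0}) (β : Ordinal.{0}) : Prop :=
  OmClosed (V_ β) ∧ ∃ K, K ⊆ V_ β ∧ GoodD EV A PA (V_ β) K omg

/-- the targets of `(A, PA)` are unbounded in `σ` -/
def Unb (A PA : ZFSet.{0}) (σ : Ordinal.{0}) : Prop :=
  ∀ γ < σ, ∃ β < σ, γ < β ∧ Tgt A PA β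

/-- the targets of `(A, PA)` below `σ` are all `≤ ζ` -/
def Bdd (A PA : ZFSet.{0}) (ζ σ : Ordinal.{0}) : Prop :=
  ∀ β < σ, Tgt A PA β → β ≤ ζ

section
variable {M : Type 1} (E : M → M → Prop)

/-- first-order version of `Tgt` -/
def TgtF (A PA w b : M) : Prop :=
  ∃ B, (∀ x, (E x B ↔ RankLt E x b)) ∧ OmCl E B w ∧
    ∃ K, (∀ x, E x K → E x B) ∧ GoodD E A PA B K w

/-- first-order version of `Unb` -/
def UnbF (A PA w s : M) : Prop :=
  ∀ g, E g s → ∃ b, E b s ∧ (E g b ∧ TgtF E A PA w b)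

/-- first-order version of `Bdd` -/
def BddF (A PA w z s : M) : Prop :=
  ∀ b, E b s → (TgtF E A PA w b → (E b z ∨ b = z))

end

lemma FO.tgtF (a p w b : ℕ) : FO (fun (M : Type 1) (E : M → M → Prop) v =>
    TgtF E (v a) (v p) (v w) (v b)) :=
  FO.ex (FO.and (FO.all (FO.iff (FO.mem _ _) (FO.rankLt _ _))) (FO.and (FO.omCl _ _)
    (FO.ex (FO.and (FO.all (FO.imp (FO.mem _ _) (FO.mem _ _))) (Abs.goodD _ _ _ _ _).fo))))

lemma FO.unbF (a p w s : ℕ) : FO (fun (M : Type 1) (E : M → M → Prop) v =>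
    UnbF E (v a) (v p) (v w) (v s)) :=
  FO.all (FO.imp (FO.mem _ _) (FO.ex (FO.and (FO.mem _ _) (FO.and (FO.mem _ _)
    (FO.tgtF _ _ _ _)))))

lemma FO.bddF (a p w z s : ℕ) : FO (fun (M : Type 1) (E : M → M → Prop) v =>
    BddF E (v a) (v p) (v w) (v z) (v s)) :=
  FO.all (FO.imp (FO.mem _ _) (FO.imp (FO.tgtF _ _ _ _) (FO.or (FO.mem _ _) (FO.eq _ _))))

section
variable {X : Set ZFSet.{0}} (hX : IsTransClass X) {ρ : Ordinal.{0}} (hρ : IsSuccLimit ρ)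
  (hV : ∀ x ∈ V_ ρ, x ∈ X)
include hX hρ hV

omit hX in
lemma cd_mem_V {β : Ordinal.{0}} (hβ : β < ρ) (hω : ω < ρ) (v : ℕ → (V_ β : Set ZFSet.{0})) :
    cd v ∈ X := by
  apply hV
  have h2 : cd v ⊆ V_ (succ (succ (max ω β))) := by
    intro p hp
    obtain ⟨n, rfl⟩ := mem_code.1 hp
    have h3 : (v n).1 ∈ V_ β := (v n).2
    rw [mem_vonNeumann] at h3 ⊢
    rw [rank_opair]
    apply succ_lt_succ
    apply succ_lt_succ
    apply max_lt
    · unfold nn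
      rw [rank_toZFSet]
      exact (natCast_lt_omega0 n).trans_le (le_max_left _ _)
    · exact h3.trans_le (le_max_right _ _)
  rw [subset_vonNeumann] at h2
  rw [mem_vonNeumann]
  exact h2.trans_lt (add_two_lt hρ (max_lt hω hβ))

lemma isV_iff {B b : X} {β : Ordinal.{0}} (hb : b.1 = β.toZFSet) (hβ : β < ρ) :
    (∀ x, (memOn X x B ↔ RankLt (memOn X) x b)) ↔ B.1 = V_ β := by
  have key : ∀ x : X, RankLt (memOn X) x b ↔ rank x.1 < β := by
    intro x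
    constructor
    · intro h
      have := rankLt_sound hX h
      rwa [hb, rank_toZFSet] at this
    · intro h
      refine rankLt_complete hX hρ hV ?_ hb h
      rw [mem_vonNeumann]; exact h.trans hβ
  constructor
  · intro h
    ext x
    rw [mem_vonNeumann]
    constructor
    · intro hx
      have hxX := hX _ B.2 _ hx
      exact (key ⟨x, hxX⟩).1 ((h ⟨x, hxX⟩).1 hx)
    · intro hx
      have hxX : x ∈ X := hV _ (by rw [mem_vonNeumann]; exact hx.trans hβ)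
      exact (h ⟨x, hxX⟩).2 ((key ⟨x, hxX⟩).2 hx)
  · intro h x
    rw [key]
    change x.1 ∈ B.1 ↔ _
    rw [h, mem_vonNeumann]

lemma tgtF_iff (hω : ω < ρ) {a p w b : X} (hw : w.1 = omg) {β : Ordinal.{0}}
    (hb : b.1 = β.toZFSet) (hβ : β < ρ) : TgtF (memOn X) a p w b ↔ Tgt a.1 p.1 β := by
  constructor
  · rintro ⟨B, h1, h2, K, h3, h4⟩
    rw [isV_iff hX hρ hV hb hβ] at h1
    rw [goodD_on hX] at h4
    rw [h1, hw] at h4
    refine ⟨?_, K.1, ?_, h4⟩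
    · rw [← h1]
      refine sem_omCl hX hw (fun v => ?_) h2
      have : ∀ B' : ZFSet.{0}, B' = V_ β → ∀ v : ℕ → (B' : Set ZFSet.{0}), cd v ∈ X := by
        rintro B' rfl v
        exact cd_mem_V hρ hV hβ hω v
      exact this _ h1 v
    · intro x hx
      rw [← h1]
      exact h3 ⟨x, hX _ K.2 _ hx⟩ hx
  · rintro ⟨h1, K, h2, h3⟩
    have hBX : V_ β ∈ X := hV _ (vonNeumann_mem_of_lt hβ)
    have hKX : K ∈ X := by
      apply hV
      rw [mem_vonNeumann]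
      rw [subset_vonNeumann] at h2
      exact h2.trans_lt hβ
    refine ⟨⟨V_ β, hBX⟩, (isV_iff hX hρ hV hb hβ).2 rfl, omCl_sem hX hw h1, ⟨K, hKX⟩,
      fun x hx => h2 hx, ?_⟩
    rw [goodD_on hX, hw]
    exact h3

lemma unbF_iff (hω : ω < ρ) {a p w s : X} (hw : w.1 = omg) {σ : Ordinal.{0}}
    (hs : s.1 = σ.toZFSet) (hσ : σ ≤ ρ) : UnbF (memOn X) a p w s ↔ Unb a.1 p.1 σ := by
  constructor
  · intro h γ hγ
    have hγX : γ.toZFSet ∈ X := hX _ s.2 _ (by rw [hs]; exact toZFSet_mem hγ)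
    obtain ⟨b, hb, hγb, ht⟩ := h ⟨γ.toZFSet, hγX⟩ (by
      change γ.toZFSet ∈ s.1
      rw [hs]; exact toZFSet_mem hγ)
    have hb' : b.1 ∈ σ.toZFSet := by rw [← hs]; exact hb
    obtain ⟨β, hβ, hβb⟩ := mem_toZFSet_iff.1 hb'
    refine ⟨β, hβ, ?_, (tgtF_iff hX hρ hV hω hw hβb.symm (hβ.trans_le hσ)).1 ht⟩
    have : γ.toZFSet ∈ b.1 := hγb
    rwa [← hβb, toZFSet_mem_toZFSet_iff] at this
  · intro h g hg
    have hg' : g.1 ∈ σ.toZFSet := by rw [← hs]; exact hg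
    obtain ⟨γ, hγ, hγg⟩ := mem_toZFSet_iff.1 hg'
    obtain ⟨β, hβ, hγβ, ht⟩ := h γ hγ
    have hβX : β.toZFSet ∈ X := hX _ s.2 _ (by rw [hs]; exact toZFSet_mem hβ)
    refine ⟨⟨β.toZFSet, hβX⟩, ?_, ?_,
      (tgtF_iff hX hρ hV hω hw rfl (hβ.trans_le hσ)).2 ht⟩
    · change β.toZFSet ∈ s.1
      rw [hs]; exact toZFSet_mem hβ
    · change g.1 ∈ β.toZFSet
      rw [← hγg]; exact toZFSet_mem hγβ

lemma bddF_iff (hω : ω < ρ) {a p w z s : X} (hw : w.1 = omg) {σ ζ : Ordinal.{0}}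
    (hs : s.1 = σ.toZFSet) (hz : z.1 = ζ.toZFSet) (hσ : σ ≤ ρ) :
    BddF (memOn X) a p w z s ↔ Bdd a.1 p.1 ζ σ := by
  constructor
  · intro h β hβ ht
    have hβX : β.toZFSet ∈ X := hX _ s.2 _ (by rw [hs]; exact toZFSet_mem hβ)
    have h1 := h ⟨β.toZFSet, hβX⟩ (by
      change β.toZFSet ∈ s.1
      rw [hs]; exact toZFSet_mem hβ) ((tgtF_iff hX hρ hV hω hw rfl (hβ.trans_le hσ)).2 ht)
    rcases h1 with h1 | h1
    · have : β.toZFSet ∈ z.1 := h1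
      rw [hz, toZFSet_mem_toZFSet_iff] at this
      exact this.le
    · have : β.toZFSet = z.1 := congrArg Subtype.val h1
      rw [hz] at this
      exact (toZFSet_injective this).le
  · intro h b hb ht
    have hb' : b.1 ∈ σ.toZFSet := by rw [← hs]; exact hb
    obtain ⟨β, hβ, hβb⟩ := mem_toZFSet_iff.1 hb'
    have h1 := h β hβ ((tgtF_iff hX hρ hV hω hw hβb.symm (hβ.trans_le hσ)).1 ht)
    rcases h1.lt_or_eq with h2 | h2
    · left
      change b.1 ∈ z.1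
      rw [← hβb, hz]; exact toZFSet_mem h2
    · right
      apply Subtype.ext
      rw [← hβb, hz, h2]

end

/-- the targets below a `1`-extendible cardinal -/
lemma OE.exists_unb {κ lam : Ordinal.{0}} {j : ZFSet.{0} → ZFSet.{0}} (h : OE κ lam j) :
    ∃ A ∈ V_ κ, ∃ PA ∈ V_ κ, IsTransClass A ∧ omg ∈ A ∧ OmClosed A ∧ Unb A PA κ := by
  obtain ⟨A, hA, PA, hPA, K₀, hK₀, hcl, hg⟩ := h.reflect1
  refine ⟨A, hA, PA, hPA, fun x hx y hy => hg.1 x hx y hy, hg.2.2.1, hcl, fun γ hγ => ?_⟩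
  obtain ⟨β, h1, h2, h3, K, h4, h5⟩ := h.reflect2 hA hPA hK₀ hg hγ
  exact ⟨β, h2, h1, h3, K, h4, h5⟩

lemma unb_gss {κ : Ordinal.{0}} (hκ : Repl κ) {A PA : ZFSet.{0}} (hA : A ∈ V_ κ)
    (hAtr : IsTransClass A) (hom : omg ∈ A) (hcl : OmClosed A) (h : Unb A PA κ) :
    ∃ α, ω < α ∧ α ≤ rank A ∧ GloballySuperstrongIn κ α := by
  refine gss_of_ext hκ hA hAtr hom (fun γ hγ => ?_)
  obtain ⟨β, hβ, hγβ, h1, K, h2, h3⟩ := h γ hγ
  exact ⟨β, hγβ, hβ, h3.2.2.2.1, h1, exists_ext hcl h1 h3⟩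

end Pool.Agent.MP_6fa13c_lc
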