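import Pool.Agent.Lib_MP_6fa13c_lc.Kunen
import Pool.Agent.Lib_MP_6fa13c_lc.Target

/-!
# The successor of the least globally superstrong cardinal is not `Ψ_gss`-large
-/

namespace Pool.Agent.MP_6fa13c_lc

open ZFSet Ordinal Forcing Order Inner

/-- the critical sequence is not bounded by an ordinal with enough room -/
theorem crit_seq_contra {θ ρ : Ordinal.{0}} (hθ : IsSuccLimit θ) {M : Set ZFSet.{0}}
    (hM : IsTransClass M) {j : ZFSet.{0} → ZFSet.{0}} (h : Elementary (V_ (θ + 1)) M j)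
    (hρ : IsSuccLimit ρ) (hV : ∀ x ∈ V_ ρ, x ∈ M) {ν : Ordinal.{0}} (hν : CritPt j ν)
    (hων : ω < ν) (hsl : SL ν) {γ : Ordinal.{0}} (hγθ : γ < θ) (hγρ : γ < ρ)
    (hb : ∀ i, (jo j)^[i] ν ≤ γ) : False := by
  have hX := transV (θ + 1)
  have hsub : ∀ x ∈ V_ θ, x ∈ V_ (θ + 1) :=
    fun _ hx => vonNeumann_subset_of_le (le_of_lt (lt_add_one θ)) hx
  let n : ℕ → Ordinal.{0} := fun i => (jo j)^[i] ν
  have hn1 : ∀ i, n (i+1) = jo j (n i) := fun i => Function.iterate_succ_apply' _ _ _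
  have hnθ : ∀ i, n i < θ := fun i => (hb i).trans_lt hγθ
  have hnρ : ∀ i, n i < ρ := fun i => (hb i).trans_lt hγρ
  have hnX : ∀ i, (n i).toZFSet ∈ V_ (θ + 1) := fun i => hsub _ (mem_V_of_lt (hnθ i))
  have hinc : ∀ i, n i < n (i+1) := by
    intro i
    induction i with
    | zero => exact jo_crit h hX hM (hnX 0) hν
    | succ i ih =>
      rw [hn1 i, hn1 (i+1)]
      exact jo_lt h hX hM (hnX (i+1)) ih
  let σ : Ordinal.{0} := ⨆ i, n i
  have hnσ : ∀ i, n i < σ := fun i => (hinc i).trans_le (Ordinal.le_iSup n (i+1))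
  have hσγ : σ ≤ γ := Ordinal.iSup_le hb
  have hσ : ∀ α < σ, ∃ i, α < n i := fun α hα => Ordinal.lt_iSup_iff.1 hα
  have hSL : ∀ i, SL (n i) := by
    intro i
    induction i with
    | zero => exact hsl
    | succ i ih =>
      have h1 := slF_of hX hθ hsub (s := ⟨(n i).toZFSet, hnX i⟩) rfl (hnθ i) ih
      have h2 := (h.tr (FO.slF 0) (const_in (hnX i))).1 h1
      refine of_slF hM hV (s := ⟨j (n i).toZFSet, h.maps (hnX i)⟩) ?_ (hnρ (i+1)) h2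
      rw [hn1 i]
      exact jo_eq h hX hM (hnX i)
  have hcard := card_of_seq n hnσ hσ hων.le (fun i => hSL (i+1) (n i) (hinc i))
  have hJ := exists_jonsson hcard.1 hcard.2
  have hσθ : σ < θ := hσγ.trans_lt hγθ
  have hωσ : ω < σ := hων.trans (hnσ 0)
  have hσX : σ.toZFSet ∈ V_ (θ + 1) := hsub _ (mem_V_of_lt hσθ)
  have hωX : omg ∈ V_ (θ + 1) := hsub _ (mem_V_of_lt (hωσ.trans hσθ))
  have hjω : j omg = omg := hν.1 _ hων
  have hjn : ∀ n, j (nn n) = nn n := fun n => hν.1 _ ((natCast_lt_omega0 n).trans hων)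
  have hnnX : ∀ n, nn n ∈ V_ (θ + 1) := fun n => hX _ hωX _ (nn_mem n)
  -- `j σ = σ`
  have hjσ : j σ.toZFSet = σ.toZFSet := by
    let s : ZFSet.{0} := code (fun i => (n i).toZFSet)
    have hs : s ∈ V_ (θ + 1) :=
      hsub _ (code_ord_mem hθ hσθ (hωσ.trans hσθ) (fun i => ⟨n i, hnσ i⟩))
    have hR : Abs (fun _ E v => ∀ a, E a (v 0) → ∃ n, E n (v 1) ∧ ∃ b, E b (v 0) ∧
        (Val E (v 2) n b ∧ E a b)) :=
      Abs.ball 0 (Abs.bex 2 (Abs.bex 2 (Abs.and (Abs.val _ _ _) (Abs.mem _ _))))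
    have h1 := (h.abs hX hM hR (cons_in hσX (cons_in hωX (const_in hs)))).1 (by
      intro a ha
      obtain ⟨α, hα, rfl⟩ := mem_toZFSet_iff.1 ha
      obtain ⟨i, hi⟩ := hσ α hα
      refine ⟨nn i, nn_mem i, (n i).toZFSet, toZFSet_mem (hnσ i), ?_, toZFSet_mem hi⟩
      rw [val_EV]
      exact pair_mem_code.2 rfl)
    have hsfun : IsFunc omg σ.toZFSet s := code_isFunc (fun i => toZFSet_mem (hnσ i))
    have hjs : IsFunc omg (j σ.toZFSet) (j s) := by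
      have h2 := (h.isFunc hX hM hs hωX hσX).1 hsfun
      rwa [hjω] at h2
    have hjs2 : ∀ i, pair (nn i) (n (i+1)).toZFSet ∈ j s := by
      intro i
      have h3 : pair (nn i) (n i).toZFSet ∈ s := pair_mem_code.2 rfl
      have h4 := (h.val hX hM hs (hnnX i) (hnX i)).1 h3
      rw [hjn, jo_eq h hX hM (hnX i), ← hn1] at h4
      exact h4
    rw [jo_eq h hX hM hσX]
    congr 1
    apply le_antisymm
    · by_contra hcon
      push Not at hcon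
      obtain ⟨m, hm, b, _, hb1, hb2⟩ := h1 σ.toZFSet (by
        change σ.toZFSet ∈ j σ.toZFSet
        rw [jo_eq h hX hM hσX]; exact toZFSet_mem hcon)
      change m ∈ j omg at hm
      rw [hjω] at hm
      obtain ⟨i, rfl⟩ := mem_om.1 hm
      rw [val_EV] at hb1
      change pair (nn i) b ∈ j s at hb1
      have h5 := (hjs.2 (nn i) (nn_mem i)).unique hb1 (hjs2 i)
      rw [h5] at hb2
      have h6 : σ < n (i+1) := toZFSet_mem_toZFSet_iff.1 hb2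
      exact absurd h6 (not_lt.2 (hnσ _).le)
    · exact le_jo h hX hM hσX
  exact kunen hθ hM h hσθ hρ (hσγ.trans_lt hγρ) hV hjσ hν (hnσ 0) hων hJ

/-- the data given by a `Ψ_gss`-large successor cardinal -/
theorem psiLarge_data {κ : Ordinal.{0}} (hκ : Repl κ) {μ : Ordinal.{0}}
    (hδκ : (succ μ.card).ord < κ) (h : PsiLargeIn κ PsiGss (succ μ.card).ord) :
    ∃ (θ : Ordinal.{0}) (M : Set ZFSet.{0}) (j : ZFSet.{0} → ZFSet.{0}) (δ' ν : Ordinal.{0}),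
      IsSuccLimit θ ∧ (succ μ.card).ord < θ ∧ IsTransClass M ∧ Elementary (V_ (θ + 1)) M j ∧
      j (succ μ.card).ord.toZFSet = δ'.toZFSet ∧ (succ μ.card).ord < δ' ∧ δ' < κ ∧
      IsSuccLimit δ' ∧ (∀ x ∈ V_ δ', x ∈ M) ∧ CritPt j ν ∧ ν < (succ μ.card).ord := by
  set δ := (succ μ.card).ord with hδ
  have hη : δ + ω < κ := hκ.add_om hδκ
  have hθ : δ + ω + ω < κ := hκ.add_om hη
  have hωpos : (0 : Ordinal.{0}) < ω := omega0_pos
  set η := δ + ω with hηd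
  set θ := η + ω with hθd
  have hδη : δ < η := lt_add_of_pos_right _ hωpos
  have hηθ : η < θ := lt_add_of_pos_right _ hωpos
  have limθ : IsSuccLimit θ := isSuccLimit_add _ isSuccLimit_omega0
  obtain ⟨l, _, hηl, _, _, M, hMκ, hM, j, hj, δ', η', θ', hδ', hη', hθ', hlδ', hsuit, hsub⟩ :=
    h η θ (isSuccLimit_add _ isSuccLimit_omega0) limθ hδη hηθ hθ 0 (hκ.lim.bot_lt)
  have hMc : IsTransClass (M : Set ZFSet.{0}) := fun x hx y hy => hM.mem_trans hy hx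
  have hX := transV (θ + 1)
  have hsubX : ∀ x ∈ V_ θ, x ∈ V_ (θ + 1) :=
    fun _ hx => vonNeumann_subset_of_le (le_of_lt (lt_add_one θ)) hx
  obtain ⟨_, _, _, _, _, _, _, hδη', _, limδ', _, _, hνM0, hηM, _⟩ := hsuit
  have hη'θ' : η' < θ' := lt_of_mem_V (mem_inter.1 hηM).2
  have hVM : ∀ x ∈ V_ δ', x ∈ (M : Set ZFSet.{0}) := by
    intro x hx
    have hx2 : x ∈ V_ θ' := vonNeumann_subset_of_le (hδη'.trans hη'θ').le hx
    exact (mem_inter.1 (hsub (mem_inter.2 ⟨hx2, hx⟩))).1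
  have hδδ' : δ < δ' := (hδη.trans_le hηl).trans hlδ'
  have hδ'κ : δ' < κ := lt_of_mem_V (transV κ _ hMκ _ (mem_inter.1 hνM0).1)
  -- the critical point
  have hex : ∃ ξ : Ordinal.{0}, j ξ.toZFSet ≠ ξ.toZFSet :=
    ⟨δ, by rw [hδ']; intro h1; exact hδδ'.ne (toZFSet_injective h1).symm⟩
  let ν := WellFounded.min (lt_wf) {ξ : Ordinal.{0} | j ξ.toZFSet ≠ ξ.toZFSet} hex
  have hν1 : j ν.toZFSet ≠ ν.toZFSet :=
    WellFounded.min_mem lt_wf {ξ : Ordinal.{0} | j ξ.toZFSet ≠ ξ.toZFSet} hex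
  have hν2 : ∀ ξ < ν, j ξ.toZFSet = ξ.toZFSet := by
    intro ξ hξ
    by_contra hcon
    exact WellFounded.not_lt_min lt_wf {ξ : Ordinal.{0} | j ξ.toZFSet ≠ ξ.toZFSet} hcon hξ
  have hνδ : ν ≤ δ := by
    by_contra hcon
    push Not at hcon
    have := hν2 δ hcon
    rw [hδ'] at this
    exact hδδ'.ne (toZFSet_injective this).symm
  have hδX : δ.toZFSet ∈ V_ (θ + 1) := hsubX _ (mem_V_of_lt (hδη.trans hηθ))
  have hμδ : μ < δ := by
    rw [hδ, Cardinal.lt_ord]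
    exact lt_succ _
  have hμX : μ.toZFSet ∈ V_ (θ + 1) := hX _ hδX _ (toZFSet_mem hμδ)
  rcases hνδ.lt_or_eq with hlt | heq
  · exact ⟨θ, M, j, δ', ν, limθ, hδη.trans hηθ, hMc, hj, hδ', hδδ', hδ'κ, limδ', hVM,
      ⟨hν2, hν1⟩, hlt⟩
  · -- `ν = δ` is impossible
    exfalso
    have hjμ : j μ.toZFSet = μ.toZFSet := hν2 μ (by rw [heq]; exact hμδ)
    have hR : FO (fun (M : Type 1) (E : M → M → Prop) v => ∀ a, E a (v 0) → ∃ f,
        IsFun E f a (v 1) ∧ ∀ x y z, Val E f x z → Val E f y z → x = y) :=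
      FO.all (FO.imp (FO.mem _ _) (FO.ex (FO.and (FO.isFun _ _ _) (FO.all (FO.all (FO.all
        (FO.imp (FO.val _ _ _) (FO.imp (FO.val _ _ _) (FO.eq _ _)))))))))
    have h1 := (hj.tr hR (cons_in hδX (const_in hμX))).1 (by
      intro a ha
      change a.1 ∈ δ.toZFSet at ha
      obtain ⟨α, hα, hαa⟩ := mem_toZFSet_iff.1 ha
      have hc : α.card ≤ μ.card := by
        rw [hδ, Cardinal.lt_ord] at hα
        exact lt_succ_iff.1 hα
      obtain ⟨f, hf, hf1, hf2⟩ := exists_func limθ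
        ((hα.trans (hδη.trans hηθ)).le) ((hμδ.trans (hδη.trans hηθ)).le) hc
      refine ⟨⟨f, hf⟩, ?_, ?_⟩
      · rw [isFun_on hX]
        change IsFunc a.1 μ.toZFSet f
        rw [← hαa]; exact hf1
      · intro x y z hx hy
        rw [val_on hX] at hx hy
        exact Subtype.ext (hf2 _ _ _ hx hy))
    have hδM : δ.toZFSet ∈ (M : Set ZFSet.{0}) := hVM _ (mem_V_of_lt hδδ')
    obtain ⟨f, hf1, hf2⟩ := h1 ⟨δ.toZFSet, hδM⟩ (by
      change δ.toZFSet ∈ j δ.toZFSet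
      rw [hδ']; exact toZFSet_mem hδδ')
    have hf3 : IsFunc δ.toZFSet μ.toZFSet f.1 := by
      rw [isFun_on hMc] at hf1
      change IsFunc δ.toZFSet (j μ.toZFSet) f.1 at hf1
      rwa [hjμ] at hf1
    have hc := card_le_of_func hf3 (by
      intro x y z hx hy
      obtain ⟨hxM, hzM⟩ := pair_parts hMc (hMc _ f.2 _ hx)
      obtain ⟨hyM, _⟩ := pair_parts hMc (hMc _ f.2 _ hy)
      exact congrArg Subtype.val (hf2 ⟨x, hxM⟩ ⟨y, hyM⟩ ⟨z, hzM⟩ ((val_on hMc _ _ _).2 hx)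
        ((val_on hMc _ _ _).2 hy)))
    rw [hδ, Cardinal.card_ord] at hc
    exact absurd hc (not_le.2 (lt_succ _))

/-- images of limit ordinals are limit ordinals -/
lemma el_limit {X Y : Set ZFSet.{0}} {j : ZFSet.{0} → ZFSet.{0}} (h : Elementary X Y j)
    (hX : IsTransClass X) (hY : IsTransClass Y) {σ σ' : Ordinal.{0}} (hσ : σ.toZFSet ∈ X)
    (hlim : IsSuccLimit σ) (hσ' : j σ.toZFSet = σ'.toZFSet) (hle : σ ≤ σ') :
    IsSuccLimit σ' := by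
  have hR : Abs (fun _ E v => ∀ x, E x (v 0) → ∃ y, E y (v 0) ∧ E x y) :=
    Abs.ball 0 (Abs.bex 1 (Abs.mem _ _))
  have h2 := (h.abs hX hY hR (const_in hσ)).1 (by
    intro x hx
    obtain ⟨a, ha, rfl⟩ := mem_toZFSet_iff.1 hx
    refine ⟨(succ a).toZFSet, ?_, ?_⟩
    · exact toZFSet_mem (hlim.succ_lt ha)
    · exact toZFSet_mem (lt_succ a))
  rcases zero_or_succ_or_isSuccLimit σ' with h0 | ⟨ξ, hξ⟩ | h1
  · exfalso
    rw [h0] at hle
    exact absurd hlim.bot_lt (not_lt.2 hle)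
  · exfalso
    obtain ⟨y, hy, hy2⟩ := h2 ξ.toZFSet (by
      change ξ.toZFSet ∈ j σ.toZFSet
      rw [hσ', ← hξ]; exact toZFSet_mem (lt_succ ξ))
    change y ∈ j σ.toZFSet at hy
    rw [hσ', ← hξ] at hy
    obtain ⟨a, ha, rfl⟩ := mem_toZFSet_iff.1 hy
    have h3 : ξ < a := toZFSet_mem_toZFSet_iff.1 hy2
    exact absurd (lt_succ_iff.1 ha) (not_le.2 h3)
  · exact h1

theorem main2 {κ : Ordinal.{0}} (hκ : Repl κ) {μ : Ordinal.{0}}
    (hμ : GloballySuperstrongIn κ μ) (hmin : ∀ μ' < μ, ¬ GloballySuperstrongIn κ μ') :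
    ω < μ ∧ (succ μ.card).ord < κ ∧ ¬ PsiLargeIn κ PsiGss (succ μ.card).ord := by
  have hXκ := transV κ
  have hμκ := hμ.1
  have hμV : μ.toZFSet ∈ V_ κ := mem_V_of_lt hμκ
  -- some embedding with critical point `μ`
  obtain ⟨N₀, k₀, _, hN₀, hk₀, hc₀, _⟩ := hμ.2 (succ μ) (lt_succ μ) (hκ.lim.succ_lt hμκ)
  have hlimμ : IsSuccLimit μ := crit_limit hk₀ hXκ hN₀ hμV hc₀
  have hωμ : ω < μ := crit_om hk₀ hXκ hN₀ hμV hc₀
  have hδκ := hκ.succ_card_lt hμκ (omega0_pos.trans hωμ)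
  refine ⟨hωμ, hδκ, fun hpsi => ?_⟩
  obtain ⟨θ, M, j, δ', ν, limθ, hδθ, hM, hj, hδ', hδδ', hδ'κ, limδ', hVM, hcν, hνδ⟩ :=
    psiLarge_data hκ hδκ hpsi
  set δ := (succ μ.card).ord with hδ
  have hX := transV (θ + 1)
  have hsub : ∀ x ∈ V_ θ, x ∈ V_ (θ + 1) :=
    fun _ hx => vonNeumann_subset_of_le (le_of_lt (lt_add_one θ)) hx
  have hδX : δ.toZFSet ∈ V_ (θ + 1) := hsub _ (mem_V_of_lt hδθ)
  have hνX : ν.toZFSet ∈ V_ (θ + 1) := hX _ hδX _ (toZFSet_mem hνδ)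
  have hμδ : μ < δ := by
    rw [hδ, Cardinal.lt_ord]
    exact lt_succ _
  -- `ν` is `1`-extendible
  have hν' := jo_eq hj hX hM hνX
  have hν'δ' : jo j ν < δ' := (jord_lt hj hX hM hνX hδX hν' hδ').1 hνδ
  have hνθ : ν < θ := hνδ.trans hδθ
  have himg := image_V hj hM limθ hνθ hν' limδ' hν'δ' hVM
  have hVX : V_ (ν + 1) ∈ V_ (θ + 1) := hsub _ (by
      rw [mem_vonNeumann, rank_vonNeumann]; exact limθ.succ_lt hνθ)
  have hres := hj.restrict hX hM hVX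
  rw [himg] at hres
  have hOE : OE ν (jo j ν) j := ⟨hres, hcν.1, hν', jo_crit hj hX hM hνX hcν⟩
  have hRν := hOE.repl
  obtain ⟨A, hA, PA, hPA, hAtr, hom, hcl, hunb⟩ := hOE.exists_unb
  -- `ν ≤ μ`
  have hνμ : ν ≤ μ := by
    by_contra hcon
    push Not at hcon
    have h1 := hRν.succ_card_lt hcon (omega0_pos.trans hωμ)
    exact absurd h1 (not_lt.2 hνδ.le)
  have hνκ : ν < κ := hνμ.trans_lt hμκ
  have hνκsub : ∀ x ∈ V_ ν, x ∈ V_ κ := fun x hx => vonNeumann_subset_of_le hνκ.le hx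
  have hνμsub : ∀ x ∈ V_ ν, x ∈ V_ μ := fun x hx => vonNeumann_subset_of_le hνμ hx
  have hων : ω < ν := hOE.om
  have homν : omg ∈ V_ ν := mem_V_of_lt hων
  -- the targets are bounded in `κ`
  have hbd1 : ¬ Unb A PA κ := by
    intro h1
    obtain ⟨α, _, hα2, hα3⟩ := unb_gss hκ (hνκsub _ hA) hAtr hom hcl h1
    have h2 : rank A < ν := by rwa [mem_vonNeumann] at hA
    exact hmin α ((hα2.trans_lt h2).trans_le hνμ) hα3
  unfold Unb at hbd1
  push Not at hbd1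
  obtain ⟨ζ, hζκ, hζ⟩ := hbd1
  -- use `μ`
  obtain ⟨N, k, hNκ, hN, hk, hck, μ', hμ', hlμ', hVN⟩ := hμ.2 (max (succ μ) ζ)
    ((lt_succ μ).trans_le (le_max_left _ _)) (max_lt (hκ.lim.succ_lt hμκ) hζκ)
  have hμμ' : μ < μ' := ((lt_succ μ).trans_le (le_max_left _ _)).trans hlμ'
  have hζμ' : ζ < μ' := (le_max_right _ _).trans_lt hlμ'
  have hμ'κ : μ' < κ := by
    have h1 : k μ.toZFSet ∈ V_ κ := hNκ (hk.maps hμV)
    rw [hμ'] at h1
    exact lt_of_mem_V h1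
  have hVN' : ∀ x ∈ V_ μ', x ∈ N := fun x hx => hVN hx
  have hlimμ' : IsSuccLimit μ' := el_limit hk hXκ hN hμV hlimμ hμ' hμμ'.le
  have hkfix := crit_fix hk hXκ hN hμV
    (fun x hx => vonNeumann_subset_of_le hμκ.le hx) hck
  have hkA : k A = A := hkfix _ (hνμsub _ hA)
  have hkPA : k PA = PA := hkfix _ (hνμsub _ hPA)
  have hkom : k omg = omg := hkfix _ (hνμsub _ homν)
  have hAX := hνκsub _ hA
  have hPAX := hνκsub _ hPA
  have homX := hνκsub _ homν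
  have hωκ : ω < κ := hκ.om
  have hidκ : ∀ x ∈ V_ κ, x ∈ ((V_ κ : ZFSet.{0}) : Set ZFSet.{0}) := fun x hx => hx
  -- the targets are bounded in `μ`
  have hbd2 : ¬ Unb A PA μ := by
    intro h1
    have h2 := (unbF_iff hXκ hκ.lim hidκ hωκ (a := ⟨A, hAX⟩) (p := ⟨PA, hPAX⟩) (w := ⟨omg, homX⟩)
      (s := ⟨μ.toZFSet, hμV⟩) rfl rfl hμκ.le).2 h1
    have h3 := (hk.tr (FO.unbF 0 1 2 3) (cons_in hAX (cons_in hPAX (cons_in homX
      (const_in hμV))))).1 h2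
    have h4 := (unbF_iff hN hlimμ' hVN' (hωμ.trans hμμ') (a := ⟨k A, hk.maps hAX⟩)
      (p := ⟨k PA, hk.maps hPAX⟩) (w := ⟨k omg, hk.maps homX⟩)
      (s := ⟨k μ.toZFSet, hk.maps hμV⟩) hkom hμ' le_rfl).1 h3
    change Unb (k A) (k PA) μ' at h4
    rw [hkA, hkPA] at h4
    obtain ⟨β, hβ, hζβ, ht⟩ := h4 ζ hζμ'
    exact hζ β (hβ.trans hμ'κ) hζβ ht
  unfold Unb at hbd2
  push Not at hbd2
  obtain ⟨γ, hγμ, hγ⟩ := hbd2
  have hγB : Bdd A PA γ μ := by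
    intro β hβ ht
    by_contra hcon
    push Not at hcon
    exact hγ β hβ hcon ht
  have hγV : γ.toZFSet ∈ V_ κ := mem_V_of_lt (hγμ.trans hμκ)
  have hγB' : Bdd A PA γ μ' := by
    have h2 := (bddF_iff hXκ hκ.lim hidκ hωκ (a := ⟨A, hAX⟩) (p := ⟨PA, hPAX⟩) (w := ⟨omg, homX⟩)
      (z := ⟨γ.toZFSet, hγV⟩) (s := ⟨μ.toZFSet, hμV⟩) rfl rfl rfl hμκ.le).2 hγB
    have h3 := (hk.tr (FO.bddF 0 1 2 3 4) (cons_in hAX (cons_in hPAX (cons_in homX
      (cons_in hγV (const_in hμV)))))).1 h2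
    have h4 := (bddF_iff hN hlimμ' hVN' (hωμ.trans hμμ') (a := ⟨k A, hk.maps hAX⟩)
      (p := ⟨k PA, hk.maps hPAX⟩) (w := ⟨k omg, hk.maps homX⟩)
      (z := ⟨k γ.toZFSet, hk.maps hγV⟩)
      (s := ⟨k μ.toZFSet, hk.maps hμV⟩) hkom hμ' (hck.1 γ hγμ) le_rfl).1 h3
    change Bdd (k A) (k PA) γ μ' at h4
    rwa [hkA, hkPA] at h4
  have hγκ : Bdd A PA γ κ := by
    intro β hβ ht
    have h1 : β ≤ ζ := by
      by_contra hcon
      push Not at hcon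
      exact hζ β hβ hcon ht
    exact hγB' β (h1.trans_lt hζμ') ht
  -- the critical sequence stays below `γ`
  have hγδ : γ < δ := hγμ.trans hμδ
  have hjfix := crit_fix hj hX hM hνX
    (fun x hx => hsub _ (vonNeumann_subset_of_le hνθ.le hx)) hcν
  have hjA : j A = A := hjfix _ hA
  have hjPA : j PA = PA := hjfix _ hPA
  have hjom : j omg = omg := hjfix _ homν
  have hAX' : A ∈ V_ (θ + 1) := hsub _ (vonNeumann_subset_of_le hνθ.le hA)
  have hPAX' : PA ∈ V_ (θ + 1) := hsub _ (vonNeumann_subset_of_le hνθ.le hPA)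
  have homX' : omg ∈ V_ (θ + 1) := hsub _ (vonNeumann_subset_of_le hνθ.le homν)
  have key : ∀ i, (jo j)^[i] ν ≤ γ ∧ Unb A PA ((jo j)^[i] ν) := by
    have aux : ∀ σ, σ ≤ δ' → Unb A PA σ → σ ≤ γ := by
      intro σ hσ h1
      by_contra hcon
      push Not at hcon
      obtain ⟨β, hβ, hγβ, ht⟩ := h1 γ hcon
      have h2 := hγκ β ((hβ.trans_le hσ).trans hδ'κ) ht
      exact absurd hγβ (not_lt.2 h2)
    intro i
    induction i with
    | zero => exact ⟨aux ν (hνδ.trans hδδ').le hunb, hunb⟩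
    | succ i ih =>
      obtain ⟨ih1, ih2⟩ := ih
      have hnδ : (jo j)^[i] ν < δ := ih1.trans_lt hγδ
      have hnX : ((jo j)^[i] ν).toZFSet ∈ V_ (θ + 1) := hX _ hδX _ (toZFSet_mem hnδ)
      have hlt : jo j ((jo j)^[i] ν) < δ' :=
        (jord_lt hj hX hM hnX hδX (jo_eq hj hX hM hnX) hδ').1 hnδ
      rw [Function.iterate_succ_apply']
      have h2 := (unbF_iff hX limθ hsub (hων.trans hνθ) (a := ⟨A, hAX'⟩) (p := ⟨PA, hPAX'⟩)
        (w := ⟨omg, homX'⟩) (s := ⟨((jo j)^[i] ν).toZFSet, hnX⟩) rfl rfl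
        (hnδ.trans hδθ).le).2 ih2
      have h3 := (hj.tr (FO.unbF 0 1 2 3) (cons_in hAX' (cons_in hPAX' (cons_in homX'
        (const_in hnX))))).1 h2
      have h4 := (unbF_iff hM limδ' hVM (hων.trans (hνδ.trans hδδ')) (a := ⟨j A, hj.maps hAX'⟩)
        (p := ⟨j PA, hj.maps hPAX'⟩) (w := ⟨j omg, hj.maps homX'⟩)
        (s := ⟨j ((jo j)^[i] ν).toZFSet, hj.maps hnX⟩) hjom (jo_eq hj hX hM hnX) hlt.le).1 h3
      change Unb (j A) (j PA) (jo j ((jo j)^[i] ν)) at h4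
      rw [hjA, hjPA] at h4
      exact ⟨aux _ hlt.le h4, h4⟩
  exact crit_seq_contra limθ hM hj limδ' hVM hcν hων hRν.sl (hγδ.trans hδθ)
    (hγδ.trans hδδ') (fun i => (key i).1)

end Pool.Agent.MP_6fa13c_lc
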