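import Pool.Agent.Lib_MP_6fa13c_lc.Large
import Pool.Agent.Lib_MP_6fa13c_lc.Inacc

/-!
# A `Ψ_gss`-large cardinal in a model without globally superstrong cardinals
-/

namespace Pool.Agent.MP_6fa13c_lc

open ZFSet Ordinal Forcing Order Inner

/-- `κ` is `η`-extendible: there are `ζ` and an elementary embedding `j : V_{κ+η} → V_ζ` with
critical point `κ` and `η < j(κ)`. -/
def ExtendibleTo (κ η : Ordinal.{0}) : Prop :=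
  ∃ (ζ : Ordinal.{0}) (j : ZFSet.{0} → ZFSet.{0}),
    Elementary (V_ (κ + η)) (V_ ζ) j ∧ CritPt j κ ∧
      ∃ κ' : Ordinal.{0}, j κ.toZFSet = κ'.toZFSet ∧ η < κ'

lemma add_eq_of_inaccessible {c : Cardinal.{0}} (hc : c.IsInaccessible) {κ : Ordinal.{0}}
    (hκ : κ < c.ord) : κ + c.ord = c.ord := by
  exact (Ordinal.isPrincipal_add_ord hc.aleph0_lt.le).add_eq_right hκ

theorem main3 {κ Ω ζ : Ordinal.{0}} {e : ZFSet.{0} → ZFSet.{0}} (h : EX κ Ω ζ e)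
    (hno : ∀ ρ, κ < ρ → ρ < Ω → ¬ Repl ρ) :
    (∃ δ < κ, IsCard δ ∧ PsiLargeIn Ω PsiGss δ) ∧ ∀ μ, ¬ GloballySuperstrongIn Ω μ := by
  refine ⟨?_, fun μ => no_gss h.rep h.lt hno μ⟩
  obtain ⟨A, hA, hAtr, hom, hE⟩ := h.exists_A
  have hAΩ : A ∈ V_ Ω := vonNeumann_subset_of_le h.lt.le hA
  obtain ⟨α, hα, hc, hp, hαr⟩ := psiLarge_of_ext h.rep hAΩ hAtr hom hE
  refine ⟨α, ?_, hc, hp⟩
  rw [mem_vonNeumann] at hA
  exact hαr.trans_lt hA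

/-- passing to the least inaccessible cardinal above `κ` -/
theorem EX.least {κ Ω ζ : Ordinal.{0}} {e : ZFSet.{0} → ZFSet.{0}} (h : EX κ Ω ζ e) :
    ∃ Ω₀ ≤ Ω, (∀ ρ, κ < ρ → ρ < Ω₀ → ¬ Repl ρ) ∧ ∃ ζ₀, EX κ Ω₀ ζ₀ e := by
  let S : Set Ordinal.{0} := {ρ | κ < ρ ∧ Repl ρ}
  have hS : S.Nonempty := ⟨Ω, h.lt, h.rep⟩
  let Ω₀ := WellFounded.min lt_wf S hS
  have h0 : Ω₀ ∈ S := WellFounded.min_mem lt_wf S hS
  have hmin : ∀ ρ ∈ S, ¬ ρ < Ω₀ := fun ρ hρ => WellFounded.not_lt_min lt_wf S hρ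
  have hle : Ω₀ ≤ Ω := not_lt.1 (hmin Ω ⟨h.lt, h.rep⟩)
  refine ⟨Ω₀, hle, fun ρ h1 h2 h3 => hmin ρ ⟨h1, h3⟩ h2, ?_⟩
  rcases hle.lt_or_eq with h1 | h1
  · refine ⟨jo e Ω₀, ?_, h.crit, h0.1, h0.2, hle.trans h.big⟩
    rw [← h.eV h1]
    exact h.el.restrict (transV _) (transV _) (vonNeumann_mem_of_lt h1)
  · rw [h1]
    exact ⟨ζ, h⟩

lemma ExtendibleTo.ex {κ : Ordinal.{0}} {c : Cardinal.{0}} (hc : c.IsInaccessible)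
    (hκ : κ < c.ord) (h : ExtendibleTo κ c.ord) : ∃ ζ e, EX κ c.ord ζ e := by
  obtain ⟨ζ, e, h1, h2, κ', h3, h4⟩ := h
  rw [add_eq_of_inaccessible hc hκ] at h1
  refine ⟨ζ, e, h1, h2, hκ, repl_of_inaccessible hc, ?_⟩
  unfold jo
  rw [h3, rank_toZFSet]
  exact h4.le

lemma EX.ext {κ : Ordinal.{0}} {c : Cardinal.{0}} (hc : c.IsInaccessible) {ζ : Ordinal.{0}}
    {e : ZFSet.{0} → ZFSet.{0}} (h : EX κ c.ord ζ e) (h' : c.ord < jo e κ) :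
    ExtendibleTo κ c.ord := by
  refine ⟨ζ, e, ?_, h.crit, jo e κ, jo_eq h.el (transV _) (transV _) h.νX, h'⟩
  rw [add_eq_of_inaccessible hc h.lt]
  exact h.el

end Pool.Agent.MP_6fa13c_lc
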