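import Pool.Agent.Lib_MP_6fa13c_lc.Extend
import Pool.Agent.Lib_MP_6fa13c_lc.Main2

/-!
# A globally superstrong cardinal is a limit of inaccessible cardinals, and so is its image
-/

namespace Pool.Agent.MP_6fa13c_lc

open ZFSet Ordinal Forcing Order Inner

/-- critical points are inaccessible -/
theorem repl_crit {X Y : Set ZFSet.{0}} {j : ZFSet.{0} → ZFSet.{0}} (h : Elementary X Y j)
    (hX : IsTransClass X) (hY : IsTransClass Y) {κ lam : Ordinal.{0}}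
    (hVX : ∀ x ∈ V_ (κ + 1), x ∈ X) (hc : CritPt j κ) (hlam : j κ.toZFSet = lam.toZFSet)
    (hl : IsSuccLimit lam) (hVY : ∀ x ∈ V_ lam, x ∈ Y) : Repl κ := by
  have hκX : κ.toZFSet ∈ X := hVX _ OE.κ_mem
  have hlim : IsSuccLimit κ := crit_limit h hX hY hκX hc
  have hsub0 : ∀ x ∈ V_ κ, x ∈ V_ (κ + 1) :=
    fun _ hx => vonNeumann_subset_of_le (le_of_lt (lt_add_one κ)) hx
  have hsub : ∀ x ∈ V_ κ, x ∈ X := fun x hx => hVX _ (hsub0 x hx)
  have hfix := crit_fix h hX hY hκX hsub hc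
  have hlt : κ < lam := by
    have h1 := jo_crit h hX hY hκX hc
    have h2 : jo j κ = lam := by unfold jo; rw [hlam, rank_toZFSet]
    rwa [h2] at h1
  refine ⟨hlim, crit_om h hX hY hκX hc, fun a ha F hF => ?_⟩
  by_contra hcon
  push Not at hcon
  have haV : ∀ x ∈ a, x ∈ V_ κ := fun x hx => transV κ _ ha _ hx
  let G := graph κ a F
  have hG : G ∈ X := hVX _ (graph_mem κ a F)
  have haX := hsub _ ha
  have hR1 : FO (fun (M : Type 1) (E : M → M → Prop) v =>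
      ∀ g, E g (v 0) → ∃ x, E x (v 1) ∧ ∃ y, Val E (v 2) x y ∧ ¬ RankLt E y g) :=
    FO.all (FO.imp (FO.mem _ _) (FO.ex (FO.and (FO.mem _ _) (FO.ex (FO.and (FO.val _ _ _)
      (FO.not (FO.rankLt _ _)))))))
  have h1 := (h.tr hR1 (cons_in hκX (cons_in haX (const_in hG)))).1 (by
    intro g hg
    change g.1 ∈ κ.toZFSet at hg
    obtain ⟨γ, hγ, hg2⟩ := mem_toZFSet_iff.1 hg
    obtain ⟨x, hx, hxF⟩ := hcon γ hγ
    refine ⟨⟨x, hsub _ (haV x hx)⟩, hx, ⟨F x, hsub _ (hF x hx)⟩, ?_, ?_⟩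
    · rw [val_on hX]
      exact (mem_graph hlim haV hF).2 ⟨hx, rfl⟩
    · intro h2
      have h3 := rankLt_sound hX h2
      rw [← hg2, rank_toZFSet] at h3
      exact hxF (by rw [mem_vonNeumann]; exact h3))
  have hR2 : FO (fun (M : Type 1) (E : M → M → Prop) v =>
      ∀ x y z, Val E (v 0) x y → Val E (v 0) x z → y = z) :=
    FO.all (FO.all (FO.all (FO.imp (FO.val _ _ _) (FO.imp (FO.val _ _ _) (FO.eq _ _)))))
  have h2 := (h.tr hR2 (const_in hG)).1 (by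
    intro x y z hy hz
    rw [val_on hX] at hy hz
    rw [Subtype.ext_iff, ((mem_graph hlim haV hF).1 hy).2, ((mem_graph hlim haV hF).1 hz).2])
  have hκY : κ.toZFSet ∈ Y := hVY _ (mem_V_of_lt hlt)
  obtain ⟨x, hx, y, hxy, hr⟩ := h1 ⟨κ.toZFSet, hκY⟩ (by
    change κ.toZFSet ∈ j κ.toZFSet
    rw [hlam]; exact toZFSet_mem hlt)
  change x.1 ∈ j a at hx
  rw [hfix a ha] at hx
  have hxF : pair x.1 (F x.1) ∈ G := (mem_graph hlim haV hF).2 ⟨hx, rfl⟩
  have h3 := (h.val hX hY hG (hsub _ (haV _ hx)) (hsub _ (hF _ hx))).1 hxF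
  rw [hfix _ (haV _ hx), hfix _ (hF _ hx)] at h3
  have hFY : F x.1 ∈ Y := by
    have := h.maps (hsub _ (hF _ hx))
    rwa [hfix _ (hF _ hx)] at this
  have h4 : y = ⟨F x.1, hFY⟩ := h2 x y ⟨F x.1, hFY⟩ hxy ((val_on hY _ _ _).2 h3)
  apply hr
  have hy4 : y.1 = F x.1 := congrArg Subtype.val h4
  have hyκ : rank y.1 < κ := by
    rw [hy4]; have := hF _ hx; rwa [mem_vonNeumann] at this
  refine rankLt_complete hY hl hVY ?_ rfl hyκ
  rw [mem_vonNeumann]; exact hyκ.trans hlt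

/-- first-order version of `Repl` -/
def ReplF {M : Type 1} (E : M → M → Prop) (w s : M) : Prop :=
  ((∀ x, E x s → ∃ y, E y s ∧ E x y) ∧ E w s) ∧
  ∀ a f, RankLt E a s → (∀ x y, Val E f x y → RankLt E y s) →
    (∀ x y y', Val E f x y → Val E f x y' → y = y') →
    ∃ g, E g s ∧ ∀ x, E x a → ∀ y, Val E f x y → RankLt E y g

lemma FO.replF (i j : ℕ) : FO (fun (M : Type 1) (E : M → M → Prop) v => ReplF E (v i) (v j)) :=
  FO.and (FO.and (FO.all (FO.imp (FO.mem _ _) (FO.ex (FO.and (FO.mem _ _) (FO.mem _ _)))))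
    (FO.mem _ _))
    (FO.all (FO.all (FO.imp (FO.rankLt _ _) (FO.imp (FO.all (FO.all (FO.imp (FO.val _ _ _)
      (FO.rankLt _ _)))) (FO.imp (FO.all (FO.all (FO.all (FO.imp (FO.val _ _ _)
        (FO.imp (FO.val _ _ _) (FO.eq _ _)))))) (FO.ex (FO.and (FO.mem _ _)
          (FO.all (FO.imp (FO.mem _ _) (FO.all (FO.imp (FO.val _ _ _) (FO.rankLt _ _))))))))))))

lemma limit_of_forall {σ : Ordinal.{0}} (h0 : 0 < σ) (h : ∀ a < σ, ∃ b < σ, a < b) :
    IsSuccLimit σ := by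
  rcases zero_or_succ_or_isSuccLimit σ with h1 | ⟨ξ, hξ⟩ | h1
  · exact absurd h1 h0.ne'
  · exfalso
    obtain ⟨b, hb, hb2⟩ := h ξ (by rw [← hξ]; exact lt_succ ξ)
    rw [← hξ] at hb
    exact absurd (lt_succ_iff.1 hb) (not_le.2 hb2)
  · exact h1

lemma replF_iff {X : Set ZFSet.{0}} (hX : IsTransClass X) {ρ : Ordinal.{0}} (hρ : IsSuccLimit ρ)
    (hV : ∀ x ∈ V_ ρ, x ∈ X) {w s : X} (hw : w.1 = omg) {σ : Ordinal.{0}}
    (hs : s.1 = σ.toZFSet) (hσ : σ < ρ) : ReplF (memOn X) w s ↔ Repl σ := by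
  classical
  have key : ∀ x : X, RankLt (memOn X) x s ↔ x.1 ∈ V_ σ := by
    intro x
    rw [mem_vonNeumann]
    constructor
    · intro h
      have := rankLt_sound hX h
      rwa [hs, rank_toZFSet] at this
    · intro h
      refine rankLt_complete hX hρ hV ?_ hs h
      rw [mem_vonNeumann]; exact h.trans hσ
  constructor
  · rintro ⟨⟨h1, h2⟩, h3⟩
    have hωσ : ω < σ := by
      have h4 : w.1 ∈ s.1 := h2
      rw [hw, hs, toZFSet_mem_toZFSet_iff] at h4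
      exact h4
    have hlim : IsSuccLimit σ := by
      refine limit_of_forall (omega0_pos.trans hωσ) (fun a ha => ?_)
      have haX : a.toZFSet ∈ X := hX _ s.2 _ (by rw [hs]; exact toZFSet_mem ha)
      obtain ⟨y, hy, hy2⟩ := h1 ⟨a.toZFSet, haX⟩ (by
        change a.toZFSet ∈ s.1
        rw [hs]; exact toZFSet_mem ha)
      have hy' : y.1 ∈ σ.toZFSet := by rw [← hs]; exact hy
      obtain ⟨b, hb, hby⟩ := mem_toZFSet_iff.1 hy'
      refine ⟨b, hb, ?_⟩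
      have h5 : a.toZFSet ∈ y.1 := hy2
      rwa [← hby, toZFSet_mem_toZFSet_iff] at h5
    refine ⟨hlim, hωσ, fun a ha F hF => ?_⟩
    have haV : ∀ x ∈ a, x ∈ V_ σ := fun x hx => transV σ _ ha _ hx
    have hGX : graph σ a F ∈ X := by
      apply hV
      have h4 := graph_mem σ a F
      rw [mem_vonNeumann] at h4 ⊢
      exact h4.trans_le (add_one_le_iff.2 hσ)
    have haX : a ∈ X := hV _ (vonNeumann_subset_of_le hσ.le ha)
    obtain ⟨g, hg, hg2⟩ := h3 ⟨a, haX⟩ ⟨graph σ a F, hGX⟩ ((key _).2 ha) (by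
      intro x y hxy
      rw [val_on hX] at hxy
      rw [key, ((mem_graph hlim haV hF).1 hxy).2]
      exact hF _ ((mem_graph hlim haV hF).1 hxy).1) (by
      intro x y y' hy hy'
      rw [val_on hX] at hy hy'
      rw [Subtype.ext_iff, ((mem_graph hlim haV hF).1 hy).2, ((mem_graph hlim haV hF).1 hy').2])
    have hg' : g.1 ∈ σ.toZFSet := by rw [← hs]; exact hg
    obtain ⟨γ, hγ, hγg⟩ := mem_toZFSet_iff.1 hg'
    refine ⟨γ, hγ, fun x hx => ?_⟩
    have hxX : x ∈ X := hX _ haX _ hx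
    have hFX : F x ∈ X := hV _ (vonNeumann_subset_of_le hσ.le (hF x hx))
    have h5 := hg2 ⟨x, hxX⟩ hx ⟨F x, hFX⟩ (by
      rw [val_on hX]
      exact (mem_graph hlim haV hF).2 ⟨hx, rfl⟩)
    have h6 := rankLt_sound hX h5
    rw [← hγg, rank_toZFSet] at h6
    rw [mem_vonNeumann]; exact h6
  · intro h
    refine ⟨⟨?_, ?_⟩, ?_⟩
    · intro x hx
      have hx' : x.1 ∈ σ.toZFSet := by rw [← hs]; exact hx
      obtain ⟨a, ha, hax⟩ := mem_toZFSet_iff.1 hx'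
      have h1 : (succ a).toZFSet ∈ s.1 := by
        rw [hs]; exact toZFSet_mem (h.lim.succ_lt ha)
      refine ⟨⟨(succ a).toZFSet, hX _ s.2 _ h1⟩, h1, ?_⟩
      change x.1 ∈ (succ a).toZFSet
      rw [← hax]; exact toZFSet_mem (lt_succ a)
    · change w.1 ∈ s.1
      rw [hw, hs]; exact toZFSet_mem h.om
    · intro a f ha hf hfun
      rw [key] at ha
      let F : ZFSet.{0} → ZFSet.{0} := fun x => if hx : ∃ y, pair x y ∈ f.1 then hx.choose else ∅
      have hpX : ∀ x y, pair x y ∈ f.1 → x ∈ X ∧ y ∈ X := fun x y hxy =>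
        pair_parts hX (hX _ f.2 _ hxy)
      obtain ⟨γ, hγ, hb⟩ := h.bd a.1 ha F (by
        intro x hx
        by_cases h1 : ∃ y, pair x y ∈ f.1
        · simp only [F, dif_pos h1]
          obtain ⟨hxX, hyX⟩ := hpX _ _ h1.choose_spec
          exact (key ⟨h1.choose, hyX⟩).1 (hf ⟨x, hxX⟩ ⟨h1.choose, hyX⟩
            ((val_on hX _ _ _).2 h1.choose_spec))
        · simp only [F, dif_neg h1]
          rw [mem_vonNeumann, rank_empty]; exact h.lim.bot_lt)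
      have hγs : γ.toZFSet ∈ s.1 := by rw [hs]; exact toZFSet_mem hγ
      refine ⟨⟨γ.toZFSet, hX _ s.2 _ hγs⟩, hγs, fun x hx y hxy => ?_⟩
      have hxy' := hxy
      rw [val_on hX] at hxy'
      have h1 : ∃ y, pair x.1 y ∈ f.1 := ⟨y.1, hxy'⟩
      have h2 : F x.1 = y.1 := by
        simp only [F, dif_pos h1]
        obtain ⟨_, hyX⟩ := hpX _ _ h1.choose_spec
        exact congrArg Subtype.val (hfun x ⟨h1.choose, hyX⟩ y
          ((val_on hX _ _ _).2 h1.choose_spec) hxy)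
      have h3 := hb x.1 hx
      rw [h2, mem_vonNeumann] at h3
      refine rankLt_complete hX hρ hV ?_ rfl h3
      rw [mem_vonNeumann]; exact h3.trans (hγ.trans hσ)

/-- no cardinal is globally superstrong if there are no inaccessibles between `ν` and `κ` -/
theorem no_gss {κ ν : Ordinal.{0}} (hκ : Repl κ) (hνκ : ν < κ)
    (hno : ∀ ρ, ν < ρ → ρ < κ → ¬ Repl ρ) (μ : Ordinal.{0}) : ¬ GloballySuperstrongIn κ μ := by
  intro hμ
  have hX := transV κ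
  have hμκ := hμ.1
  have hμV : μ.toZFSet ∈ V_ κ := mem_V_of_lt hμκ
  obtain ⟨N, k, hNκ, hN, hk, hck, μ', hμ', hlμ', hVN⟩ := hμ.2 (max (succ μ) ν)
    ((lt_succ μ).trans_le (le_max_left _ _)) (max_lt (hκ.lim.succ_lt hμκ) hνκ)
  have hμμ' : μ < μ' := ((lt_succ μ).trans_le (le_max_left _ _)).trans hlμ'
  have hνμ' : ν < μ' := (le_max_right _ _).trans_lt hlμ'
  have hμ'κ : μ' < κ := by
    have h1 : k μ.toZFSet ∈ V_ κ := hNκ (hk.maps hμV)
    rw [hμ'] at h1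
    exact lt_of_mem_V h1
  have hlimμ : IsSuccLimit μ := crit_limit hk hX hN hμV hck
  have hVN' : ∀ x ∈ V_ μ', x ∈ N := fun x hx => hVN hx
  have hlimμ' : IsSuccLimit μ' := el_limit hk hX hN hμV hlimμ hμ' hμμ'.le
  have hRμ : Repl μ := by
    refine repl_crit hk hX hN (fun x hx => ?_) hck hμ' hlimμ' hVN'
    exact vonNeumann_subset_of_le (add_one_le_iff.2 hμκ) hx
  have hidκ : ∀ x ∈ V_ κ, x ∈ ((V_ κ : ZFSet.{0}) : Set ZFSet.{0}) := fun x hx => hx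
  have homX : omg ∈ V_ κ := mem_V_of_lt hκ.om
  have hkom : k omg = omg := hck.1 _ hRμ.om
  -- inaccessibles below `μ` are unbounded
  have hunb : ∀ γ < μ, ∃ ρ, γ < ρ ∧ ρ < μ ∧ Repl ρ := by
    intro γ hγ
    have hγX : γ.toZFSet ∈ V_ κ := mem_V_of_lt (hγ.trans hμκ)
    have hR : FO (fun (M : Type 1) (E : M → M → Prop) v =>
        ∃ s, E s (v 0) ∧ (E (v 1) s ∧ ReplF E (v 2) s)) :=
      FO.ex (FO.and (FO.mem _ _) (FO.and (FO.mem _ _) (FO.replF _ _)))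
    have h1 := (hk.tr hR (cons_in hμV (cons_in hγX (const_in homX)))).2 (by
      refine ⟨⟨μ.toZFSet, hVN' _ (mem_V_of_lt hμμ')⟩, ?_, ?_, ?_⟩
      · change μ.toZFSet ∈ k μ.toZFSet
        rw [hμ']; exact toZFSet_mem hμμ'
      · change k γ.toZFSet ∈ μ.toZFSet
        rw [hck.1 γ hγ]; exact toZFSet_mem hγ
      · exact (replF_iff hN hlimμ' hVN' hkom rfl hμμ').2 hRμ)
    obtain ⟨s, hs, hγs, hs2⟩ := h1
    obtain ⟨ρ, hρ, hρs⟩ := mem_toZFSet_iff.1 (show s.1 ∈ μ.toZFSet from hs)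
    refine ⟨ρ, ?_, hρ, ?_⟩
    · have : γ.toZFSet ∈ s.1 := hγs
      rwa [← hρs, toZFSet_mem_toZFSet_iff] at this
    · exact (replF_iff hX hκ.lim hidκ rfl hρs.symm (hρ.trans hμκ)).1 hs2
  -- hence also below `μ'`
  have hR : FO (fun (M : Type 1) (E : M → M → Prop) v =>
      ∀ g, E g (v 0) → ∃ s, E s (v 0) ∧ (E g s ∧ ReplF E (v 1) s)) :=
    FO.all (FO.imp (FO.mem _ _) (FO.ex (FO.and (FO.mem _ _) (FO.and (FO.mem _ _)
      (FO.replF _ _)))))
  have h1 := (hk.tr hR (cons_in hμV (const_in homX))).1 (by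
    intro g hg
    obtain ⟨γ, hγ, hγg⟩ := mem_toZFSet_iff.1 (show g.1 ∈ μ.toZFSet from hg)
    obtain ⟨ρ, h2, h3, h4⟩ := hunb γ hγ
    refine ⟨⟨ρ.toZFSet, mem_V_of_lt (h3.trans hμκ)⟩, toZFSet_mem h3, ?_,
      (replF_iff hX hκ.lim hidκ rfl rfl (h3.trans hμκ)).2 h4⟩
    change g.1 ∈ ρ.toZFSet
    rw [← hγg]; exact toZFSet_mem h2)
  obtain ⟨s, hs, hνs, hs2⟩ := h1 ⟨ν.toZFSet, hVN' _ (mem_V_of_lt hνμ')⟩ (by
    change ν.toZFSet ∈ k μ.toZFSet
    rw [hμ']; exact toZFSet_mem hνμ')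
  have hs' : s.1 ∈ μ'.toZFSet := by rw [← hμ']; exact hs
  obtain ⟨ρ, hρ, hρs⟩ := mem_toZFSet_iff.1 hs'
  have hνρ : ν < ρ := by
    have : ν.toZFSet ∈ s.1 := hνs
    rwa [← hρs, toZFSet_mem_toZFSet_iff] at this
  exact hno ρ hνρ (hρ.trans hμ'κ) ((replF_iff hN hlimμ' hVN' hkom hρs.symm hρ).1 hs2)

end Pool.Agent.MP_6fa13c_lc
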