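import Pool.Agent.Lib_MP_6fa13c_lc.Rank

/-!
# First consequences of `1`-extendibility
-/

namespace Pool.Agent.MP_6fa13c_lc

open ZFSet Ordinal Forcing Order Inner

/-- replacement for `V_κ` in strong form -/
structure Repl (κ : Ordinal.{0}) : Prop where
  lim : IsSuccLimit κ
  om : ω < κ
  bd : ∀ a ∈ V_ κ, ∀ F : ZFSet.{0} → ZFSet.{0}, (∀ x ∈ a, F x ∈ V_ κ) → ∃ γ < κ, ∀ x ∈ a, F x ∈ V_ γ

/-- the data of a `1`-extendibility embedding -/
structure OE (κ lam : Ordinal.{0}) (j : ZFSet.{0} → ZFSet.{0}) : Prop where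
  el : Elementary (V_ (κ + 1)) (V_ (lam + 1)) j
  fixo : ∀ ξ < κ, j ξ.toZFSet = ξ.toZFSet
  jκ : j κ.toZFSet = lam.toZFSet
  lt : κ < lam

lemma mem_V_of_lt {α β : Ordinal.{0}} (h : α < β) : α.toZFSet ∈ V_ β := by
  rw [mem_vonNeumann, rank_toZFSet]; exact h

lemma lt_of_mem_V {α β : Ordinal.{0}} (h : α.toZFSet ∈ V_ β) : α < β := by
  rwa [mem_vonNeumann, rank_toZFSet] at h

lemma mem_V1 {x : ZFSet.{0}} {κ : Ordinal.{0}} : x ∈ V_ (κ + 1) ↔ x ⊆ V_ κ := by
  rw [vonNeumann_add_one, mem_powerset]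

lemma toZFSet_mem {α β : Ordinal.{0}} (h : α < β) : α.toZFSet ∈ β.toZFSet :=
  toZFSet_mem_toZFSet_iff.2 h

lemma toZFSet_succ' (ξ : Ordinal.{0}) : (succ ξ).toZFSet = insert ξ.toZFSet ξ.toZFSet := by
  rw [succ_eq_add_one, toZFSet_add_one]

lemma exists_OE {κ : Ordinal.{0}} (h : OneExtendible κ) : ∃ lam j, OE κ lam j := by
  obtain ⟨ζ, j, hj, hfix, hmov⟩ := h
  have hX := transV (κ + 1)
  have hY := transV ζ
  have hκ : κ.toZFSet ∈ V_ (κ + 1) := mem_V_of_lt (lt_add_one κ)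
  obtain ⟨lam, hlam⟩ := hj.ord hX hY hκ
  have hle : κ ≤ lam := by
    by_contra hcon
    push Not at hcon
    have h1 : lam.toZFSet ∈ κ.toZFSet := by simpa using hcon
    have h2 := (hj.mem hX hY (hX _ hκ _ h1) hκ).1 h1
    rw [hfix _ hcon, hlam] at h2
    exact mem_irrefl _ h2
  have hne : κ ≠ lam := by
    rintro rfl
    exact hmov hlam
  have hlt := lt_of_le_of_ne hle hne
  have hlamζ : lam < ζ := by
    have := hj.maps hκ
    rw [hlam] at this
    exact lt_of_mem_V this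
  have hζ : ζ = lam + 1 := by
    apply le_antisymm
    · by_contra hcon
      push Not at hcon
      -- the largest ordinal
      have hR : FO (fun (M : Type 1) (E : M → M → Prop) v =>
          ∀ x, IsOrd E x → (E x (v 0) ∨ x = v 0)) :=
        FO.all (FO.imp (Abs.isOrd 0).fo (FO.or (FO.mem _ _) (FO.eq _ _)))
      have h1 := (hj.tr hR (const_in hκ)).1 (by
        intro x hx
        have h2 := ((Abs.isOrd 0).abs _ hX (fun _ => x)).1 hx
        obtain ⟨α, hα⟩ := isOrd_EV_iff.1 h2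
        change x.1 = α.toZFSet at hα
        have h3 : α < κ + 1 := by
          apply lt_of_mem_V
          rw [← hα]; exact x.2
        rcases (lt_add_one_iff.1 h3).lt_or_eq with h4 | h4
        · left
          change x.1 ∈ κ.toZFSet
          rw [hα]; simpa using h4
        · right
          apply Subtype.ext
          change x.1 = κ.toZFSet
          rw [hα, h4])
      have h2 := h1 ⟨(lam + 1).toZFSet, mem_V_of_lt hcon⟩
        (((Abs.isOrd 0).abs _ hY (fun _ => ⟨(lam + 1).toZFSet, mem_V_of_lt hcon⟩)).2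
          (isOrd_EV_iff.2 ⟨_, rfl⟩))
      rcases h2 with h2 | h2
      · change (lam + 1).toZFSet ∈ j κ.toZFSet at h2
        rw [hlam, toZFSet_mem_toZFSet_iff] at h2
        exact absurd h2 (not_lt.2 (le_of_lt (lt_add_one lam)))
      · have h3 : (lam + 1).toZFSet = j κ.toZFSet := congrArg Subtype.val h2
        rw [hlam] at h3
        have h4 := toZFSet_injective h3
        exact absurd h4 (ne_of_gt (lt_add_one lam))
    · exact add_one_le_iff.2 hlamζ
  subst hζ
  exact ⟨lam, j, hj, hfix, hlam, hlt⟩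

section
variable {κ lam : Ordinal.{0}} {j : ZFSet.{0} → ZFSet.{0}}

/-- a uniform bundle of hypotheses: `j : V_{κ+1} → Y` is elementary, `Y` is transitive and contains
`V_{κ+2}`... -/
lemma fix_empty {X Y : Set ZFSet.{0}} (h : Elementary X Y j) (hX : IsTransClass X)
    (hY : IsTransClass Y) (h0 : ∅ ∈ X) : j ∅ = ∅ := by
  have hR : Abs (fun _ E v => ∀ x, E x (v 0) → ¬ (x = x)) := Abs.ball 0 (Abs.not (Abs.eq 0 0))
  have h1 := (h.abs hX hY hR (const_in h0)).1 (fun x hx => absurd hx (notMem_empty x))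
  rw [eq_empty]
  intro y hy
  exact h1 y hy rfl

/-- the critical point is a limit ordinal -/
lemma crit_limit {X Y : Set ZFSet.{0}} (h : Elementary X Y j) (hX : IsTransClass X)
    (hY : IsTransClass Y) (hκ : κ.toZFSet ∈ X) (hc : CritPt j κ) : IsSuccLimit κ := by
  rcases zero_or_succ_or_isSuccLimit κ with h0 | ⟨ξ, hξ⟩ | h1
  · exfalso
    subst h0
    apply hc.2
    rw [toZFSet_zero] at *
    exact fix_empty h hX hY hκ
  · exfalso
    subst hξ
    apply hc.2
    rw [toZFSet_succ'] at *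
    rw [h.insert hX hY hκ, hc.1 ξ (lt_succ ξ)]
  · exact h1

/-- elements of `V_κ` are fixed -/
lemma crit_fix {X Y : Set ZFSet.{0}} (h : Elementary X Y j) (hX : IsTransClass X)
    (hY : IsTransClass Y) (hκ : κ.toZFSet ∈ X) (hV : ∀ x ∈ V_ κ, x ∈ X) (hc : CritPt j κ) :
    ∀ x ∈ V_ κ, j x = x := by
  have hlim := crit_limit h hX hY hκ hc
  have key : ∀ ξ < κ, ∀ x : ZFSet.{0}, rank x = ξ → j x = x := by
    intro ξ
    induction ξ using WellFoundedLT.induction with
    | _ ξ ih =>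
      intro hξ x hx
      have hxV : x ∈ V_ κ := by rw [mem_vonNeumann, hx]; exact hξ
      have hxX := hV _ hxV
      have hs : succ ξ < κ := hlim.succ_lt hξ
      have hsX : (succ ξ).toZFSet ∈ X := hX _ hκ _ (toZFSet_mem hs)
      have h1 : RankLt (memOn X) ⟨x, hxX⟩ ⟨(succ ξ).toZFSet, hsX⟩ :=
        rankLt_complete hX hlim hV hxV rfl (by rw [hx]; exact lt_succ ξ)
      have h2 := (h.tr (FO.rankLt 0 1) (cons_in hxX (const_in hsX))).1 h1
      have h3 := rankLt_sound hY h2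
      change rank (j x) < rank (j (succ ξ).toZFSet) at h3
      rw [hc.1 _ hs, rank_toZFSet, lt_succ_iff] at h3
      ext y
      constructor
      · intro hy
        have h4 : rank y < ξ := (rank_lt_of_mem hy).trans_le h3
        have h5 := ih _ h4 (h4.trans hξ) y rfl
        have h6 : y ∈ V_ κ := by rw [mem_vonNeumann]; exact h4.trans hξ
        rw [← h5] at hy
        exact (h.mem hX hY (hV _ h6) hxX).2 hy
      · intro hy
        have h4 : rank y < ξ := by rw [← hx]; exact rank_lt_of_mem hy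
        have h5 := ih _ h4 (h4.trans hξ) y rfl
        have h6 := (h.mem hX hY (hX _ hxX _ hy) hxX).1 hy
        rwa [h5] at h6
  intro x hx
  exact key _ (by rwa [mem_vonNeumann] at hx) x rfl

/-- the critical point is uncountable -/
lemma crit_om {X Y : Set ZFSet.{0}} (h : Elementary X Y j) (hX : IsTransClass X)
    (hY : IsTransClass Y) (hκ : κ.toZFSet ∈ X) (hc : CritPt j κ) : ω < κ := by
  have hlim := crit_limit h hX hY hκ hc
  rcases (omega0_le_of_isSuccLimit hlim).lt_or_eq with h1 | h1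
  · exact h1
  exfalso
  have hR : Abs (fun _ E v => ∀ x, E x (v 0) → ((∀ y, E y x → ¬ (y = y)) ∨
      ∃ y, E y (v 0) ∧ IsSucc E x y)) :=
    Abs.ball 0 (Abs.or (Abs.ball 0 (Abs.not (Abs.eq 0 0))) (Abs.bex 1 (Abs.isSucc _ _)))
  have h2 := (h.abs hX hY hR (const_in hκ)).1 (by
    intro x hx
    obtain ⟨a, ha, rfl⟩ := mem_toZFSet_iff.1 hx
    rw [← h1] at ha
    obtain ⟨n, rfl⟩ := lt_omega0.1 ha
    rcases n with _ | n
    · left
      intro y hy
      simp at hy
    · right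
      refine ⟨(n : Ordinal.{0}).toZFSet, ?_, ?_⟩
      · change (n : Ordinal.{0}).toZFSet ∈ κ.toZFSet
        rw [← h1]; simp
      · rw [isSucc_EV]
        rw [← toZFSet_add_one]
        congr 1)
  obtain ⟨lam, hlam⟩ := h.ord hX hY hκ
  have hlt : κ < lam := by
    have hle : κ ≤ lam := by
      by_contra hcon
      push Not at hcon
      have h1 : lam.toZFSet ∈ κ.toZFSet := by simpa using hcon
      have h2 := (h.mem hX hY (hX _ hκ _ h1) hκ).1 h1
      rw [hc.1 _ hcon, hlam] at h2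
      exact mem_irrefl _ h2
    exact lt_of_le_of_ne hle (by rintro rfl; exact hc.2 hlam)
  have h3 := h2 κ.toZFSet (by rw [hlam]; simpa using hlt)
  rcases h3 with h3 | ⟨y, _, h4⟩
  · exact h3 ∅ (by
      change ∅ ∈ κ.toZFSet
      rw [← toZFSet_zero]
      exact toZFSet_mem hlim.bot_lt) rfl
  · rw [isSucc_EV] at h4
    have hy : y ∈ κ.toZFSet := by rw [h4]; simp
    obtain ⟨a, ha, rfl⟩ := mem_toZFSet_iff.1 hy
    rw [← toZFSet_succ'] at h4
    have h5 := toZFSet_injective h4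
    exact (hlim.succ_lt ha).ne h5.symm

end

namespace OE
variable {κ lam : Ordinal.{0}} {j : ZFSet.{0} → ZFSet.{0}} (h : OE κ lam j)
include h

lemma crit : CritPt j κ := ⟨h.fixo, by
  rw [h.jκ]
  intro h1
  exact h.lt.ne (toZFSet_injective h1).symm⟩

omit h in
lemma κ_mem : κ.toZFSet ∈ V_ (κ + 1) := mem_V_of_lt (lt_add_one κ)

lemma lim : IsSuccLimit κ := crit_limit h.el (transV _) (transV _) OE.κ_mem h.crit

lemma fix : ∀ x ∈ V_ κ, j x = x :=
  crit_fix h.el (transV _) (transV _) OE.κ_mem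
    (fun _ hx => vonNeumann_subset_of_le (le_of_lt (lt_add_one κ)) hx) h.crit

lemma om : ω < κ := crit_om h.el (transV _) (transV _) OE.κ_mem h.crit

lemma limLam : IsSuccLimit lam := by
  have hR : Abs (fun _ E v => ∀ x, E x (v 0) → ∃ y, E y (v 0) ∧ E x y) :=
    Abs.ball 0 (Abs.bex 1 (Abs.mem _ _))
  have h2 := (h.el.abs (transV _) (transV _) hR (const_in OE.κ_mem)).1 (by
    intro x hx
    obtain ⟨a, ha, rfl⟩ := mem_toZFSet_iff.1 hx
    refine ⟨(succ a).toZFSet, ?_, ?_⟩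
    · exact toZFSet_mem (h.lim.succ_lt ha)
    · exact toZFSet_mem (lt_succ a))
  rcases zero_or_succ_or_isSuccLimit lam with h0 | ⟨ξ, hξ⟩ | h1
  · exfalso
    have := h.lt
    rw [h0] at this
    exact not_lt_zero this
  · exfalso
    obtain ⟨y, hy, hy2⟩ := h2 ξ.toZFSet (by
      change ξ.toZFSet ∈ j κ.toZFSet
      rw [h.jκ, ← hξ]; simp)
    change y ∈ j κ.toZFSet at hy
    rw [h.jκ, ← hξ] at hy
    obtain ⟨a, ha, rfl⟩ := mem_toZFSet_iff.1 hy
    have h3 : ξ < a := by simpa using hy2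
    exact absurd (lt_succ_iff.1 ha) (not_le.2 h3)
  · exact h1

omit h in
lemma V_mem : V_ κ ∈ V_ (κ + 1) := by
  rw [mem_vonNeumann, rank_vonNeumann]; exact lt_add_one κ

lemma jV : j (V_ κ) = V_ lam := by
  have hR : FO (fun (M : Type 1) (E : M → M → Prop) v => ∀ x, (E x (v 0) ↔ ∃ y, E x y)) :=
    FO.all (FO.iff (FO.mem _ _) (FO.ex (FO.mem _ _)))
  have h1 := (h.el.tr hR (const_in OE.V_mem)).1 (by
    intro x
    constructor
    · intro hx
      exact ⟨⟨V_ κ, OE.V_mem⟩, hx⟩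
    · rintro ⟨y, hy⟩
      exact mem_V1.1 y.2 hy)
  ext x
  constructor
  · intro hx
    have hxm : x ∈ V_ (lam + 1) := transV _ _ (h.el.maps OE.V_mem) _ hx
    obtain ⟨y, hy⟩ := (h1 ⟨x, hxm⟩).1 hx
    exact mem_V1.1 y.2 hy
  · intro hx
    have hxm : x ∈ V_ (lam + 1) := vonNeumann_subset_of_le (le_of_lt (lt_add_one _)) hx
    exact (h1 ⟨x, hxm⟩).2 ⟨⟨V_ lam, by
      rw [SetLike.mem_coe, mem_vonNeumann, rank_vonNeumann]; exact lt_add_one _⟩, hx⟩

end OE

end Pool.Agent.MP_6fa13c_lc
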