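import Pool.Agent.Lib_MP_6fa13c_lc.Tools

/-!
# Elementary embeddings between transitive classes: first consequences; ranks
-/

namespace Pool.Agent.MP_6fa13c_lc

open ZFSet Ordinal Forcing Order Inner

section
variable {X Y : Set ZFSet.{0}} {j : ZFSet.{0} → ZFSet.{0}}

section
variable (h : Elementary X Y j) (hX : IsTransClass X) (hY : IsTransClass Y)
include h hX hY

lemma Elementary.mem {x y : ZFSet.{0}} (hx : x ∈ X) (hy : y ∈ X) : x ∈ y ↔ j x ∈ j y :=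
  h.abs hX hY (Abs.mem 0 1) (cons_in hx (const_in hy))

lemma Elementary.inj {x y : ZFSet.{0}} (hx : x ∈ X) (hy : y ∈ X) : x = y ↔ j x = j y :=
  h.abs hX hY (Abs.eq 0 1) (cons_in hx (const_in hy))

lemma Elementary.sub {x y : ZFSet.{0}} (hx : x ∈ X) (hy : y ∈ X) : x ⊆ y ↔ j x ⊆ j y :=
  h.abs hX hY (Abs.sub 0 1) (cons_in hx (const_in hy))

lemma Elementary.pair {x y : ZFSet.{0}} (hp : pair x y ∈ X) : j (pair x y) = pair (j x) (j y) := by
  have hxy : ({x, y} : ZFSet) ∈ X := hX _ hp _ (by simp [ZFSet.pair])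
  have hx : x ∈ X := hX _ hxy _ (by simp)
  have hy : y ∈ X := hX _ hxy _ (by simp)
  have := (h.abs hX hY (Abs.isPair 0 1 2) (cons_in hp (cons_in hx (const_in hy)))).1
    (isPair_EV.2 rfl)
  exact isPair_EV.1 this

lemma Elementary.val {f x y : ZFSet.{0}} (hf : f ∈ X) (hx : x ∈ X) (hy : y ∈ X) :
    ZFSet.pair x y ∈ f ↔ ZFSet.pair (j x) (j y) ∈ j f := by
  have := (h.abs hX hY (Abs.val 0 1 2) (cons_in hf (cons_in hx (const_in hy))))
  have h1 : ZFSet.pair x y ∈ f ↔ Val EV f x y := val_EV.symm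
  have h2 : ZFSet.pair (j x) (j y) ∈ j f ↔ Val EV (j f) (j x) (j y) := val_EV.symm
  rw [h1, h2]
  exact this

lemma Elementary.isFunc {f a b : ZFSet.{0}} (hf : f ∈ X) (ha : a ∈ X) (hb : b ∈ X) :
    IsFunc a b f ↔ IsFunc (j a) (j b) (j f) := by
  have := (h.abs hX hY (Abs.isFun 0 1 2) (cons_in hf (cons_in ha (const_in hb))))
  rw [← isFun_EV, ← isFun_EV]
  exact this

lemma Elementary.insert {x : ZFSet.{0}} (hp : insert x x ∈ X) :
    j (insert x x) = insert (j x) (j x) := by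
  have hx : x ∈ X := hX _ hp _ (by simp)
  have := (h.abs hX hY (Abs.isSucc 0 1) (cons_in hp (const_in hx))).1 (isSucc_EV.2 rfl)
  exact isSucc_EV.1 this

lemma Elementary.ord {α : Ordinal.{0}} (ha : α.toZFSet ∈ X) :
    ∃ β : Ordinal.{0}, j α.toZFSet = β.toZFSet := by
  have := (h.abs hX hY (Abs.isOrd 0) (const_in ha)).1 (isOrd_EV_iff.2 ⟨α, rfl⟩)
  exact isOrd_EV_iff.1 this

end
end

/-! ### ranks -/

lemma rank_opair (x y : ZFSet.{0}) :
    rank (pair x y) = succ (succ (max (rank x) (rank y))) := by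
  unfold pair
  rw [rank_pair, rank_pair, rank_singleton]
  rw [max_eq_right (succ_le_succ (le_max_left _ _))]
  congr 1
  rcases le_total (rank x) (rank y) with h | h
  · rw [max_eq_right (succ_le_succ h), max_eq_right h]
  · rw [max_eq_left (succ_le_succ h), max_eq_left h]

lemma add_two_lt {ρ a : Ordinal.{0}} (hρ : IsSuccLimit ρ) (h : a < ρ) : succ (succ a) < ρ :=
  hρ.succ_lt (hρ.succ_lt h)

lemma opair_mem_V {ρ : Ordinal.{0}} (hρ : IsSuccLimit ρ) {x y : ZFSet.{0}} (hx : x ∈ V_ ρ)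
    (hy : y ∈ V_ ρ) : pair x y ∈ V_ ρ := by
  rw [mem_vonNeumann] at *
  rw [rank_opair]
  exact add_two_lt hρ (max_lt hx hy)

/-- `x` has smaller rank than the ordinal `a` -/
def RankLt {M : Type 1} (E : M → M → Prop) (x a : M) : Prop :=
  ∃ f, (∃ u, Val E f x u ∧ E u a) ∧
    ∀ y u, Val E f y u → ∀ z, E z y → ∃ t, Val E f z t ∧ E t u

lemma FO.rankLt (i j : ℕ) : FO (fun (M : Type 1) (E : M → M → Prop) v => RankLt E (v i) (v j)) :=
  FO.ex (FO.and (FO.ex (FO.and (FO.val _ _ _) (FO.mem _ _)))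
    (FO.all (FO.all (FO.imp (FO.val _ _ _) (FO.all (FO.imp (FO.mem _ _)
      (FO.ex (FO.and (FO.val _ _ _) (FO.mem _ _)))))))))

lemma val_on {X : Set ZFSet.{0}} (hX : IsTransClass X) (f x y : X) :
    Val (memOn X) f x y ↔ pair x.1 y.1 ∈ f.1 := by
  have := (Abs.val 0 1 2).abs X hX (cons f (cons x (fun _ => y)))
  rw [← val_EV]
  exact this

lemma pair_parts {X : Set ZFSet.{0}} (hX : IsTransClass X) {x y : ZFSet.{0}} (h : pair x y ∈ X) :
    x ∈ X ∧ y ∈ X := by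
  have hxy : ({x, y} : ZFSet) ∈ X := hX _ h _ (by simp [ZFSet.pair])
  exact ⟨hX _ hxy _ (by simp), hX _ hxy _ (by simp)⟩

lemma rankLt_sound {X : Set ZFSet.{0}} (hX : IsTransClass X) {x a : X}
    (h : RankLt (memOn X) x a) : rank x.1 < rank a.1 := by
  obtain ⟨f, ⟨u, hu, hua⟩, hf⟩ := h
  have key : ∀ y : ZFSet.{0}, ∀ u, pair y u ∈ f.1 → rank y ≤ rank u := by
    intro y
    induction y using ZFSet.inductionOn with
    | _ y ih =>
      intro u hyu
      rw [rank_le_iff]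
      intro z hz
      obtain ⟨hy', hu'⟩ := pair_parts hX (hX _ f.2 _ hyu)
      have hz' : z ∈ X := hX _ hy' _ hz
      obtain ⟨t, ht, htu⟩ := hf ⟨y, hy'⟩ ⟨u, hu'⟩ ((val_on hX _ _ _).2 hyu) ⟨z, hz'⟩ hz
      exact (ih z hz t.1 ((val_on hX _ _ _).1 ht)).trans_lt (rank_lt_of_mem htu)
  exact (key _ _ ((val_on hX _ _ _).1 hu)).trans_lt (rank_lt_of_mem hua)

/-- the rank function on `V_α` -/
noncomputable def rkGraph (α : Ordinal.{0}) : ZFSet.{0} :=
  ZFSet.sep (fun p => ∃ y ∈ V_ α, p = pair y (rank y).toZFSet) (V_ (succ (succ α)))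

lemma mem_rkGraph {α : Ordinal.{0}} {y u : ZFSet.{0}} :
    pair y u ∈ rkGraph α ↔ y ∈ V_ α ∧ u = (rank y).toZFSet := by
  unfold rkGraph
  rw [mem_sep]
  constructor
  · rintro ⟨_, y', hy', h⟩
    obtain ⟨rfl, rfl⟩ := pair_inj.1 h
    exact ⟨hy', rfl⟩
  · rintro ⟨h1, rfl⟩
    refine ⟨?_, y, h1, rfl⟩
    rw [mem_vonNeumann] at *
    rw [rank_opair, rank_toZFSet, max_self]
    exact succ_lt_succ (succ_lt_succ h1)

lemma rkGraph_mem {α ρ : Ordinal.{0}} (hρ : IsSuccLimit ρ) (h : α < ρ) : rkGraph α ∈ V_ ρ := by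
  rw [mem_vonNeumann]
  have h1 : rank (rkGraph α) ≤ succ (succ α) := by
    rw [← subset_vonNeumann]
    exact sep_subset
  exact h1.trans_lt (add_two_lt hρ h)

lemma rankLt_complete {X : Set ZFSet.{0}} (hX : IsTransClass X) {ρ : Ordinal.{0}}
    (hρ : IsSuccLimit ρ) (hV : ∀ x ∈ V_ ρ, x ∈ X) {x a : X} (hx : x.1 ∈ V_ ρ)
    {α : Ordinal.{0}} (ha : a.1 = α.toZFSet) (h : rank x.1 < α) : RankLt (memOn X) x a := by
  have hx' : rank x.1 < ρ := by rwa [mem_vonNeumann] at hx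
  have hr : succ (rank x.1) < ρ := hρ.succ_lt hx'
  have hf := rkGraph_mem hρ hr
  have hu : (rank x.1).toZFSet ∈ X := hX _ a.2 _ (by rw [ha]; simpa using h)
  refine ⟨⟨rkGraph (succ (rank x.1)), hV _ hf⟩, ⟨⟨(rank x.1).toZFSet, hu⟩, ?_, ?_⟩, ?_⟩
  · rw [val_on hX, mem_rkGraph]
    exact ⟨by rw [mem_vonNeumann]; exact lt_succ _, rfl⟩
  · change (rank x.1).toZFSet ∈ a.1
    rw [ha]; simpa using h
  · intro y u hyu z hz
    rw [val_on hX, mem_rkGraph] at hyu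
    obtain ⟨hy, hu'⟩ := hyu
    have hlt : rank z.1 < rank y.1 := rank_lt_of_mem hz
    have hmem : (rank z.1).toZFSet ∈ u.1 := by rw [hu']; simpa using hlt
    refine ⟨⟨(rank z.1).toZFSet, hX _ u.2 _ hmem⟩, ?_, hmem⟩
    rw [val_on hX, mem_rkGraph]
    refine ⟨?_, rfl⟩
    rw [mem_vonNeumann] at *
    exact hlt.trans hy

end Pool.Agent.MP_6fa13c_lc
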