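import Pool.Agent.Lib_MP_6fa13c_lc.Code

/-!
# Reflection: below a `1`-extendible cardinal there is a set `A` with extenders to cofinally many
`V_β`
-/

namespace Pool.Agent.MP_6fa13c_lc

open ZFSet Ordinal Forcing Order Inner

lemma omClosed_V {κ : Ordinal.{0}} (h : Repl κ) : OmClosed (V_ κ) := by
  intro v
  obtain ⟨γ, hγ, h1⟩ := h.bdK h.ksNat (F := fun n => (v n).1) (fun n => (v n).2)
  have h2 : code (fun n => (v n).1) ⊆ V_ (succ (succ (max ω γ))) := by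
    intro p hp
    obtain ⟨n, rfl⟩ := mem_code.1 hp
    have h3 := h1 n
    rw [mem_vonNeumann] at h3 ⊢
    rw [rank_opair]
    apply succ_lt_succ
    apply succ_lt_succ
    apply max_lt
    · unfold nn
      rw [rank_toZFSet]
      exact (natCast_lt_omega0 n).trans_le (le_max_left _ _)
    · exact h3.trans_le (le_max_right _ _)
  rw [subset_vonNeumann] at h2
  rw [mem_vonNeumann]
  exact h2.trans_lt (add_two_lt h.lim (max_lt h.om hγ))

lemma omCl_sem {X : Set ZFSet.{0}} (hX : IsTransClass X) {b w : X} (hw : w.1 = omg)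
    (h : OmClosed b.1) : OmCl (memOn X) b w := by
  intro s hs
  have h1 := ((Abs.isFun 0 1 2).abs X hX (cons s (cons w (fun _ => b)))).1 hs
  change IsFun EV s.1 w.1 b.1 at h1
  rw [hw] at h1
  obtain ⟨v, hv⟩ := isFunc_code (isFun_EV.1 h1)
  change s.1 ∈ b.1
  rw [hv]
  exact h v

lemma sem_omCl {X : Set ZFSet.{0}} (hX : IsTransClass X) {b w : X} (hw : w.1 = omg)
    (hc : ∀ v : ℕ → (b.1 : Set ZFSet.{0}), cd v ∈ X)
    (h : OmCl (memOn X) b w) : OmClosed b.1 := by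
  intro v
  refine h ⟨cd v, hc v⟩ (((Abs.isFun 0 1 2).abs X hX
    (cons ⟨cd v, hc v⟩ (cons w (fun _ => b)))).2 ?_)
  change IsFun EV (cd v) w.1 b.1
  rw [hw]
  exact isFun_cd v

lemma goodD_on {X : Set ZFSet.{0}} (hX : IsTransClass X) (a pa b k w : X) :
    GoodD (memOn X) a pa b k w ↔ GoodD EV a.1 pa.1 b.1 k.1 w.1 :=
  (Abs.goodD 0 1 2 3 4).abs X hX (cons a (cons pa (cons b (cons k (fun _ => w)))))

section
variable {κ lam : Ordinal.{0}} {j : ZFSet.{0} → ZFSet.{0}}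

/-- the code of `j` on the subsets of `V_κ` -/
noncomputable def jcode (κ lam : Ordinal.{0}) (j : ZFSet.{0} → ZFSet.{0}) : ZFSet.{0} :=
  ZFSet.sep (fun p => ∃ S b, S ⊆ V_ κ ∧ p = pair S b ∧ b ∈ j S) (V_ lam)

lemma OE.mem_jcode (h : OE κ lam j) {S b : ZFSet.{0}} :
    pair S b ∈ jcode κ lam j ↔ S ⊆ V_ κ ∧ b ∈ j S := by
  unfold jcode
  rw [mem_sep]
  constructor
  · rintro ⟨_, S', b', h1, h2, h3⟩
    obtain ⟨rfl, rfl⟩ := pair_inj.1 h2
    exact ⟨h1, h3⟩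
  · rintro ⟨h1, h2⟩
    refine ⟨opair_mem_V h.limLam ?_ ?_, S, b, h1, rfl, h2⟩
    · rw [mem_vonNeumann]
      rw [subset_vonNeumann] at h1
      exact h1.trans_lt h.lt
    · have h3 := h.el.maps (mem_V1.2 h1)
      exact mem_V1.1 h3 h2

lemma OE.good (h : OE κ lam j) :
    GoodD EV (V_ κ) (V_ (κ + 1)) (V_ lam) (jcode κ lam j) omg := by
  have hX := transV (κ + 1)
  have hY := transV (lam + 1)
  have hsub : ∀ x ∈ V_ κ, x ∈ V_ (κ + 1) :=
    fun _ hx => vonNeumann_subset_of_le (le_of_lt (lt_add_one κ)) hx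
  have homV : omg ∈ V_ κ := mem_V_of_lt h.om
  refine ⟨fun x hx y hy => transV κ _ hx _ hy, fun x _ => mem_V1, homV, ?_, ?_, ?_⟩
  · exact vonNeumann_mem_of_lt h.lt
  · exact vonNeumann_mem_of_lt (h.limLam.succ_lt h.lt)
  · intro c i hi i' hi' r hr S hS S' hS' T hT hop
    have hi2 : i ∈ V_ κ := transV κ _ homV _ hi
    have hi2' : i' ∈ V_ κ := transV κ _ homV _ hi'
    have hA : Abs (fun _ E v => Op E c (v 0) (v 1) (v 2) (v 3) (v 4)
        (fun s => E s (v 5)) (fun s => E s (v 6)) (fun s => E s (v 7))) :=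
      Abs.op c 0 1 2 3 4 (Abs.mem _ _) (Abs.mem _ _) (Abs.mem _ _)
    have h1 := (h.el.abs hX hY hA (cons_in (hsub _ homV) (cons_in OE.V_mem (cons_in (hsub _ hi2)
      (cons_in (hsub _ hi2') (cons_in (hsub _ hr) (cons_in hS (cons_in hS' (const_in hT))))))))).1
      hop
    change Op EV c (j omg) (j (V_ κ)) (j i) (j i') (j r) (fun s => EV s (j S))
      (fun s => EV s (j S')) (fun s => EV s (j T)) at h1
    rw [h.fix _ homV, h.jV, h.fix _ hi2, h.fix _ hi2', h.fix _ hr] at h1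
    have e : ∀ S, S ∈ V_ (κ + 1) → (fun s => Val EV (jcode κ lam j) S s) = (fun s => EV s (j S)) := by
      intro S hS
      funext s
      rw [eq_iff_iff, val_EV, h.mem_jcode]
      exact ⟨fun h => h.2, fun h => ⟨mem_V1.1 hS, h⟩⟩
    rw [e S hS, e S' hS', e T hT]
    exact h1

lemma jcode_mem (κ lam : Ordinal.{0}) (j : ZFSet.{0} → ZFSet.{0}) :
    jcode κ lam j ∈ V_ (lam + 1) := mem_V1.2 sep_subset

theorem OE.reflect2 (h : OE κ lam j) {A PA K₀ : ZFSet.{0}} (hA : A ∈ V_ κ) (hPA : PA ∈ V_ κ)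
    (hK₀ : K₀ ⊆ V_ κ) (hg : GoodD EV A PA (V_ κ) K₀ omg) {γ : Ordinal.{0}} (hγ : γ < κ) :
    ∃ β, γ < β ∧ β < κ ∧ OmClosed (V_ β) ∧ ∃ K, K ⊆ V_ β ∧ GoodD EV A PA (V_ β) K omg := by
  have hX := transV (κ + 1)
  have hY := transV (lam + 1)
  have hκ := h.repl
  have hsub : ∀ x ∈ V_ κ, x ∈ V_ (κ + 1) :=
    fun _ hx => vonNeumann_subset_of_le (le_of_lt (lt_add_one κ)) hx
  have hsub' : ∀ x ∈ V_ lam, x ∈ V_ (lam + 1) :=
    fun _ hx => vonNeumann_subset_of_le (le_of_lt (lt_add_one lam)) hx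
  have homV : omg ∈ V_ κ := mem_V_of_lt h.om
  have hγV : γ.toZFSet ∈ V_ κ := mem_V_of_lt hγ
  have hlamsub : ∀ x ∈ V_ κ, x ∈ V_ lam := fun x hx => vonNeumann_subset_of_le h.lt.le hx
  -- variables: C, w, g, A, PA
  have hR : FO (fun (M : Type 1) (E : M → M → Prop) v => ∃ B, E B (v 0) ∧ ∃ b, E b (v 0) ∧
      IsOrd E b ∧ E (v 2) b ∧ (∀ x, E x (v 0) → (E x B ↔ RankLt E x b)) ∧ OmCl E B (v 1) ∧
      ∃ K, E K (v 0) ∧ (∀ x, E x K → E x B) ∧ GoodD E (v 3) (v 4) B K (v 1)) :=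
    FO.ex (FO.and (FO.mem _ _) (FO.ex (FO.and (FO.mem _ _) (FO.and (Abs.isOrd 0).fo
      (FO.and (FO.mem _ _) (FO.and (FO.all (FO.imp (FO.mem _ _) (FO.iff (FO.mem _ _)
      (FO.rankLt _ _)))) (FO.and (FO.omCl _ _) (FO.ex (FO.and (FO.mem _ _)
      (FO.and (FO.all (FO.imp (FO.mem _ _) (FO.mem _ _))) (Abs.goodD _ _ _ _ _).fo))))))))))
  have h1 := (h.el.tr hR (cons_in OE.V_mem (cons_in (hsub _ homV) (cons_in (hsub _ hγV)
      (cons_in (hsub _ hA) (const_in (hsub _ hPA))))))).2 (by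
    have e0 : j (V_ κ) = V_ lam := h.jV
    have e1 : j omg = omg := h.fix _ homV
    refine ⟨⟨V_ κ, hsub' _ (vonNeumann_mem_of_lt h.lt)⟩, ?_,
      ⟨κ.toZFSet, hsub' _ (mem_V_of_lt h.lt)⟩, ?_, ?_, ?_, ?_, ?_, ?_⟩
    · change V_ κ ∈ j (V_ κ)
      rw [e0]; exact vonNeumann_mem_of_lt h.lt
    · change κ.toZFSet ∈ j (V_ κ)
      rw [e0]; exact mem_V_of_lt h.lt
    · exact ((Abs.isOrd 0).abs _ hY (fun _ => ⟨κ.toZFSet, hsub' _ (mem_V_of_lt h.lt)⟩)).2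
        (isOrd_EV_iff.2 ⟨κ, rfl⟩)
    · change j γ.toZFSet ∈ κ.toZFSet
      rw [h.fix _ hγV]
      exact toZFSet_mem hγ
    · intro x hx
      change x.1 ∈ j (V_ κ) at hx
      rw [e0] at hx
      constructor
      · intro hx2
        change x.1 ∈ V_ κ at hx2
        rw [mem_vonNeumann] at hx2
        exact rankLt_complete hY h.limLam hsub' hx (α := κ) rfl hx2
      · intro hx2
        have h3 := rankLt_sound hY hx2
        change rank x.1 < rank κ.toZFSet at h3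
        rw [rank_toZFSet] at h3
        change x.1 ∈ V_ κ
        rw [mem_vonNeumann]; exact h3
    · exact omCl_sem hY e1 (omClosed_V hκ)
    · have hK₀' : K₀ ∈ V_ lam := by
        rw [mem_vonNeumann]
        rw [subset_vonNeumann] at hK₀
        exact hK₀.trans_lt h.lt
      refine ⟨⟨K₀, hsub' _ hK₀'⟩, ?_, fun x hx => hK₀ hx, ?_⟩
      · change K₀ ∈ j (V_ κ)
        rw [e0]; exact hK₀'
      · rw [goodD_on hY]
        change GoodD EV (j A) (j PA) (V_ κ) K₀ (j omg)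
        rw [h.fix _ hA, h.fix _ hPA, e1]
        exact hg)
  obtain ⟨B, hB, b, hb, hord, hγb, hrk, hcl, K, hK, hKB, hgood⟩ := h1
  have h2 := ((Abs.isOrd 0).abs _ hX (fun _ => b)).1 hord
  obtain ⟨β, hβ⟩ := isOrd_EV_iff.1 h2
  change b.1 = β.toZFSet at hβ
  have hbV : b.1 ∈ V_ κ := hb
  have hβκ : β < κ := by rw [hβ] at hbV; exact lt_of_mem_V hbV
  have hγβ : γ < β := by
    have h3 : γ.toZFSet ∈ b.1 := hγb
    rw [hβ, toZFSet_mem_toZFSet_iff] at h3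
    exact h3
  have hBV : B.1 = V_ β := by
    ext x
    constructor
    · intro hx
      have hxV : x ∈ V_ κ := transV κ _ hB _ hx
      have h3 := rankLt_sound hX ((hrk ⟨x, hsub _ hxV⟩ hxV).1 hx)
      change rank x < rank b.1 at h3
      rw [hβ, rank_toZFSet] at h3
      rw [mem_vonNeumann]; exact h3
    · intro hx
      rw [mem_vonNeumann] at hx
      have hxV : x ∈ V_ κ := by rw [mem_vonNeumann]; exact hx.trans hβκ
      exact (hrk ⟨x, hsub _ hxV⟩ hxV).2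
        (rankLt_complete hX h.lim hsub hxV hβ hx)
  rw [goodD_on hX] at hgood
  change GoodD EV A PA B.1 K.1 omg at hgood
  rw [hBV] at hgood
  refine ⟨β, hγβ, hβκ, ?_, K.1, fun x hx => ?_, hgood⟩
  swap
  · rw [← hBV]
    exact hKB ⟨x, hX _ K.2 _ hx⟩ hx
  rw [← hBV]
  refine sem_omCl hX rfl (fun v => ?_) hcl
  have hBV2 : ∀ x ∈ B.1, x ∈ V_ κ := fun x hx => transV κ _ hB _ hx
  exact hsub _ (omClosed_V hκ (fun n => ⟨(v n).1, hBV2 _ (v n).2⟩))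

theorem OE.reflect1 (h : OE κ lam j) :
    ∃ A ∈ V_ κ, ∃ PA ∈ V_ κ, ∃ K, K ⊆ V_ κ ∧ OmClosed A ∧ GoodD EV A PA (V_ κ) K omg := by
  have hX := transV (κ + 1)
  have hY := transV (lam + 1)
  have hκ := h.repl
  have hsub : ∀ x ∈ V_ κ, x ∈ V_ (κ + 1) :=
    fun _ hx => vonNeumann_subset_of_le (le_of_lt (lt_add_one κ)) hx
  have hsub' : ∀ x ∈ V_ lam, x ∈ V_ (lam + 1) :=
    fun _ hx => vonNeumann_subset_of_le (le_of_lt (lt_add_one lam)) hx
  have homV : omg ∈ V_ κ := mem_V_of_lt h.om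
  have hR : FO (fun (M : Type 1) (E : M → M → Prop) v => ∃ A, E A (v 0) ∧ ∃ PA, E PA (v 0) ∧
      ∃ K, OmCl E A (v 1) ∧ GoodD E A PA (v 0) K (v 1)) :=
    FO.ex (FO.and (FO.mem _ _) (FO.ex (FO.and (FO.mem _ _) (FO.ex (FO.and (FO.omCl _ _)
      (Abs.goodD _ _ _ _ _).fo)))))
  have h1 := (h.el.tr hR (cons_in OE.V_mem (const_in (hsub _ homV)))).2 (by
    have e0 : j (V_ κ) = V_ lam := h.jV
    have e1 : j omg = omg := h.fix _ homV
    refine ⟨⟨V_ κ, hsub' _ (vonNeumann_mem_of_lt h.lt)⟩, ?_, ⟨V_ (κ + 1), hsub' _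
      (vonNeumann_mem_of_lt (h.limLam.succ_lt h.lt))⟩, ?_, ⟨jcode κ lam j, jcode_mem κ lam j⟩,
      ?_, ?_⟩
    · change V_ κ ∈ j (V_ κ)
      rw [e0]; exact vonNeumann_mem_of_lt h.lt
    · change V_ (κ + 1) ∈ j (V_ κ)
      rw [e0]; exact vonNeumann_mem_of_lt (h.limLam.succ_lt h.lt)
    · exact omCl_sem hY e1 (omClosed_V hκ)
    · rw [goodD_on hY]
      change GoodD EV (V_ κ) (V_ (κ + 1)) (j (V_ κ)) (jcode κ lam j) (j omg)
      rw [e0, e1]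
      exact h.good)
  obtain ⟨A, hA, PA, hPA, K, hcl, hgood⟩ := h1
  rw [goodD_on hX] at hgood
  change GoodD EV A.1 PA.1 (V_ κ) K.1 omg at hgood
  refine ⟨A.1, hA, PA.1, hPA, K.1, mem_V1.1 K.2, ?_, hgood⟩
  refine sem_omCl hX rfl (fun v => ?_) hcl
  -- codes of sequences of elements of `A` belong to `V_κ`
  have hAV : ∀ x ∈ A.1, x ∈ V_ κ := fun x hx => transV κ _ hA _ hx
  exact hsub _ (omClosed_V hκ (fun n => ⟨(v n).1, hAV _ (v n).2⟩))

theorem OE.reflect (h : OE κ lam j) : ∃ A ∈ V_ κ, IsTransClass A ∧ omg ∈ A ∧ OmClosed A ∧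
    ∀ γ < κ, ∃ β, γ < β ∧ β < κ ∧ A ∈ V_ β ∧ OmClosed (V_ β) ∧
      ∃ e : Ext A (V_ β), ∀ x, e.ι x = x := by
  obtain ⟨A, hA, PA, hPA, K₀, hK₀, hcl, hg⟩ := h.reflect1
  refine ⟨A, hA, fun x hx y hy => hg.1 x hx y hy, hg.2.2.1, hcl, fun γ hγ => ?_⟩
  obtain ⟨β, h1, h2, h3, K, _, h4⟩ := h.reflect2 hA hPA hK₀ hg hγ
  exact ⟨β, h1, h2, h4.2.2.2.1, h3, exists_ext hcl h3 h4⟩

end

end Pool.Agent.MP_6fa13c_lc
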