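import Pool.Agent.Lib_MP_6fa13c_lc.OneExt

/-!
# Replacement in `V_κ` for `1`-extendible `κ`; small families
-/

namespace Pool.Agent.MP_6fa13c_lc

open ZFSet Ordinal Forcing Order Inner

/-- the graph of `F` on `a`, as a subset of `V_κ` -/
noncomputable def graph (κ : Ordinal.{0}) (a : ZFSet.{0}) (F : ZFSet.{0} → ZFSet.{0}) : ZFSet.{0} :=
  ZFSet.sep (fun p => ∃ x ∈ a, p = pair x (F x)) (V_ κ)

lemma mem_graph {κ : Ordinal.{0}} (hκ : IsSuccLimit κ) {a : ZFSet.{0}} {F : ZFSet.{0} → ZFSet.{0}}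
    (ha : ∀ x ∈ a, x ∈ V_ κ) (hF : ∀ x ∈ a, F x ∈ V_ κ) {x y : ZFSet.{0}} :
    pair x y ∈ graph κ a F ↔ x ∈ a ∧ y = F x := by
  unfold graph
  rw [mem_sep]
  constructor
  · rintro ⟨_, x', hx', h⟩
    obtain ⟨rfl, rfl⟩ := pair_inj.1 h
    exact ⟨hx', rfl⟩
  · rintro ⟨h1, rfl⟩
    exact ⟨opair_mem_V hκ (ha _ h1) (hF _ h1), x, h1, rfl⟩

lemma graph_mem (κ : Ordinal.{0}) (a : ZFSet.{0}) (F : ZFSet.{0} → ZFSet.{0}) :
    graph κ a F ∈ V_ (κ + 1) := mem_V1.2 sep_subset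

lemma OE.repl {κ lam : Ordinal.{0}} {j : ZFSet.{0} → ZFSet.{0}} (h : OE κ lam j) : Repl κ := by
  refine ⟨h.lim, h.om, fun a ha F hF => ?_⟩
  by_contra hcon
  push Not at hcon
  have hX := transV (κ + 1)
  have hY := transV (lam + 1)
  have hsub : ∀ x ∈ V_ κ, x ∈ V_ (κ + 1) :=
    fun _ hx => vonNeumann_subset_of_le (le_of_lt (lt_add_one κ)) hx
  have haV : ∀ x ∈ a, x ∈ V_ κ := fun x hx => transV κ _ ha _ hx
  let G := graph κ a F
  have hG : G ∈ V_ (κ + 1) := graph_mem κ a F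
  have haX := hsub _ ha
  have hR1 : FO (fun (M : Type 1) (E : M → M → Prop) v =>
      ∀ g, E g (v 0) → ∃ x, E x (v 1) ∧ ∃ y, Val E (v 2) x y ∧ ¬ RankLt E y g) :=
    FO.all (FO.imp (FO.mem _ _) (FO.ex (FO.and (FO.mem _ _) (FO.ex (FO.and (FO.val _ _ _)
      (FO.not (FO.rankLt _ _)))))))
  have h1 := (h.el.tr hR1 (cons_in OE.κ_mem (cons_in haX (const_in hG)))).1 (by
    intro g hg
    change g.1 ∈ κ.toZFSet at hg
    obtain ⟨γ, hγ, hg2⟩ := mem_toZFSet_iff.1 hg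
    obtain ⟨x, hx, hxF⟩ := hcon γ hγ
    refine ⟨⟨x, hsub _ (haV x hx)⟩, hx, ⟨F x, hsub _ (hF x hx)⟩, ?_, ?_⟩
    · rw [val_on hX]
      exact (mem_graph h.lim haV hF).2 ⟨hx, rfl⟩
    · intro h2
      have h3 := rankLt_sound hX h2
      rw [← hg2, rank_toZFSet] at h3
      exact hxF (by rw [mem_vonNeumann]; exact h3))
  have hR2 : FO (fun (M : Type 1) (E : M → M → Prop) v =>
      ∀ x y z, Val E (v 0) x y → Val E (v 0) x z → y = z) :=
    FO.all (FO.all (FO.all (FO.imp (FO.val _ _ _) (FO.imp (FO.val _ _ _) (FO.eq _ _)))))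
  have h2 := (h.el.tr hR2 (const_in hG)).1 (by
    intro x y z hy hz
    rw [val_on hX] at hy hz
    rw [Subtype.ext_iff, ((mem_graph h.lim haV hF).1 hy).2, ((mem_graph h.lim haV hF).1 hz).2])
  have hκY : κ.toZFSet ∈ V_ (lam + 1) := mem_V_of_lt (h.lt.trans (lt_add_one _))
  obtain ⟨x, hx, y, hxy, hr⟩ := h1 ⟨κ.toZFSet, hκY⟩ (by
    change κ.toZFSet ∈ j κ.toZFSet
    rw [h.jκ]; exact toZFSet_mem h.lt)
  change x.1 ∈ j a at hx
  rw [h.fix a ha] at hx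
  have hxF : pair x.1 (F x.1) ∈ G := (mem_graph h.lim haV hF).2 ⟨hx, rfl⟩
  have h3 := (h.el.val hX hY hG (hsub _ (haV _ hx)) (hsub _ (hF _ hx))).1 hxF
  rw [h.fix _ (haV _ hx), h.fix _ (hF _ hx)] at h3
  have hFY : F x.1 ∈ V_ (lam + 1) := by
    have := h.el.maps (hsub _ (hF _ hx))
    rwa [h.fix _ (hF _ hx)] at this
  have h4 : y = ⟨F x.1, hFY⟩ := h2 x y ⟨F x.1, hFY⟩ hxy ((val_on hY _ _ _).2 h3)
  apply hr
  have hy4 : y.1 = F x.1 := congrArg Subtype.val h4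
  have hyκ : rank y.1 < κ := by
    rw [hy4]; have := hF _ hx; rwa [mem_vonNeumann] at this
  refine rankLt_complete hY h.limLam ?_ ?_ rfl hyκ
  · intro x hx
    exact vonNeumann_subset_of_le (le_of_lt (lt_add_one lam)) hx
  · rw [mem_vonNeumann]; exact hyκ.trans h.lt

namespace Repl
variable {κ : Ordinal.{0}} (h : Repl κ)
include h

lemma replacement {a : ZFSet.{0}} (ha : a ∈ V_ κ) {F : ZFSet.{0} → ZFSet.{0}}
    (hF : ∀ x ∈ a, F x ∈ V_ κ) : ∃ b ∈ V_ κ, ∀ y, y ∈ b ↔ ∃ x ∈ a, F x = y := by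
  obtain ⟨γ, hγ, h1⟩ := h.bd a ha F hF
  refine ⟨ZFSet.sep (fun y => ∃ x ∈ a, F x = y) (V_ γ), ?_, fun y => ?_⟩
  · rw [mem_vonNeumann]
    refine lt_of_le_of_lt ?_ hγ
    rw [← subset_vonNeumann]
    exact sep_subset
  · rw [mem_sep]
    constructor
    · exact fun h => h.2
    · rintro ⟨x, hx, rfl⟩
      exact ⟨h1 x hx, x, hx, rfl⟩

theorem modelsZFC : ModelsZFC (memOn (V_ κ)) := by
  have hX := transV κ
  have hsub : ∀ {x y : ZFSet.{0}}, x ⊆ y → y ∈ V_ κ → x ∈ V_ κ := fun h1 h2 =>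
    mem_vonNeumann_of_subset h1 h2
  refine ⟨?_, ?_, ?_, ?_, ?_, ?_, ?_, ?_, ?_⟩
  · intro x y hxy
    apply Subtype.ext
    ext z
    constructor
    · intro hz
      exact (hxy ⟨z, hX _ x.2 _ hz⟩).1 hz
    · intro hz
      exact (hxy ⟨z, hX _ y.2 _ hz⟩).2 hz
  · rintro x ⟨y, hy⟩
    have hne : x.1 ≠ ∅ := by
      intro h0
      have : y.1 ∈ x.1 := hy
      rw [h0] at this
      exact notMem_empty _ this
    obtain ⟨z, hz, hz2⟩ := regularity x.1 hne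
    refine ⟨⟨z, hX _ x.2 _ hz⟩, hz, fun w hw hwz => ?_⟩
    have : w.1 ∈ x.1 ∩ z := mem_inter.2 ⟨hw, hwz⟩
    rw [hz2] at this
    exact notMem_empty _ this
  · intro x y
    have h1 : ({x.1, y.1} : ZFSet) ∈ V_ κ := by
      have hx := x.2
      have hy := y.2
      rw [SetLike.mem_coe, mem_vonNeumann] at hx hy
      rw [mem_vonNeumann, rank_pair]
      exact max_lt (h.lim.succ_lt hx) (h.lim.succ_lt hy)
    refine ⟨⟨_, h1⟩, fun w => ?_⟩
    change w.1 ∈ ({x.1, y.1} : ZFSet) ↔ _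
    rw [ZFSet.mem_pair, Subtype.ext_iff, Subtype.ext_iff]
  · intro x
    have h1 : (⋃₀ x.1 : ZFSet) ∈ V_ κ := by
      have hx := x.2
      rw [SetLike.mem_coe, mem_vonNeumann] at hx
      rw [mem_vonNeumann]
      exact (rank_sUnion_le _).trans_lt hx
    refine ⟨⟨_, h1⟩, fun z => ?_⟩
    change z.1 ∈ (⋃₀ x.1 : ZFSet) ↔ _
    rw [mem_sUnion]
    constructor
    · rintro ⟨y, hy, hz⟩
      exact ⟨⟨y, hX _ x.2 _ hy⟩, hy, hz⟩
    · rintro ⟨y, hy, hz⟩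
      exact ⟨y.1, hy, hz⟩
  · intro x
    have h1 : powerset x.1 ∈ V_ κ := by
      have hx := x.2
      rw [SetLike.mem_coe, mem_vonNeumann] at hx
      rw [mem_vonNeumann, ZFSet.rank_powerset]
      exact h.lim.succ_lt hx
    refine ⟨⟨_, h1⟩, fun z => ?_⟩
    change z.1 ∈ powerset x.1 ↔ _
    rw [mem_powerset]
    constructor
    · intro h2 w hw
      exact h2 hw
    · intro h2 w hw
      exact h2 ⟨w, hX _ z.2 _ hw⟩ hw
  · have h0 : (∅ : ZFSet) ∈ V_ κ := by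
      rw [mem_vonNeumann, rank_empty]; exact h.lim.bot_lt
    refine ⟨⟨(ω : Ordinal.{0}).toZFSet, mem_V_of_lt h.om⟩, ⟨⟨∅, h0⟩, ?_, fun z => notMem_empty _⟩, ?_⟩
    · change ∅ ∈ (ω : Ordinal.{0}).toZFSet
      rw [← toZFSet_zero]
      exact toZFSet_mem omega0_pos
    · intro x hx
      change x.1 ∈ (ω : Ordinal.{0}).toZFSet at hx
      obtain ⟨a, ha, hax⟩ := mem_toZFSet_iff.1 hx
      have h1 : (succ a).toZFSet ∈ (ω : Ordinal.{0}).toZFSet :=
        toZFSet_mem (isSuccLimit_omega0.succ_lt ha)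
      refine ⟨⟨(succ a).toZFSet, hX _ (mem_V_of_lt h.om) _ h1⟩, h1, fun z => ?_⟩
      change z.1 ∈ (succ a).toZFSet ↔ _
      rw [toZFSet_succ', hax, mem_insert_iff, Subtype.ext_iff]
      exact or_comm
  · intro φ i v a
    refine ⟨⟨ZFSet.sep (fun x => ∃ hx : x ∈ V_ κ, Sat (memOn (V_ κ)) φ
      (Function.update v i ⟨x, hx⟩)) a.1, hsub sep_subset a.2⟩, fun x => ?_⟩
    simp only [memOn, mem_sep]
    constructor
    · rintro ⟨h1, hx, h2⟩
      exact ⟨h1, h2⟩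
    · rintro ⟨h1, h2⟩
      exact ⟨h1, x.2, h2⟩
  · intro φ v a hfun
    classical
    let F : ZFSet.{0} → ZFSet.{0} := fun x =>
      if hx : x ∈ a.1 then (hfun ⟨x, hX _ a.2 _ hx⟩ hx).choose.1 else ∅
    have hF : ∀ x (hx : x ∈ a.1), F x = (hfun ⟨x, hX _ a.2 _ hx⟩ hx).choose.1 := by
      intro x hx
      simp only [F, dif_pos hx]
    obtain ⟨b, hb, hb2⟩ := h.replacement a.2 (F := F) (by
      intro x hx
      rw [hF x hx]
      exact (hfun ⟨x, hX _ a.2 _ hx⟩ hx).choose.2)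
    refine ⟨⟨b, hb⟩, fun y => ?_⟩
    change y.1 ∈ b ↔ _
    rw [hb2]
    constructor
    · rintro ⟨x, hx, hxy⟩
      refine ⟨⟨x, hX _ a.2 _ hx⟩, hx, ?_⟩
      rw [hF x hx] at hxy
      have h2 : (hfun ⟨x, hX _ a.2 _ hx⟩ hx).choose = y := Subtype.ext hxy
      rw [← h2]
      exact (hfun ⟨x, hX _ a.2 _ hx⟩ hx).choose_spec.1
    · rintro ⟨x, hx, hxy⟩
      refine ⟨x.1, hx, ?_⟩
      rw [hF x.1 hx]
      exact congrArg Subtype.val ((hfun x hx).choose_spec.2 y hxy).symm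
  · intro x hne hdis
    classical
    let c : ZFSet.{0} → ZFSet.{0} := fun y =>
      if hy : ∃ z, z ∈ y then hy.choose else ∅
    have hc : ∀ y ∈ x.1, c y ∈ y := by
      intro y hy
      obtain ⟨z, hz⟩ := hne ⟨y, hX _ x.2 _ hy⟩ hy
      have h1 : ∃ z, z ∈ y := ⟨z.1, hz⟩
      simp only [c, dif_pos h1]
      exact h1.choose_spec
    refine ⟨⟨ZFSet.sep (fun z => ∃ y ∈ x.1, z = c y) (⋃₀ x.1), ?_⟩, ?_⟩
    · have hx := x.2
      rw [SetLike.mem_coe, mem_vonNeumann] at hx ⊢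
      exact ((rank_mono sep_subset).trans (rank_sUnion_le _)).trans_lt hx
    · intro y hy
      have hcy := hc y.1 hy
      refine ⟨⟨c y.1, hX _ y.2 _ hcy⟩, ⟨hcy, ?_⟩, ?_⟩
      · simp only [memOn, mem_sep]
        exact ⟨mem_sUnion.2 ⟨y.1, hy, hcy⟩, y.1, hy, rfl⟩
      · rintro z ⟨hz1, hz2⟩
        simp only [memOn, mem_sep] at hz2
        obtain ⟨_, y', hy', hz3⟩ := hz2
        have h5 : y = ⟨y', hX _ x.2 _ hy'⟩ := by
          refine hdis y ⟨y', hX _ x.2 _ hy'⟩ hy hy' ⟨z, hz1, ?_⟩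
          change z.1 ∈ y'
          rw [hz3]
          exact hc y' hy'
        apply Subtype.ext
        change z.1 = c y.1
        have h6 : y.1 = y' := congrArg Subtype.val h5
        rw [hz3, h6]

end Repl

/-- the family `T` is small for `κ`: it is an image of an element of `V_κ` -/
def KSm (κ : Ordinal.{0}) (T : Type*) : Prop :=
  ∃ a ∈ V_ κ, ∃ g : ZFSet.{0} → T, ∀ t, ∃ x ∈ a, g x = t

namespace Repl
variable {κ : Ordinal.{0}} (h : Repl κ)
include h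

lemma bdK {T : Type*} (hT : KSm κ T) {F : T → ZFSet.{0}} (hF : ∀ t, F t ∈ V_ κ) :
    ∃ γ < κ, ∀ t, F t ∈ V_ γ := by
  obtain ⟨a, ha, g, hg⟩ := hT
  obtain ⟨γ, hγ, h1⟩ := h.bd a ha (fun x => F (g x)) (fun x _ => hF _)
  refine ⟨γ, hγ, fun t => ?_⟩
  obtain ⟨x, hx, rfl⟩ := hg t
  exact h1 x hx

lemma ksNat : KSm κ ℕ := by
  refine ⟨(ω : Ordinal.{0}).toZFSet, mem_V_of_lt h.om, fun x => (Cardinal.toNat (rank x).card), ?_⟩
  intro n
  refine ⟨(n : Ordinal.{0}).toZFSet, toZFSet_mem (natCast_lt_omega0 n), ?_⟩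
  beta_reduce
  rw [rank_toZFSet]
  simp

omit h in
lemma ksSet {a : ZFSet.{0}} (ha : a ∈ V_ κ) (hne : ∃ x, x ∈ a) : KSm κ (a : Set ZFSet.{0}) := by
  classical
  obtain ⟨x₀, hx₀⟩ := hne
  exact ⟨a, ha, fun x => if hx : x ∈ a then ⟨x, hx⟩ else ⟨x₀, hx₀⟩, fun t =>
    ⟨t.1, t.2, by simp only [dif_pos (show t.1 ∈ a from t.2)]⟩⟩

lemma ksProd {T S : Type*} (hT : KSm κ T) (hS : KSm κ S) : KSm κ (T × S) := by
  classical
  obtain ⟨a, ha, f, hf⟩ := hT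
  obtain ⟨b, hb, g, hg⟩ := hS
  refine ⟨ZFSet.sep (fun p => ∃ x ∈ a, ∃ y ∈ b, p = pair x y)
    (V_ (succ (succ (max (rank a) (rank b))))), ?_, fun p =>
    if hp : ∃ x y, p = pair x y then (f hp.choose, g hp.choose_spec.choose) else (f ∅, g ∅), ?_⟩
  · rw [mem_vonNeumann]
    have h1 : rank (ZFSet.sep (fun p => ∃ x ∈ a, ∃ y ∈ b, p = pair x y)
        (V_ (succ (succ (max (rank a) (rank b)))))) ≤ succ (succ (max (rank a) (rank b))) := by
      rw [← subset_vonNeumann]; exact sep_subset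
    refine h1.trans_lt (add_two_lt h.lim ?_)
    rw [mem_vonNeumann] at ha hb
    exact max_lt ha hb
  · rintro ⟨t, s⟩
    obtain ⟨x, hx, rfl⟩ := hf t
    obtain ⟨y, hy, rfl⟩ := hg s
    refine ⟨pair x y, ?_, ?_⟩
    · rw [mem_sep]
      refine ⟨?_, x, hx, y, hy, rfl⟩
      rw [mem_vonNeumann, rank_opair]
      have h1 : max (rank x) (rank y) < max (rank a) (rank b) :=
        max_lt ((rank_lt_of_mem hx).trans_le (le_max_left _ _))
          ((rank_lt_of_mem hy).trans_le (le_max_right _ _))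
      exact succ_lt_succ (succ_lt_succ h1)
    · have hp : ∃ x' y', pair x y = pair x' y' := ⟨x, y, rfl⟩
      beta_reduce
      rw [dif_pos hp]
      have h2 := hp.choose_spec.choose_spec
      obtain ⟨e1, e2⟩ := pair_inj.1 h2
      exact Prod.ext (congrArg f e1.symm) (congrArg g e2.symm)

lemma ksFun {T S : Type*} (hT : KSm κ T) (hS : KSm κ S) : KSm κ (T → S) := by
  classical
  obtain ⟨a, ha, f, hf⟩ := hT
  obtain ⟨b, hb, g, hg⟩ := hS
  choose σ hσ using hf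
  let D := ZFSet.sep (fun p => ∃ x ∈ a, ∃ y ∈ b, p = pair x y)
    (V_ (succ (succ (max (rank a) (rank b)))))
  refine ⟨powerset D, ?_, fun Z t => if hZ : ∃ y, pair (σ t) y ∈ Z then g hZ.choose else g ∅, ?_⟩
  · rw [mem_vonNeumann, ZFSet.rank_powerset]
    have h1 : rank D ≤ succ (succ (max (rank a) (rank b))) := by
      rw [← subset_vonNeumann]; exact sep_subset
    refine h.lim.succ_lt (h1.trans_lt (add_two_lt h.lim ?_))
    rw [mem_vonNeumann] at ha hb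
    exact max_lt ha hb
  · intro F
    refine ⟨ZFSet.sep (fun p => ∃ t, ∃ y ∈ b, p = pair (σ t) y ∧ g y = F t) D,
      mem_powerset.2 sep_subset, ?_⟩
    funext t
    have hZ : ∃ y, pair (σ t) y ∈
        ZFSet.sep (fun p => ∃ t, ∃ y ∈ b, p = pair (σ t) y ∧ g y = F t) D := by
      obtain ⟨y, hy, hyF⟩ := hg (F t)
      refine ⟨y, ?_⟩
      rw [mem_sep]
      refine ⟨?_, t, y, hy, rfl, hyF⟩
      rw [mem_sep]
      refine ⟨?_, σ t, (hσ t).1, y, hy, rfl⟩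
      rw [mem_vonNeumann, rank_opair]
      have h1 : max (rank (σ t)) (rank y) < max (rank a) (rank b) :=
        max_lt ((rank_lt_of_mem (hσ t).1).trans_le (le_max_left _ _))
          ((rank_lt_of_mem hy).trans_le (le_max_right _ _))
      exact succ_lt_succ (succ_lt_succ h1)
    beta_reduce
    rw [dif_pos hZ]
    have h3 := hZ.choose_spec
    rw [mem_sep] at h3
    obtain ⟨_, t', y, hy, hp, hF⟩ := h3
    obtain ⟨e1, e2⟩ := pair_inj.1 hp
    rw [e2, hF]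
    have h4 : t' = t := by
      rw [← (hσ t').2, ← (hσ t).2, e1]
    rw [h4]

end Repl

end Pool.Agent.MP_6fa13c_lc
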