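import Pool.Agent.Lib_MP_6fa13c_lc.Small

/-!
# If a successor cardinal is `Ψ_gss`-large then there is a `1`-extendible cardinal below it
-/

namespace Pool.Agent.MP_6fa13c_lc

open ZFSet Ordinal Forcing Order Inner

/-! ### relativisation of formulas -/

/-- relativisation to the set named by the variable `k` -/
def rel (k : ℕ) : Fml → Fml
  | .mem i j => .mem i j
  | .eq i j => .eq i j
  | .neg φ => .neg (rel k φ)
  | .and φ ψ => .and (rel k φ) (rel k ψ)
  | .all i φ => .all i (.imp (.mem i k) (rel k φ))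

lemma sat_rel {X : Set ZFSet.{0}} (hX : IsTransClass X) {b : ZFSet.{0}} {k : ℕ} (φ : Fml)
    (hk : φ.bd ≤ k) (v : ℕ → X) (w : ℕ → (b : Set ZFSet.{0})) (hv : (v k).1 = b)
    (hvw : ∀ i < φ.bd, (v i).1 = (w i).1) :
    Sat (memOn X) (rel k φ) v ↔ Sat (memOn (b : Set ZFSet.{0})) φ w := by
  induction φ generalizing v w with
  | mem i j =>
    have hi := hvw i (by simp only [Fml.bd]; omega)
    have hj := hvw j (by simp only [Fml.bd]; omega)
    simp only [rel, sat_mem, memOn, hi, hj]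
  | eq i j =>
    have hi := hvw i (by simp only [Fml.bd]; omega)
    have hj := hvw j (by simp only [Fml.bd]; omega)
    simp only [rel, sat_eq, Subtype.ext_iff, hi, hj]
  | neg φ ih =>
    rw [rel, sat_neg, sat_neg, ih hk v w hv hvw]
  | and φ ψ ih1 ih2 =>
    simp only [Fml.bd] at hk hvw
    rw [rel, sat_and, sat_and,
      ih1 (by omega) v w hv (fun i hi => hvw i (lt_of_lt_of_le hi (le_max_left _ _))),
      ih2 (by omega) v w hv (fun i hi => hvw i (lt_of_lt_of_le hi (le_max_right _ _)))]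
  | all i φ ih =>
    simp only [Fml.bd] at hk hvw
    have hik : i ≠ k := by omega
    rw [rel, sat_all, sat_all]
    constructor
    · intro h x
      have hxX : x.1 ∈ X := hX _ (v k).2 _ (by rw [hv]; exact x.2)
      have h1 := h ⟨x.1, hxX⟩
      rw [sat_imp, sat_mem] at h1
      refine (ih (by omega) _ (Function.update w i x) ?_ ?_).1 (h1 ?_)
      · rw [Function.update_of_ne hik.symm]; exact hv
      · intro m hm
        by_cases hmi : m = i
        · subst hmi; simp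
        · rw [Function.update_of_ne hmi, Function.update_of_ne hmi]
          exact hvw m (lt_of_lt_of_le hm (le_max_right _ _))
      · rw [Function.update_self, Function.update_of_ne hik.symm]
        change x.1 ∈ (v k).1
        rw [hv]; exact x.2
    · intro h x
      rw [sat_imp, sat_mem, Function.update_self, Function.update_of_ne hik.symm]
      intro hx
      have hxb : x.1 ∈ b := by
        have : x.1 ∈ (v k).1 := hx
        rwa [hv] at this
      refine (ih (by omega) _ (Function.update w i ⟨x.1, hxb⟩) ?_ ?_).2 (h _)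
      · rw [Function.update_of_ne hik.symm]; exact hv
      · intro m hm
        by_cases hmi : m = i
        · subst hmi; simp
        · rw [Function.update_of_ne hmi, Function.update_of_ne hmi]
          exact hvw m (lt_of_lt_of_le hm (le_max_right _ _))

lemma Elementary.restrict {X Y : Set ZFSet.{0}} {j : ZFSet.{0} → ZFSet.{0}}
    (h : Elementary X Y j) (hX : IsTransClass X) (hY : IsTransClass Y) {b : ZFSet.{0}}
    (hb : b ∈ X) : Elementary b (j b) j := by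
  refine ⟨fun x hx => (h.mem hX hY (hX _ hb _ hx) hb).1 hx, fun φ w => ?_⟩
  let k := φ.bd
  let v : ℕ → X := Function.update (fun n => ⟨(w n).1, hX _ hb _ (w n).2⟩) k ⟨b, hb⟩
  have hvk : v k = ⟨b, hb⟩ := Function.update_self _ _ _
  have hv : ∀ i < φ.bd, v i = ⟨(w i).1, hX _ hb _ (w i).2⟩ := fun i hi => by
    have : i ≠ k := by simp only [k]; omega
    exact Function.update_of_ne this _ _
  rw [← sat_rel hX φ (le_refl k) v w (by rw [hvk]) (fun i hi => by rw [hv i hi])]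
  obtain ⟨h1, h2⟩ := h
  rw [h2 (rel k φ) v]
  refine sat_rel hY φ (le_refl k) _ _ ?_ ?_
  · change j (v k).1 = j b
    rw [hvk]
  · intro i hi
    change j (v i).1 = j (w i).1
    rw [hv i hi]

/-! ### injections between ordinals -/

lemma card_le_of_func {α β : Ordinal.{0}} {f : ZFSet.{0}} (hf : IsFunc α.toZFSet β.toZFSet f)
    (hinj : ∀ x y z : ZFSet.{0}, pair x z ∈ f → pair y z ∈ f → x = y) : α.card ≤ β.card := by
  have h1 : ∀ ξ : Set.Iio α, ∃ ζ : Set.Iio β, pair ξ.1.toZFSet ζ.1.toZFSet ∈ f := by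
    intro ξ
    obtain ⟨w, hw, _⟩ := hf.2 ξ.1.toZFSet (toZFSet_mem ξ.2)
    have hw2 := (pair_mem_prod.1 (hf.1 hw)).2
    obtain ⟨ζ, hζ, rfl⟩ := mem_toZFSet_iff.1 hw2
    exact ⟨⟨ζ, hζ⟩, hw⟩
  choose g hg using h1
  have hgi : Function.Injective g := by
    intro a b hab
    have h2 := hg a
    rw [hab] at h2
    exact Subtype.ext (toZFSet_injective (hinj _ _ _ h2 (hg b)))
  have h3 := Cardinal.mk_le_of_injective hgi
  rw [Cardinal.mk_Iio_ordinal, Cardinal.mk_Iio_ordinal, Cardinal.lift_le] at h3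
  exact h3

lemma exists_func {α β θ : Ordinal.{0}} (hθ : IsSuccLimit θ) (hα : α ≤ θ) (hβ : β ≤ θ)
    (h : α.card ≤ β.card) : ∃ f ∈ V_ (θ + 1), IsFunc α.toZFSet β.toZFSet f ∧
      ∀ x y z : ZFSet.{0}, pair x z ∈ f → pair y z ∈ f → x = y := by
  classical
  have h1 : Cardinal.mk (Set.Iio α) ≤ Cardinal.mk (Set.Iio β) := by
    rw [Cardinal.mk_Iio_ordinal, Cardinal.mk_Iio_ordinal, Cardinal.lift_le]
    exact h
  obtain ⟨e⟩ := h1
  let F : ZFSet.{0} → ZFSet.{0} := fun x =>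
    if hx : rank x < α then (e ⟨rank x, hx⟩).1.toZFSet else ∅
  have hF : ∀ ξ (hξ : ξ < α), F ξ.toZFSet = (e ⟨ξ, hξ⟩).1.toZFSet := by
    intro ξ hξ
    have hr : rank ξ.toZFSet < α := by rw [rank_toZFSet]; exact hξ
    simp only [F, dif_pos hr]
    congr 3
    exact Subtype.ext (rank_toZFSet ξ)
  have hFm : ∀ x ∈ α.toZFSet, F x ∈ β.toZFSet := by
    intro x hx
    obtain ⟨ξ, hξ, rfl⟩ := mem_toZFSet_iff.1 hx
    rw [hF ξ hξ]
    exact toZFSet_mem (e ⟨ξ, hξ⟩).2
  have ha : ∀ x ∈ α.toZFSet, x ∈ V_ θ := by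
    intro x hx
    rw [mem_vonNeumann]
    exact lt_of_lt_of_le (by simpa using rank_lt_of_mem hx) hα
  have hb : ∀ x ∈ α.toZFSet, F x ∈ V_ θ := by
    intro x hx
    rw [mem_vonNeumann]
    exact lt_of_lt_of_le (by simpa using rank_lt_of_mem (hFm x hx)) hβ
  refine ⟨graph θ α.toZFSet F, graph_mem _ _ _, ⟨?_, ?_⟩, ?_⟩
  · intro p hp
    have hp' := hp
    unfold graph at hp'
    rw [mem_sep] at hp'
    obtain ⟨_, x, hx, rfl⟩ := hp'
    rw [pair_mem_prod]
    exact ⟨hx, hFm x hx⟩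
  · intro x hx
    refine ⟨F x, (mem_graph hθ ha hb).2 ⟨hx, rfl⟩, fun y hy => ((mem_graph hθ ha hb).1 hy).2⟩
  · intro x y z hx hy
    obtain ⟨hx1, hx2⟩ := (mem_graph hθ ha hb).1 hx
    obtain ⟨hy1, hy2⟩ := (mem_graph hθ ha hb).1 hy
    obtain ⟨ξ, hξ, rfl⟩ := mem_toZFSet_iff.1 hx1
    obtain ⟨ζ, hζ, rfl⟩ := mem_toZFSet_iff.1 hy1
    rw [hF ξ hξ] at hx2
    rw [hF ζ hζ] at hy2
    have h2 : e ⟨ξ, hξ⟩ = e ⟨ζ, hζ⟩ := Subtype.ext (toZFSet_injective (hx2.symm.trans hy2))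
    have h3 := e.injective h2
    rw [Subtype.mk.injEq] at h3
    rw [h3]

lemma Repl.add_om {κ γ : Ordinal.{0}} (h : Repl κ) (hγ : γ < κ) : γ + ω < κ := by
  have h0 : ∀ n : ℕ, γ + n < κ := by
    intro n
    induction n with
    | zero => simpa using hγ
    | succ n ih =>
      have h1 := h.lim.succ_lt ih
      rw [succ_eq_add_one, add_assoc] at h1
      exact_mod_cast h1
  obtain ⟨γ', hγ', h2⟩ := h.bdK h.ksNat (F := fun n : ℕ => (γ + n).toZFSet)
    (fun n => mem_V_of_lt (h0 n))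
  refine lt_of_le_of_lt ?_ hγ'
  rw [Ordinal.add_le_iff_of_isSuccLimit isSuccLimit_omega0]
  intro b hb
  obtain ⟨n, rfl⟩ := lt_omega0.1 hb
  exact le_of_lt (lt_of_mem_V (h2 n))

lemma jord_lt {X Y : Set ZFSet.{0}} {j : ZFSet.{0} → ZFSet.{0}} (h : Elementary X Y j)
    (hX : IsTransClass X) (hY : IsTransClass Y) {α β α' β' : Ordinal.{0}}
    (ha : α.toZFSet ∈ X) (hb : β.toZFSet ∈ X) (hα : j α.toZFSet = α'.toZFSet)
    (hβ : j β.toZFSet = β'.toZFSet) : α < β ↔ α' < β' := by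
  have := h.mem hX hY ha hb
  rw [hα, hβ, toZFSet_mem_toZFSet_iff, toZFSet_mem_toZFSet_iff] at this
  exact this

/-- images of `V_α`, for embeddings of some `V_{θ+1}` -/
lemma image_V {θ : Ordinal.{0}} {M : Set ZFSet.{0}} {j : ZFSet.{0} → ZFSet.{0}}
    (h : Elementary (V_ (θ + 1)) M j) (hM : IsTransClass M) (hθ : IsSuccLimit θ)
    {ν ν' δ' : Ordinal.{0}} (hν : ν < θ) (hν' : j ν.toZFSet = ν'.toZFSet) (hδ' : IsSuccLimit δ')
    (hlt : ν' < δ') (hVM : ∀ x ∈ V_ δ', x ∈ M) : j (V_ (ν + 1)) = V_ (ν' + 1) := by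
  have hX := transV (θ + 1)
  have hsub : ∀ x ∈ V_ θ, x ∈ V_ (θ + 1) :=
    fun _ hx => vonNeumann_subset_of_le (le_of_lt (lt_add_one θ)) hx
  have hνs : succ ν < θ := hθ.succ_lt hν
  have hνX : (succ ν).toZFSet ∈ V_ (θ + 1) := hsub _ (mem_V_of_lt hνs)
  have hVX : V_ (ν + 1) ∈ V_ (θ + 1) := hsub _ (by
    rw [mem_vonNeumann, rank_vonNeumann]; exact hνs)
  have hR : FO (fun (M : Type 1) (E : M → M → Prop) v => ∀ x, (E x (v 0) ↔ RankLt E x (v 1))) :=
    FO.all (FO.iff (FO.mem _ _) (FO.rankLt _ _))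
  have h1 := (h.tr hR (cons_in hVX (const_in hνX))).1 (by
    intro x
    constructor
    · intro hx
      have hx2 : x.1 ∈ V_ (ν + 1) := hx
      rw [mem_vonNeumann] at hx2
      refine rankLt_complete hX hθ hsub ?_ (α := succ ν) rfl hx2
      rw [mem_vonNeumann]
      exact hx2.trans hνs
    · intro hx
      have hx2 := rankLt_sound hX hx
      change rank x.1 < rank (succ ν).toZFSet at hx2
      rw [rank_toZFSet] at hx2
      change x.1 ∈ V_ (ν + 1)
      rw [mem_vonNeumann]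
      exact hx2)
  have hj : j (succ ν).toZFSet = (succ ν').toZFSet := by
    rw [toZFSet_succ']
    rw [toZFSet_succ'] at hνX
    rw [h.insert hX hM hνX, hν', toZFSet_succ']
  have hs' : succ ν' < δ' := hδ'.succ_lt hlt
  ext x
  constructor
  · intro hx
    have hxM : x ∈ M := hM _ (h.maps hVX) _ hx
    have h2 := rankLt_sound hM ((h1 ⟨x, hxM⟩).1 hx)
    change rank x < rank (j (succ ν).toZFSet) at h2
    rw [hj, rank_toZFSet] at h2
    rw [mem_vonNeumann]
    exact h2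
  · intro hx
    rw [mem_vonNeumann] at hx
    have hxδ : x ∈ V_ δ' := by rw [mem_vonNeumann]; exact lt_trans hx hs'
    have hxM : x ∈ M := hVM _ hxδ
    exact (h1 ⟨x, hxM⟩).2 (rankLt_complete hM hδ' hVM hxδ (α := succ ν') hj hx)

theorem oneExtendible_of_psiLarge {κ : Ordinal.{0}} (hκ : Repl κ) {μ : Ordinal.{0}}
    (hδκ : (succ μ.card).ord < κ) (h : PsiLargeIn κ PsiGss (succ μ.card).ord) :
    ∃ ν < (succ μ.card).ord, OneExtendible ν := by
  set δ := (succ μ.card).ord with hδ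
  have hη : δ + ω < κ := hκ.add_om hδκ
  have hθ : δ + ω + ω < κ := hκ.add_om hη
  have hωpos : (0 : Ordinal.{0}) < ω := omega0_pos
  set η := δ + ω with hηd
  set θ := η + ω with hθd
  have hδη : δ < η := lt_add_of_pos_right _ hωpos
  have hηθ : η < θ := lt_add_of_pos_right _ hωpos
  have limθ : IsSuccLimit θ := isSuccLimit_add _ isSuccLimit_omega0
  obtain ⟨l, _, hηl, _, _, M, _, hM, j, hj, δ', η', θ', hδ', hη', hθ', hlδ', hsuit, hsub⟩ :=
    h η θ (isSuccLimit_add _ isSuccLimit_omega0) limθ hδη hηθ hθ 0 (hκ.lim.bot_lt)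
  have hMc : IsTransClass (M : Set ZFSet.{0}) := fun x hx y hy => hM.mem_trans hy hx
  have hX := transV (θ + 1)
  have hsubX : ∀ x ∈ V_ θ, x ∈ V_ (θ + 1) :=
    fun _ hx => vonNeumann_subset_of_le (le_of_lt (lt_add_one θ)) hx
  obtain ⟨_, _, _, _, _, _, _, hδη', _, limδ', _, _, _, hηM, _⟩ := hsuit
  have hη'θ' : η' < θ' := lt_of_mem_V (mem_inter.1 hηM).2
  have hVM : ∀ x ∈ V_ δ', x ∈ (M : Set ZFSet.{0}) := by
    intro x hx
    have hx2 : x ∈ V_ θ' := vonNeumann_subset_of_le (hδη'.trans hη'θ').le hx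
    exact (mem_inter.1 (hsub (mem_inter.2 ⟨hx2, hx⟩))).1
  have hδδ' : δ < δ' := (hδη.trans_le hηl).trans hlδ'
  -- the critical point
  have hex : ∃ ξ : Ordinal.{0}, j ξ.toZFSet ≠ ξ.toZFSet :=
    ⟨δ, by rw [hδ']; intro h1; exact hδδ'.ne (toZFSet_injective h1).symm⟩
  let ν := WellFounded.min (lt_wf) {ξ : Ordinal.{0} | j ξ.toZFSet ≠ ξ.toZFSet} hex
  have hν1 : j ν.toZFSet ≠ ν.toZFSet := WellFounded.min_mem lt_wf {ξ : Ordinal.{0} | j ξ.toZFSet ≠ ξ.toZFSet} hex
  have hν2 : ∀ ξ < ν, j ξ.toZFSet = ξ.toZFSet := by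
    intro ξ hξ
    by_contra hcon
    exact WellFounded.not_lt_min lt_wf {ξ : Ordinal.{0} | j ξ.toZFSet ≠ ξ.toZFSet} hcon hξ
  have hνδ : ν ≤ δ := by
    by_contra hcon
    push Not at hcon
    have := hν2 δ hcon
    rw [hδ'] at this
    exact hδδ'.ne (toZFSet_injective this).symm
  have hδX : δ.toZFSet ∈ V_ (θ + 1) := hsubX _ (mem_V_of_lt (hδη.trans hηθ))
  have hμδ : μ < δ := by
    rw [hδ, Cardinal.lt_ord]
    exact lt_succ _
  have hμX : μ.toZFSet ∈ V_ (θ + 1) := hX _ hδX _ (toZFSet_mem hμδ)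
  rcases hνδ.lt_or_eq with hlt | heq
  · -- `ν < δ`
    have hνX : ν.toZFSet ∈ V_ (θ + 1) := hX _ hδX _ (toZFSet_mem hlt)
    obtain ⟨ν', hν'⟩ := hj.ord hX hMc hνX
    have hν'δ' : ν' < δ' := (jord_lt hj hX hMc hνX hδX hν' hδ').1 hlt
    have hνθ : ν < θ := hlt.trans (hδη.trans hηθ)
    have himg := image_V hj hMc limθ hνθ hν' limδ' hν'δ' hVM
    refine ⟨ν, hlt, ν' + 1, j, ?_, hν2, hν1⟩
    have hVX : V_ (ν + 1) ∈ V_ (θ + 1) := hsubX _ (by
      rw [mem_vonNeumann, rank_vonNeumann]; exact limθ.succ_lt hνθ)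
    have := hj.restrict hX hMc hVX
    rwa [himg] at this
  · -- `ν = δ` is impossible
    exfalso
    have hjμ : j μ.toZFSet = μ.toZFSet := hν2 μ (by rw [heq]; exact hμδ)
    have hR : FO (fun (M : Type 1) (E : M → M → Prop) v => ∀ a, E a (v 0) → ∃ f,
        IsFun E f a (v 1) ∧ ∀ x y z, Val E f x z → Val E f y z → x = y) :=
      FO.all (FO.imp (FO.mem _ _) (FO.ex (FO.and (FO.isFun _ _ _) (FO.all (FO.all (FO.all
        (FO.imp (FO.val _ _ _) (FO.imp (FO.val _ _ _) (FO.eq _ _)))))))))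
    have h1 := (hj.tr hR (cons_in hδX (const_in hμX))).1 (by
      intro a ha
      change a.1 ∈ δ.toZFSet at ha
      obtain ⟨α, hα, hαa⟩ := mem_toZFSet_iff.1 ha
      have hc : α.card ≤ μ.card := by
        rw [hδ, Cardinal.lt_ord] at hα
        exact lt_succ_iff.1 hα
      obtain ⟨f, hf, hf1, hf2⟩ := exists_func limθ
        ((hα.trans (hδη.trans hηθ)).le) ((hμδ.trans (hδη.trans hηθ)).le) hc
      refine ⟨⟨f, hf⟩, ?_, ?_⟩
      · have := (Abs.isFun 0 1 2).abs _ hX (cons ⟨f, hf⟩ (cons a (fun _ => ⟨μ.toZFSet, hμX⟩)))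
        refine this.2 ?_
        rw [isFun_EV]
        change IsFunc a.1 μ.toZFSet f
        rw [← hαa]; exact hf1
      · intro x y z hx hy
        rw [val_on hX] at hx hy
        exact Subtype.ext (hf2 _ _ _ hx hy))
    have hδM : δ.toZFSet ∈ (M : Set ZFSet.{0}) := hVM _ (mem_V_of_lt hδδ')
    obtain ⟨f, hf1, hf2⟩ := h1 ⟨δ.toZFSet, hδM⟩ (by
      change δ.toZFSet ∈ j δ.toZFSet
      rw [hδ']; exact toZFSet_mem hδδ')
    have hf3 : IsFunc δ.toZFSet μ.toZFSet f.1 := by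
      rw [← isFun_EV]
      have := (Abs.isFun 0 1 2).abs _ hMc (cons f (cons ⟨δ.toZFSet, hδM⟩
        (fun _ => ⟨j μ.toZFSet, hj.maps hμX⟩)))
      have h2 := this.1 hf1
      change IsFun EV f.1 δ.toZFSet (j μ.toZFSet) at h2
      rwa [hjμ] at h2
    have hc := card_le_of_func hf3 (by
      intro x y z hx hy
      obtain ⟨hxM, hzM⟩ := pair_parts hMc (hMc _ f.2 _ hx)
      obtain ⟨hyM, _⟩ := pair_parts hMc (hMc _ f.2 _ hy)
      exact congrArg Subtype.val (hf2 ⟨x, hxM⟩ ⟨y, hyM⟩ ⟨z, hzM⟩ ((val_on hMc _ _ _).2 hx)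
        ((val_on hMc _ _ _).2 hy)))
    rw [hδ, Cardinal.card_ord] at hc
    exact absurd hc (not_le.2 (lt_succ _))

end Pool.Agent.MP_6fa13c_lc
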