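import Pool.Agent.Lib_MP_6fa13c_lc.Defs
import Pool.Agent.Lib_Inner.VocabFO

/-!
# Elementary embeddings and absoluteness
-/

namespace Pool.Agent.MP_6fa13c_lc

open ZFSet Ordinal Forcing Order Inner

/-- membership of the universe -/
abbrev EV : ZFSet.{0} → ZFSet.{0} → Prop := fun x y => x ∈ y

/-- `R` is first-order, and absolute between transitive classes and the universe -/
structure Abs (R : Fam.{1}) : Prop where
  fo : FO R
  abs : ∀ X : Set ZFSet.{0}, IsTransClass X → ∀ v : ℕ → X,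
    R X (memOn X) v ↔ R ZFSet.{0} EV (fun n => (v n).1)

namespace Abs

variable {R S : Fam.{1}}

lemma mem (i j : ℕ) : Abs (fun _ E v => E (v i) (v j)) := ⟨FO.mem i j, fun _ _ _ => Iff.rfl⟩

lemma eq (i j : ℕ) : Abs (fun _ _ v => v i = v j) := ⟨FO.eq i j, fun _ _ _ => Subtype.ext_iff⟩

lemma not (h : Abs R) : Abs (fun M E v => ¬ R M E v) :=
  ⟨FO.not h.fo, fun X hX v => not_congr (h.abs X hX v)⟩

lemma and (h : Abs R) (h' : Abs S) : Abs (fun M E v => R M E v ∧ S M E v) :=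
  ⟨FO.and h.fo h'.fo, fun X hX v => and_congr (h.abs X hX v) (h'.abs X hX v)⟩

lemma or (h : Abs R) (h' : Abs S) : Abs (fun M E v => R M E v ∨ S M E v) :=
  ⟨FO.or h.fo h'.fo, fun X hX v => or_congr (h.abs X hX v) (h'.abs X hX v)⟩

lemma imp (h : Abs R) (h' : Abs S) : Abs (fun M E v => R M E v → S M E v) :=
  ⟨FO.imp h.fo h'.fo, fun X hX v => imp_congr (h.abs X hX v) (h'.abs X hX v)⟩

lemma iff (h : Abs R) (h' : Abs S) : Abs (fun M E v => (R M E v ↔ S M E v)) :=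
  ⟨FO.iff h.fo h'.fo, fun X hX v => iff_congr (h.abs X hX v) (h'.abs X hX v)⟩

lemma ball (i : ℕ) {R : ∀ (M : Type 1), (M → M → Prop) → M → (ℕ → M) → Prop}
    (h : Abs (fun M E v => R M E (v 0) (fun k => v (k+1)))) :
    Abs (fun M E v => ∀ x, E x (v i) → R M E x v) := by
  refine ⟨FO.all (R := fun M E x v => E x (v i) → R M E x v) (FO.imp (FO.mem 0 (i+1)) h.fo), ?_⟩
  intro X hX v
  constructor
  · intro h1 x hx
    exact (h.abs X hX (cons ⟨x, hX _ (v i).2 x hx⟩ v)).1 (h1 ⟨x, hX _ (v i).2 x hx⟩ hx)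
  · intro h1 x hx
    exact (h.abs X hX (cons x v)).2 (h1 x.1 hx)

lemma bex (i : ℕ) {R : ∀ (M : Type 1), (M → M → Prop) → M → (ℕ → M) → Prop}
    (h : Abs (fun M E v => R M E (v 0) (fun k => v (k+1)))) :
    Abs (fun M E v => ∃ x, E x (v i) ∧ R M E x v) := by
  refine ⟨FO.ex (R := fun M E x v => E x (v i) ∧ R M E x v) (FO.and (FO.mem 0 (i+1)) h.fo), ?_⟩
  intro X hX v
  constructor
  · rintro ⟨x, hx, h1⟩
    exact ⟨x.1, hx, (h.abs X hX (cons x v)).1 h1⟩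
  · rintro ⟨x, hx, h1⟩
    exact ⟨⟨x, hX _ (v i).2 x hx⟩, hx, (h.abs X hX (cons ⟨x, hX _ (v i).2 x hx⟩ v)).2 h1⟩

lemma sub (i j : ℕ) : Abs (fun _ E v => Sub E (v i) (v j)) := ball i (mem 0 (j+1))

lemma isUPair (i j k : ℕ) : Abs (fun _ E v => IsUPair E (v i) (v j) (v k)) := by
  refine ⟨FO.isUPair i j k, fun X hX v => ?_⟩
  constructor
  · intro h u
    constructor
    · intro hu
      exact ((h ⟨u, hX _ (v i).2 u hu⟩).1 hu).imp (congrArg Subtype.val) (congrArg Subtype.val)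
    · rintro (rfl | rfl)
      · exact (h (v j)).2 (Or.inl rfl)
      · exact (h (v k)).2 (Or.inr rfl)
  · intro h u
    constructor
    · intro hu
      exact ((h u.1).1 hu).imp Subtype.ext Subtype.ext
    · rintro (rfl | rfl)
      · exact (h (v j).1).2 (Or.inl rfl)
      · exact (h (v k).1).2 (Or.inr rfl)

lemma isSucc (i j : ℕ) : Abs (fun _ E v => IsSucc E (v i) (v j)) := by
  refine ⟨FO.isSucc i j, fun X hX v => ?_⟩
  constructor
  · intro h u
    constructor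
    · intro hu
      exact ((h ⟨u, hX _ (v i).2 u hu⟩).1 hu).imp id (congrArg Subtype.val)
    · rintro (hu | rfl)
      · exact (h ⟨u, hX _ (v j).2 u hu⟩).2 (Or.inl hu)
      · exact (h (v j)).2 (Or.inr rfl)
  · intro h u
    constructor
    · intro hu
      exact ((h u.1).1 hu).imp id Subtype.ext
    · rintro (hu | rfl)
      · exact (h u.1).2 (Or.inl hu)
      · exact (h (v j).1).2 (Or.inr rfl)

end Abs

/-! ### the meaning of the vocabulary in the universe -/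

lemma sub_EV {x y : ZFSet.{0}} : Sub EV x y ↔ x ⊆ y := Iff.rfl

lemma isUPair_EV {z x y : ZFSet.{0}} : IsUPair EV z x y ↔ z = {x, y} := by
  unfold IsUPair
  rw [ZFSet.ext_iff]
  simp

lemma isPair_EV {z x y : ZFSet.{0}} : IsPair EV z x y ↔ z = pair x y := by
  unfold IsPair
  simp [isUPair_EV, pair]

lemma val_EV {f x y : ZFSet.{0}} : Val EV f x y ↔ pair x y ∈ f := by
  unfold Val
  simp [isPair_EV]

lemma isFun_EV {f a b : ZFSet.{0}} : IsFun EV f a b ↔ IsFunc a b f := by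
  unfold IsFun IsFunc
  simp only [isPair_EV, val_EV, ZFSet.subset_def, mem_prod]
  constructor
  · rintro ⟨h1, h2⟩
    refine ⟨fun z hz => ?_, h2⟩
    obtain ⟨x, y, hx, hy, h⟩ := h1 z hz
    exact ⟨x, hx, y, hy, h⟩
  · rintro ⟨h1, h2⟩
    refine ⟨fun z hz => ?_, h2⟩
    obtain ⟨x, hx, y, hy, h⟩ := h1 hz
    exact ⟨x, y, hx, hy, h⟩

lemma isSucc_EV {s x : ZFSet.{0}} : IsSucc EV s x ↔ s = insert x x := by
  unfold IsSucc
  rw [ZFSet.ext_iff]
  simp [or_comm]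

namespace Abs

lemma isPair (i j k : ℕ) : Abs (fun _ E v => IsPair E (v i) (v j) (v k)) := by
  refine ⟨FO.isPair i j k, fun X hX v => ?_⟩
  constructor
  · rintro ⟨a, b, h1, h2, h3⟩
    refine ⟨a.1, b.1, ?_, ?_, ?_⟩
    · exact ((isUPair 0 1 2).abs X hX (cons a (cons (v j) (cons (v j) v)))).1 h1
    · exact ((isUPair 0 1 2).abs X hX (cons b (cons (v j) (cons (v k) v)))).1 h2
    · exact ((isUPair 0 1 2).abs X hX (cons (v i) (cons a (cons b v)))).1 h3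
  · rintro ⟨a, b, h1, h2, h3⟩
    have ha : a ∈ X := hX _ (v i).2 a ((h3 a).2 (Or.inl rfl))
    have hb : b ∈ X := hX _ (v i).2 b ((h3 b).2 (Or.inr rfl))
    refine ⟨⟨a, ha⟩, ⟨b, hb⟩, ?_, ?_, ?_⟩
    · exact ((isUPair 0 1 2).abs X hX (cons ⟨a, ha⟩ (cons (v j) (cons (v j) v)))).2 h1
    · exact ((isUPair 0 1 2).abs X hX (cons ⟨b, hb⟩ (cons (v j) (cons (v k) v)))).2 h2
    · exact ((isUPair 0 1 2).abs X hX (cons (v i) (cons ⟨a, ha⟩ (cons ⟨b, hb⟩ v)))).2 h3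

lemma val (i j k : ℕ) : Abs (fun _ E v => Val E (v i) (v j) (v k)) := by
  refine ⟨FO.val i j k, fun X hX v => ?_⟩
  constructor
  · rintro ⟨z, h1, h2⟩
    exact ⟨z.1, ((isPair 0 1 2).abs X hX (cons z (cons (v j) (cons (v k) v)))).1 h1, h2⟩
  · rintro ⟨z, h1, h2⟩
    have hz : z ∈ X := hX _ (v i).2 z h2
    exact ⟨⟨z, hz⟩, ((isPair 0 1 2).abs X hX (cons ⟨z, hz⟩ (cons (v j) (cons (v k) v)))).2 h1, h2⟩

lemma isFun (i j k : ℕ) : Abs (fun _ E v => IsFun E (v i) (v j) (v k)) := by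
  have key : Abs (fun _ E v => (∀ z, E z (v i) → ∃ x, E x (v j) ∧ ∃ y, E y (v k) ∧ IsPair E z x y) ∧
      ∀ x, E x (v j) → ∃ y, E y (v k) ∧ (Val E (v i) x y ∧
        ∀ y', E y' (v k) → Val E (v i) x y' → y' = y)) :=
    and (ball i (bex (j+1) (bex (k+2) (isPair _ _ _))))
      (ball j (bex (k+1) (and (val _ _ _) (ball (k+2) (imp (val _ _ _) (eq _ _))))))
  refine ⟨FO.isFun i j k, fun X hX v => ?_⟩
  have e1 : ∀ (M : Type 1) (E : M → M → Prop) (v : ℕ → M), (∀ x y x' y' z, IsPair E z x y →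
      IsPair E z x' y' → x = x' ∧ y = y') → (IsFun E (v i) (v j) (v k) ↔
      ((∀ z, E z (v i) → ∃ x, E x (v j) ∧ ∃ y, E y (v k) ∧ IsPair E z x y) ∧
      ∀ x, E x (v j) → ∃ y, E y (v k) ∧ (Val E (v i) x y ∧
        ∀ y', E y' (v k) → Val E (v i) x y' → y' = y))) := by
    intro M E v hinj
    constructor
    · rintro ⟨h1, h2⟩
      refine ⟨fun z hz => ?_, fun x hx => ?_⟩
      · obtain ⟨x, y, hx, hy, h⟩ := h1 z hz
        exact ⟨x, hx, y, hy, h⟩
      · obtain ⟨y, hy, hu⟩ := h2 x hx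
        have hy' := hy
        obtain ⟨z, hz, hz2⟩ := hy
        obtain ⟨x', y', hx', hy'', h⟩ := h1 z hz2
        obtain ⟨rfl, rfl⟩ := hinj _ _ _ _ _ hz h
        exact ⟨_, hy'', hy', fun y' _ h3 => hu y' h3⟩
    · rintro ⟨h1, h2⟩
      refine ⟨fun z hz => ?_, fun x hx => ?_⟩
      · obtain ⟨x, hx, y, hy, h⟩ := h1 z hz
        exact ⟨x, y, hx, hy, h⟩
      · obtain ⟨y, hy, hxy, hu⟩ := h2 x hx
        refine ⟨y, hxy, fun y' hy' => ?_⟩
        have hy2 := hy'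
        obtain ⟨z, hz, hz2⟩ := hy'
        obtain ⟨x', hx', y'', hy'', h⟩ := h1 z hz2
        obtain ⟨rfl, rfl⟩ := hinj _ _ _ _ _ hz h
        exact hu _ hy'' hy2
  have inj1 : ∀ x y x' y' z : ZFSet.{0}, IsPair EV z x y → IsPair EV z x' y' → x = x' ∧ y = y' := by
    intro x y x' y' z h h'
    rw [isPair_EV] at h h'
    rw [h] at h'
    exact pair_inj.1 h'
  have inj2 : ∀ x y x' y' z : X, IsPair (memOn X) z x y → IsPair (memOn X) z x' y' →
      x = x' ∧ y = y' := by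
    intro x y x' y' z h h'
    have h1 := ((isPair 0 1 2).abs X hX (cons z (cons x (cons y v)))).1 h
    have h2 := ((isPair 0 1 2).abs X hX (cons z (cons x' (cons y' v)))).1 h'
    have h3 := inj1 _ _ _ _ _ h1 h2
    exact ⟨Subtype.ext h3.1, Subtype.ext h3.2⟩
  rw [e1 X (memOn X) v inj2, key.abs X hX v]
  exact (e1 ZFSet.{0} EV (fun n => (v n).1) inj1).symm

end Abs

/-- `x` is an ordinal (a transitive set of transitive sets) -/
def IsOrd {M : Type 1} (E : M → M → Prop) (x : M) : Prop :=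
  (∀ y, E y x → ∀ z, E z y → E z x) ∧ ∀ y, E y x → ∀ z, E z y → ∀ w, E w z → E w y

lemma Abs.isOrd (i : ℕ) : Abs (fun _ E v => IsOrd E (v i)) :=
  Abs.and (Abs.ball i (Abs.ball 0 (Abs.mem _ _)))
    (Abs.ball i (Abs.ball 0 (Abs.ball 0 (Abs.mem _ _))))

lemma isOrd_EV {x : ZFSet.{0}} : IsOrd EV x ↔ x.IsOrdinal := by
  rw [isOrdinal_iff_forall_mem_isTransitive]
  rfl

lemma isOrd_EV_iff {x : ZFSet.{0}} : IsOrd EV x ↔ ∃ α : Ordinal.{0}, x = α.toZFSet := by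
  rw [isOrd_EV, isOrdinal_iff_mem_range_toZFSet]
  constructor
  · rintro ⟨a, rfl⟩; exact ⟨a, rfl⟩
  · rintro ⟨a, rfl⟩; exact ⟨a, rfl⟩

/-! ### elementary embeddings -/

section
variable {X Y : Set ZFSet.{0}} {j : ZFSet.{0} → ZFSet.{0}}

lemma Elementary.maps (h : Elementary X Y j) {x : ZFSet.{0}} (hx : x ∈ X) : j x ∈ Y :=
  h.choose x hx

lemma Elementary.foX (h : Elementary X Y j) {R : Fam.{1}} (hR : FO R) (v : ℕ → X) :
    R X (memOn X) v ↔ R Y (memOn Y) (fun n => ⟨j (v n), h.maps (v n).2⟩) := by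
  obtain ⟨φ, hφ⟩ := hR
  obtain ⟨h1, h2⟩ := h
  rw [← hφ, ← hφ]
  exact h2 φ v

/-- relativised truth of a family of properties, for assignments in the universe -/
def Tr (X : Set ZFSet.{0}) (R : Fam.{1}) (v : ℕ → ZFSet.{0}) : Prop :=
  ∃ hv : ∀ n, v n ∈ X, R X (memOn X) (fun n => ⟨v n, hv n⟩)

lemma Elementary.tr (h : Elementary X Y j) {R : Fam.{1}} (hR : FO R) {v : ℕ → ZFSet.{0}}
    (hv : ∀ n, v n ∈ X) :
    R X (memOn X) (fun n => ⟨v n, hv n⟩) ↔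
      R Y (memOn Y) (fun n => ⟨j (v n), h.maps (hv n)⟩) := h.foX hR (fun n => ⟨v n, hv n⟩)

lemma Elementary.abs (h : Elementary X Y j) (hX : IsTransClass X) (hY : IsTransClass Y)
    {R : Fam.{1}} (hR : Abs R) {v : ℕ → ZFSet.{0}} (hv : ∀ n, v n ∈ X) :
    R ZFSet.{0} EV v ↔ R ZFSet.{0} EV (fun n => j (v n)) := by
  have h1 := hR.abs X hX (fun n => ⟨v n, hv n⟩)
  have h2 := hR.abs Y hY (fun n => ⟨j (v n), h.maps (hv n)⟩)
  exact h1.symm.trans ((h.tr hR.fo hv).trans h2)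

end

lemma cons_in {X : Set ZFSet.{0}} {x : ZFSet.{0}} {v : ℕ → ZFSet.{0}} (hx : x ∈ X)
    (hv : ∀ n, v n ∈ X) : ∀ n, cons x v n ∈ X
  | 0 => hx
  | n+1 => hv n

lemma const_in {X : Set ZFSet.{0}} {x : ZFSet.{0}} (hx : x ∈ X) : ∀ _ : ℕ, x ∈ X := fun _ => hx

lemma transV (α : Ordinal.{0}) : IsTransClass (V_ α) := by
  intro x hx y hy
  exact (isTransitive_vonNeumann α).mem_trans hy hx

end Pool.Agent.MP_6fa13c_lc
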