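import Pool.Agent.Lib_MP_6fa13c_lc.Force

/-!
# The ultrapower of `V_κ` by an extender
-/

namespace Pool.Agent.MP_6fa13c_lc

open ZFSet Ordinal Forcing Order Inner

/-- names for elements of the ultrapower: a seed and a function -/
abbrev UC (A B : ZFSet.{0}) (κ : Ordinal.{0}) : Type 1 :=
  (ℕ → (B : Set ZFSet.{0})) × ((ℕ → (A : Set ZFSet.{0})) → (V_ κ : Set ZFSet.{0}))

instance smallUC (A B : ZFSet.{0}) (κ : Ordinal.{0}) : Small.{0} (UC A B κ) := by
  have h1 : ∀ x : ZFSet.{0}, Small.{0} (x : Set ZFSet.{0}) := fun x => ZFSet.small_coe x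
  have h2 := h1 A
  have h3 := h1 B
  have h4 := h1 (V_ κ)
  have h5 : Small.{0} (ℕ → (B : Set ZFSet.{0})) := small_Pi _
  have h6 : Small.{0} (ℕ → (A : Set ZFSet.{0})) := small_Pi _
  have h7 : Small.{0} ((ℕ → (A : Set ZFSet.{0})) → (V_ κ : Set ZFSet.{0})) := small_Pi _
  exact small_prod

namespace Ext

variable {A B : ZFSet.{0}} (e : Ext A B) {κ : Ordinal.{0}}

/-- membership between names -/
def memC (c d : UC A B κ) : Prop :=
  e.Th (mrg c.1 d.1) (fun v => (c.2 (v ∘ eL)).1 ∈ (d.2 (v ∘ eR)).1)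

/-- equality between names -/
def eqC (c d : UC A B κ) : Prop :=
  e.Th (mrg c.1 d.1) (fun v => (c.2 (v ∘ eL)).1 = (d.2 (v ∘ eR)).1)

variable {e}

lemma memC_iff {c d : UC A B κ} {S : ℕ → (B : Set ZFSet.{0})} {r r' : ℕ → ℕ} (h1 : c.1 = S ∘ r)
    (h2 : d.1 = S ∘ r') :
    e.memC c d ↔ e.Th S (fun v => (c.2 (v ∘ r)).1 ∈ (d.2 (v ∘ r')).1) := by
  unfold memC
  rw [h1, h2, comp_mrg, th_re]
  simp only [Function.comp_assoc, mrg_L, mrg_R]

lemma eqC_iff {c d : UC A B κ} {S : ℕ → (B : Set ZFSet.{0})} {r r' : ℕ → ℕ} (h1 : c.1 = S ∘ r)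
    (h2 : d.1 = S ∘ r') :
    e.eqC c d ↔ e.Th S (fun v => (c.2 (v ∘ r)).1 = (d.2 (v ∘ r')).1) := by
  unfold eqC
  rw [h1, h2, comp_mrg, th_re]
  simp only [Function.comp_assoc, mrg_L, mrg_R]

/-- the common seed of a sequence of names -/
def sd (c : ℕ → UC A B κ) : ℕ → (B : Set ZFSet.{0}) := mg (fun n => (c n).1)

lemma sd_blk (c : ℕ → UC A B κ) (i : ℕ) : (c i).1 = sd c ∘ blk i :=
  (mg_blk (fun n => (c n).1) i).symm

lemma memC_sd (c : ℕ → UC A B κ) (i j : ℕ) : e.memC (c i) (c j) ↔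
    e.Th (sd c) (fun v => ((c i).2 (v ∘ blk i)).1 ∈ ((c j).2 (v ∘ blk j)).1) :=
  memC_iff (sd_blk c i) (sd_blk c j)

lemma eqC_sd (c : ℕ → UC A B κ) (i j : ℕ) : e.eqC (c i) (c j) ↔
    e.Th (sd c) (fun v => ((c i).2 (v ∘ blk i)).1 = ((c j).2 (v ∘ blk j)).1) :=
  eqC_iff (sd_blk c i) (sd_blk c j)

lemma memC_congr_left {a a' d : UC A B κ} (h : e.eqC a a') : e.memC a d ↔ e.memC a' d := by
  let c : ℕ → UC A B κ := cons a (cons a' (fun _ => d))
  have h1 : e.eqC (c 0) (c 1) := h
  rw [eqC_sd] at h1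
  have h2 := memC_sd (e := e) c 0 2
  have h3 := memC_sd (e := e) c 1 2
  change e.memC (c 0) (c 2) ↔ e.memC (c 1) (c 2)
  rw [h2, h3]
  apply th_congr
  exact th_mono (fun v hv => by rw [hv]) h1

lemma memC_congr_right {a d d' : UC A B κ} (h : e.eqC d d') : e.memC a d ↔ e.memC a d' := by
  let c : ℕ → UC A B κ := cons a (cons d (fun _ => d'))
  have h1 : e.eqC (c 1) (c 2) := h
  rw [eqC_sd] at h1
  have h2 := memC_sd (e := e) c 0 1
  have h3 := memC_sd (e := e) c 0 2
  change e.memC (c 0) (c 1) ↔ e.memC (c 0) (c 2)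
  rw [h2, h3]
  apply th_congr
  exact th_mono (fun v hv => by rw [hv]) h1

lemma eqC_symm {a b : UC A B κ} (h : e.eqC a b) : e.eqC b a := by
  let c : ℕ → UC A B κ := cons a (fun _ => b)
  have h1 : e.eqC (c 0) (c 1) := h
  rw [eqC_sd] at h1
  change e.eqC (c 1) (c 0)
  rw [eqC_sd]
  exact th_mono (fun v hv => hv.symm) h1

lemma memC_wf (hA : IsTransClass A) (hom : omg ∈ A) :
    WellFounded (e.memC (κ := κ)) := by
  rw [wellFounded_iff_isEmpty_descending_chain]
  refine ⟨fun ⟨f, hf⟩ => ?_⟩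
  have h1 : ∀ n, e.Th (sd f) (fun v =>
      ((f (n+1)).2 (v ∘ blk (n+1))).1 ∈ ((f n).2 (v ∘ blk n)).1) := fun n =>
    (memC_sd f (n+1) n).1 (hf n)
  obtain ⟨v, hv⟩ := th_countable hA hom h1
  have h2 := wellFounded_iff_isEmpty_descending_chain.1 ZFSet.mem_wf.{0}
  exact h2.false ⟨fun n => ((f n).2 (v ∘ blk n)).1, hv⟩

section collapse

variable (hwf : WellFounded (e.memC (κ := κ)))

/-- the collapse of the ultrapower -/
noncomputable def pi : UC A B κ → ZFSet.{0} :=
  hwf.fix (fun c ih => ZFSet.range (fun a : {a // e.memC a c} => ih a.1 a.2))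

lemma mem_pi {c : UC A B κ} {z : ZFSet.{0}} : z ∈ pi hwf c ↔ ∃ a, e.memC a c ∧ pi hwf a = z := by
  unfold pi
  rw [hwf.fix_eq, mem_range]
  constructor
  · rintro ⟨a, ha⟩
    exact ⟨a.1, a.2, ha⟩
  · rintro ⟨a, ha, h⟩
    exact ⟨⟨a, ha⟩, h⟩

lemma pi_eq_of_eqC {c d : UC A B κ} (h : e.eqC c d) : pi hwf c = pi hwf d := by
  ext z
  rw [mem_pi, mem_pi]
  exact exists_congr fun a => and_congr_left fun _ => memC_congr_right h

/-- separation of different names -/
lemma exists_diff {c d : UC A B κ} (h : ¬ e.eqC c d) :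
    (∃ a, e.memC a c ∧ ¬ e.memC a d) ∨ (∃ a, e.memC a d ∧ ¬ e.memC a c) := by
  classical
  have h1 : e.Th (mrg c.1 d.1) (fun v =>
      (∃ x, x ∈ (c.2 (v ∘ eL)).1 ∧ x ∉ (d.2 (v ∘ eR)).1) ∨
      (∃ x, x ∈ (d.2 (v ∘ eR)).1 ∧ x ∉ (c.2 (v ∘ eL)).1)) := by
    have h2 : e.Th (mrg c.1 d.1) (fun v => ¬ (c.2 (v ∘ eL)).1 = (d.2 (v ∘ eR)).1) := th_not.2 h
    refine th_mono (fun v hv => ?_) h2
    by_contra hcon
    push Not at hcon
    apply hv
    ext z
    exact ⟨hcon.1 z, hcon.2 z⟩
  rw [th_or] at h1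
  have aux : ∀ (f g : (ℕ → (A : Set ZFSet.{0})) → (V_ κ : Set ZFSet.{0})),
      e.Th (mrg c.1 d.1) (fun v => ∃ x, x ∈ (f v).1 ∧ x ∉ (g v).1) →
      ∃ a : UC A B κ, a.1 = mrg c.1 d.1 ∧
        e.Th (mrg c.1 d.1) (fun v => (a.2 v).1 ∈ (f v).1) ∧
        e.Th (mrg c.1 d.1) (fun v => ¬ (a.2 v).1 ∈ (g v).1) := by
    intro f g hfg
    let G : (ℕ → (A : Set ZFSet.{0})) → (V_ κ : Set ZFSet.{0}) := fun v =>
      if hv : ∃ x, x ∈ (f v).1 ∧ x ∉ (g v).1 then
        ⟨hv.choose, transV κ _ (f v).2 _ hv.choose_spec.1⟩ else f v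
    have hG : ∀ v, (∃ x, x ∈ (f v).1 ∧ x ∉ (g v).1) → (G v).1 ∈ (f v).1 ∧ ¬ (G v).1 ∈ (g v).1 := by
      intro v hv
      simp only [G, dif_pos hv]
      exact hv.choose_spec
    refine ⟨(mrg c.1 d.1, G), rfl, ?_, ?_⟩
    · exact th_mono (fun v hv => (hG v hv).1) hfg
    · exact th_mono (fun v hv => (hG v hv).2) hfg
  have hid : ∀ S : ℕ → (B : Set ZFSet.{0}), S = S ∘ id := fun S => rfl
  rcases h1 with h1 | h1
  · left
    obtain ⟨a, ha, h2, h3⟩ := aux (fun v => c.2 (v ∘ eL)) (fun v => d.2 (v ∘ eR)) h1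
    refine ⟨a, ?_, ?_⟩
    · rw [memC_iff (S := mrg c.1 d.1) (r := id) (r' := eL) ha (mrg_L _ _).symm]
      exact h2
    · rw [memC_iff (S := mrg c.1 d.1) (r := id) (r' := eR) ha (mrg_R _ _).symm, ← th_not]
      exact h3
  · right
    obtain ⟨a, ha, h2, h3⟩ := aux (fun v => d.2 (v ∘ eR)) (fun v => c.2 (v ∘ eL)) h1
    refine ⟨a, ?_, ?_⟩
    · rw [memC_iff (S := mrg c.1 d.1) (r := id) (r' := eR) ha (mrg_R _ _).symm]
      exact h2
    · rw [memC_iff (S := mrg c.1 d.1) (r := id) (r' := eL) ha (mrg_L _ _).symm, ← th_not]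
      exact h3

lemma eqC_of_pi_eq {c d : UC A B κ} (h : pi hwf c = pi hwf d) : e.eqC c d := by
  induction c using hwf.induction generalizing d with
  | _ c ih =>
    by_contra hcon
    rcases exists_diff hcon with ⟨a, ha, hna⟩ | ⟨a, ha, hna⟩
    · have h1 : pi hwf a ∈ pi hwf d := by rw [← h, mem_pi]; exact ⟨a, ha, rfl⟩
      obtain ⟨a', ha', h2⟩ := (mem_pi hwf).1 h1
      have h3 := ih a ha h2.symm
      exact hna ((memC_congr_left h3).2 ha')
    · have h1 : pi hwf a ∈ pi hwf c := by rw [h, mem_pi]; exact ⟨a, ha, rfl⟩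
      obtain ⟨a', ha', h2⟩ := (mem_pi hwf).1 h1
      have h3 := ih a' ha' h2
      exact hna ((memC_congr_left h3).1 ha')

lemma pi_eq_iff {c d : UC A B κ} : pi hwf c = pi hwf d ↔ e.eqC c d :=
  ⟨eqC_of_pi_eq hwf, pi_eq_of_eqC hwf⟩

lemma pi_mem_iff {c d : UC A B κ} : pi hwf c ∈ pi hwf d ↔ e.memC c d := by
  rw [mem_pi]
  constructor
  · rintro ⟨a, ha, h⟩
    exact (memC_congr_left (eqC_of_pi_eq hwf h)).1 ha
  · intro h
    exact ⟨c, h, rfl⟩

/-- the transitive collapse of the ultrapower -/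
def MM : Set ZFSet.{0} := Set.range (pi hwf)

lemma MM_trans : IsTransClass (MM hwf) := by
  rintro _ ⟨c, rfl⟩ y hy
  obtain ⟨a, _, rfl⟩ := (mem_pi hwf).1 hy
  exact ⟨a, rfl⟩

/-- the theorem of Łoś -/
theorem los (φ : Fml) (c : ℕ → UC A B κ) :
    Sat (memOn (MM hwf)) φ (fun i => ⟨pi hwf (c i), c i, rfl⟩) ↔
      e.Th (sd c) (fun v => Sat (memOn (V_ κ : Set ZFSet.{0})) φ
        (fun i => (c i).2 (v ∘ blk i))) := by
  classical
  induction φ generalizing c with
  | mem i j => exact (pi_mem_iff hwf).trans (memC_sd c i j)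
  | eq i j =>
    rw [sat_eq, Subtype.ext_iff]
    refine ((pi_eq_iff hwf).trans (eqC_sd c i j)).trans ?_
    simp only [sat_eq, Subtype.ext_iff]
  | neg φ ih =>
    rw [sat_neg, ih c, ← th_not]
    rfl
  | and φ ψ ih1 ih2 =>
    rw [sat_and, ih1 c, ih2 c, ← th_and]
    rfl
  | all k φ ih =>
    have hupd : ∀ a : UC A B κ,
        (Function.update (fun i => (⟨pi hwf (c i), c i, rfl⟩ : MM hwf)) k ⟨pi hwf a, a, rfl⟩) =
        (fun i => ⟨pi hwf (Function.update c k a i), Function.update c k a i, rfl⟩) := by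
      intro a
      funext i
      by_cases hik : i = k
      · subst hik
        rw [Function.update_self]
        apply Subtype.ext
        simp only [Function.update_self]
      · rw [Function.update_of_ne hik]
        apply Subtype.ext
        simp only [Function.update_of_ne hik]
    have h1 : Sat (memOn (MM hwf)) (.all k φ) (fun i => ⟨pi hwf (c i), c i, rfl⟩) ↔
        ∀ a : UC A B κ, e.Th (sd (Function.update c k a)) (fun v =>
          Sat (memOn (V_ κ : Set ZFSet.{0})) φ
            (fun i => (Function.update c k a i).2 (v ∘ blk i))) := by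
      rw [sat_all]
      constructor
      · intro h a
        rw [← ih, ← hupd]
        exact h _
      · rintro h ⟨_, a, rfl⟩
        have h2 := h a
        rw [← ih, ← hupd] at h2
        exact h2
    rw [h1]
    constructor
    · -- if the conclusion fails, choose a counterexample
      intro h
      by_contra hcon
      rw [← th_not] at hcon
      let g : (ℕ → (A : Set ZFSet.{0})) → (V_ κ : Set ZFSet.{0}) := fun v =>
        if hv : ∃ x, ¬ Sat (memOn (V_ κ : Set ZFSet.{0})) φ
          (Function.update (fun i => (c i).2 (v ∘ blk i)) k x) then hv.choose else (c k).2 v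
      have h2 := h (sd c, g)
      let ρ : ℕ → ℕ := fun n => if (Nat.unpair n).1 = k then (Nat.unpair n).2 else n
      have hρ : sd (Function.update c k (sd c, g)) = sd c ∘ ρ := by
        funext n
        simp only [sd, mg, Function.comp, ρ]
        by_cases hn : (Nat.unpair n).1 = k
        · rw [if_pos hn, hn, Function.update_self]
          rfl
        · rw [if_neg hn, Function.update_of_ne hn]
      rw [hρ, th_re] at h2
      refine th_false (th_mono ?_ (th_and.2 ⟨h2, hcon⟩))
      rintro v ⟨h3, h4⟩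
      have hv : ∃ x, ¬ Sat (memOn (V_ κ : Set ZFSet.{0})) φ
          (Function.update (fun i => (c i).2 (v ∘ blk i)) k x) := by
        rw [sat_all] at h4
        push Not at h4
        exact h4
      apply hv.choose_spec
      have h5 : (fun i => (Function.update c k (sd c, g) i).2 ((v ∘ ρ) ∘ blk i)) =
          Function.update (fun i => (c i).2 (v ∘ blk i)) k hv.choose := by
        funext i
        by_cases hik : i = k
        · subst hik
          rw [Function.update_self, Function.update_self]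
          have h6 : (v ∘ ρ) ∘ blk i = v := by
            funext m
            simp [Function.comp, ρ, blk]
          rw [h6]
          simp only [g, dif_pos hv]
        · rw [Function.update_of_ne hik, Function.update_of_ne hik]
          refine congrArg (c i).2 ?_
          funext m
          simp [Function.comp, ρ, blk, hik]
      rw [← h5]
      exact h3
    · intro h a
      -- a common seed for `sd c` and `a.1`
      let W := mrg (sd c) a.1
      let ρ : ℕ → ℕ := fun n => if (Nat.unpair n).1 = k then eR (Nat.unpair n).2 else eL n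
      have hρ : sd (Function.update c k a) = W ∘ ρ := by
        funext n
        simp only [sd, mg, Function.comp, ρ]
        by_cases hn : (Nat.unpair n).1 = k
        · rw [if_pos hn, hn, Function.update_self]
          exact (congrFun (mrg_R (sd c) a.1) _).symm
        · rw [if_neg hn, Function.update_of_ne hn]
          exact (congrFun (mrg_L (sd c) a.1) n).symm
      have hW : sd c = W ∘ eL := (mrg_L _ _).symm
      rw [hρ, th_re]
      rw [hW, th_re] at h
      refine th_mono (fun v hv => ?_) h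
      rw [sat_all] at hv
      have h5 := hv (a.2 (v ∘ eR))
      have h6 : (fun i => (Function.update c k a i).2 ((v ∘ ρ) ∘ blk i)) =
          Function.update (fun i => (c i).2 ((v ∘ eL) ∘ blk i)) k (a.2 (v ∘ eR)) := by
        funext i
        by_cases hik : i = k
        · subst hik
          rw [Function.update_self, Function.update_self]
          refine congrArg a.2 ?_
          funext m
          simp [Function.comp, ρ, blk]
        · rw [Function.update_of_ne hik, Function.update_of_ne hik]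
          refine congrArg (c i).2 ?_
          funext m
          simp [Function.comp, ρ, blk, hik]
      rw [h6]
      exact h5

end collapse

end Ext

end Pool.Agent.MP_6fa13c_lc
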